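import Pool.Agent.H3.GW.Defs
import Pool.Agent.H6.G9.Targets3
import Pool.Agent.H3.BT.Targets
import Pool.Agent.H56.E.H56.G3.TS

/-!
# Theorem (H0) on short logarithmic windows (MP_c59857_nt): statements
-/

set_option autoImplicit false

namespace Pool.Agent.H3.GW

open Finset Pool.Agent.H6.N4D Pool.Agent.H93 Pool.Agent.H93.GS Pool.Agent.H6.GS2 Pool.Agent.H6.G9
  Pool.Agent.H28.NW

/-! ## B. one level, logarithmic means -/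

/-- LVU. The inequality of one level; the constant `C₀` is absolute. -/
def W_LVU : Prop := ∃ C₀ : ℝ, 0 < C₀ ∧ ∀ th : ℝ, 0 < th → th ≤ 1 → ∃ (A C : ℝ) (p₀ J m₁ : ℕ),
  0 < A ∧ 0 < C ∧ 4 * p₀ ≤ m₁ ∧ ∀ (η : ℝ) (D : ℕ) (X : Wn) (m : ℕ) (lam : ℕ → ℝ), 0 < η →
    η ≤ 1 → 2 ≤ D → 1 ≤ X.L → m₁ ≤ m → Lio lam →
    wlg X (fun n => En th lam 1 (2 ^ (m - m / 500)) n) -
        wlg X (fun n => En th lam 1 (2 ^ (D * m - m / 100)) n) ≤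
      (1 + η) * (wlg X (fun n => En th lam 1 (2 ^ m) n) -
        wlg X (fun n => En th lam 1 (2 ^ (D * m)) n)) +
      C₀ / η * wlg X (fun n => UB lam J A m n) +
      C / η * (wgm th lam X p₀ m + wgmq th lam X p₀ m + wgm th lam X p₀ (D * m) +
        (1 / 2) ^ (m / 2000) * X.L + 3 * (D * m + 1))

/-- GMD. The defects at the scales `D m` are summable. -/
def W_GMD : Prop := ∀ (th : ℝ) (p₀ D : ℕ), 0 < th → th ≤ 1 → 2 ≤ D → ∃ C : ℝ, 0 < C ∧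
  ∀ (X : Wn) (m₀ me : ℕ) (lam : ℕ → ℝ), 1 ≤ X.L → (∀ n, |lam n| ≤ 1) →
    1000 * (p₀ + 1) ≤ m₀ → m₀ ≤ me →
    ∑ m ∈ Icc m₀ me, 1 / (m : ℝ) * wgm th lam X p₀ (D * m) ≤
      C / m₀ * X.L + C * (me + 1) * (1 + Real.log me)

/-! ## C. the inequality of Bessel for families -/

/-- BTS. The inequality of Bessel for tuples, sliding windows with logarithmic weights. The
constant `C` is absolute: it does not depend on the number `k` of the exponentials. -/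
def W_BTS : Prop := ∃ (B : ℕ) (C : ℝ), 1 ≤ B ∧ 0 < C ∧ ∀ R k : ℕ, ∃ s₀ : ℕ,
  ∀ (s : ℕ) (X : Wn) (K k₁ : ℕ) (lam : ℕ → ℝ) (e : ℝ) (m : ℕ → ℕ) (b : ℕ → ℕ → ℕ → ℕ → ℂ)
    (α : ℕ → ℕ → ℕ → ℕ → ℝ),
    s₀ ≤ s → 1 ≤ X.L → (∀ n, |lam n| ≤ 1) → WBase lam R (2 ^ s) e X → K ≤ 2 ^ (s / B) →
    B * s ≤ m 0 → (∀ i, i + 1 < K → B * m i ≤ m (i + 1)) → (∀ i < K, m i ≤ k₁) →
    (∀ i < K, ∀ n, Pool.Agent.H3.BT.TC (m i) n k (2 ^ (s / B)) (b i n) (α i n)) →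
    ∑ i ∈ range K, wlg X (fun n => Pool.Agent.H3.BT.Pt lam (m i) n k (b i n) (α i n)) ≤
      (C * e + (1 / 2) ^ (s / B)) * X.L + C * K * (k₁ + 1)

/-- BSU. The inequality of Bessel for the functional `UB`; the constant `C₀` is absolute. -/
def W_BSU : Prop := ∃ (B : ℕ) (C₀ : ℝ), 1 ≤ B ∧ 0 < C₀ ∧ ∀ (R J : ℕ) (A : ℝ), 0 ≤ A →
  ∃ s₀ : ℕ, ∀ (s : ℕ) (X : Wn) (K k₁ : ℕ) (lam : ℕ → ℝ) (e : ℝ) (m : ℕ → ℕ), s₀ ≤ s →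
    1 ≤ X.L → 0 ≤ e →
    (∀ n, |lam n| ≤ 1) → WBase lam R (2 ^ s) e X → K ≤ 2 ^ (s / B) →
    B * s ≤ m 0 → (∀ i, i + 1 < K → B * m i ≤ m (i + 1)) → (∀ i < K, m i ≤ k₁) →
    ∑ i ∈ range K, wlg X (fun n => UB lam J A (m i) n) ≤
      (C₀ * e + (1 / 2) ^ (s / B)) * X.L + C₀ * K * (k₁ + 1)

/-! ## D. the whole range of scales -/

/-- EUS. The loss of energy on a stage: `B` is absolute, `e` depends only on `ε`. -/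
def W_EUS : Prop := ∃ B : ℕ, 1 ≤ B ∧ ∀ ε : ℝ, 0 < ε → ∃ e : ℝ, 0 < e ∧ ∀ th : ℝ, 0 < th →
  th ≤ 1 → ∀ R : ℕ, ∃ (s₀ : ℕ) (X₀ : ℝ), ∀ (s : ℕ) (X : Wn) (kk : ℕ) (lam : ℕ → ℝ), s₀ ≤ s →
    X₀ ≤ X.L → Lio lam → Real.log kk ≤ 2 ^ (s / B) → WBase lam R (2 ^ s) e X →
    ∀ k₀ k : ℕ, B * s ≤ k₀ → k₀ ≤ k → k ≤ kk → (k : ℝ) ≤ 2 * X.T ^ (191 / 200 : ℝ) →
      wte th lam X k₀ - ε ≤ wte th lam X k

/-- EU1. The loss of energy from a bounded scale to the powers of the logarithmic length. -/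
def W_EU1 : Prop := ∃ B : ℕ, 1 ≤ B ∧ ∀ ε : ℝ, 0 < ε → ∃ e : ℝ, 0 < e ∧ ∀ th : ℝ, 0 < th →
  th ≤ 1 → ∀ R : ℕ, ∃ s₀ : ℕ, ∀ s, s₀ ≤ s → ∃ X₀ : ℝ, ∀ (X : Wn) (lam : ℕ → ℝ), X₀ ≤ X.L →
    Lio lam → WBase lam R (2 ^ s) e X → ∀ k₀ k : ℕ, B * s ≤ k₀ → k₀ ≤ k →
      (16 : ℝ) ^ k ≤ X.L → wte th lam X k₀ - ε ≤ wte th lam X k

/-- E3R. The conclusion of section 3 on a range of scales of bounded ratio near the top. -/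
def W_E3R : Prop := ∀ th c : ℝ, 0 < th → th ≤ 1 → 0 < c → ∃ (ε C : ℝ) (D : ℕ) (X₀ : ℝ),
  0 < ε ∧ 0 < C ∧ 1 ≤ D ∧ ∀ (X : Wn) (a : ℕ) (lam : ℕ → ℝ), X₀ ≤ X.L → Lio lam →
    C * X.T ^ (19 / 20 : ℝ) ≤ a → (D : ℝ) * a ≤ X.T ^ (191 / 200 : ℝ) →
    (∀ m : ℕ, a ≤ m → m ≤ D * a → wHm th ε lam X m) →
    (∀ k l : ℕ, a ≤ k → k ≤ l → l ≤ 2 * D * a → wte th lam X k - ε ≤ wte th lam X l) →
    wte th lam X a < c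

/-- PGN. A good range near the top, for every function. -/
def W_PGN : Prop := ∀ (th ε C : ℝ) (D : ℕ), 0 < th → th ≤ 1 → 0 < ε → 0 < C → 1 ≤ D →
  ∃ X₀ : ℝ, ∀ (X : Wn) (lam : ℕ → ℝ), X₀ ≤ X.L → Lio lam → ∃ a : ℕ,
    C * X.T ^ (19 / 20 : ℝ) ≤ a ∧ (D : ℝ) * a ≤ X.T ^ (191 / 200 : ℝ) ∧
    (∀ m : ℕ, a ≤ m → m ≤ D * a → wHm th ε lam X m) ∧
    ∀ k l : ℕ, a ≤ k → k ≤ l → l ≤ 2 * D * a → wte th lam X k - ε ≤ wte th lam X l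

/-- TOP. At the top the energy is small, for every function with the properties of Liouville's
function. -/
def W_TOPE : Prop := ∀ th c : ℝ, 0 < th → th ≤ 1 → 0 < c → ∃ X₀ : ℝ, ∀ (X : Wn) (lam : ℕ → ℝ),
  X₀ ≤ X.L → Lio lam → ∃ a : ℕ, X.T ^ (1 / 2 : ℝ) ≤ a ∧
    (a : ℝ) ≤ X.T ^ (191 / 200 : ℝ) ∧ wte th lam X a < c

/-- QT. Structure at the scale `2 ^ s` and energy near one at the scale `2 ^ (B s)` is impossible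
if `s` is at least an iterated logarithm. -/
def W_QT : Prop := ∃ B : ℕ, 1 ≤ B ∧ ∀ T : ℕ, 2 ≤ T → ∃ e : ℝ, 0 < e ∧ e ≤ 1 ∧ ∀ th : ℝ, 0 < th →
  th ≤ 1 → ∀ R : ℕ, ∃ s₀ : ℕ, ∀ (s : ℕ) (X : Wn) (lam : ℕ → ℝ), s₀ ≤ s →
    Real.log^[T] (X.hi : ℝ) ≤ s →
    (s : ℝ) ^ 4 ≤ X.L → Lio lam → WBase lam R (2 ^ s) e X →
      wte th lam X (B * s) < 1 - e

/-- GH0. The final theorem: absolute constants, all lengths, all windows. -/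
def W_GH0 : Prop := ∃ (c : ℝ) (K : ℕ), 0 < c ∧ 1 ≤ K ∧ ∀ R : ℕ, ∃ H₀ : ℕ, ∀ (X : Wn) (H : ℕ)
  (lam : ℕ → ℝ), H₀ ≤ H → K * Real.log H ≤ X.L → Lio lam →
  ∀ (b : ℕ → ℕ → ℂ) (β : ℕ → ℕ → ℝ), (∀ n r, ‖b n r‖ ≤ 1) →
    c * X.L < wlg X (fun n => (∑ m ∈ Ioc n (n + H),
      ‖(lam m : ℂ) - ∑ r ∈ range R, b n r * ee (β n r * m)‖ ^ 2) / H)

/-- G9T. The final theorem for iterated logarithms. -/
def W_G9T : Prop := ∀ T : ℕ, ∃ (c : ℝ) (K : ℕ), 0 < c ∧ 1 ≤ K ∧ ∀ R : ℕ, ∃ H₀ : ℕ, ∀ (X : Wn)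
  (H : ℕ) (lam : ℕ → ℝ), H₀ ≤ H → Real.log^[T] (X.hi : ℝ) ≤ H → K * Real.log H ≤ X.L →
  Lio lam → ∀ (b : ℕ → ℕ → ℂ) (β : ℕ → ℕ → ℝ), (∀ n r, ‖b n r‖ ≤ 1) →
    c * X.L < wlg X (fun n => (∑ m ∈ Ioc n (n + H),
      ‖(lam m : ℂ) - ∑ r ∈ range R, b n r * ee (β n r * m)‖ ^ 2) / H)

/-! ## the stretch -/

section

open Pool.Agent.H78.GX.H6.N4D Pool.Agent.H56.E.H56.G3 Pool.Agent.H93.EB Pool.Agent.H56.G3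

/-- SZ. The logarithmic sums of the tests and of the changes of the energy. -/
def W_SZE : Prop := ∀ (th : ℝ) (lam : ℕ → ℝ) (m : ℕ), 0 < th → th ≤ 1 → B1 lam → 1 ≤ m →
  ∀ X : Wn, 1 ≤ X.L → wlg X (Pool.Agent.H56.E.H56.G3.zs lam m) ≤ wbA lam X m ∧
    wlg X (Pool.Agent.H56.E.H56.G3.ts th lam m) = wch th lam X m

/-- SW. The choice of the stretch. -/
def W_SWE : Prop := ∀ (K r : ℕ) (A c : ℝ), 1 ≤ K → 1 ≤ A → 0 < c → ∃ X₀ : ℝ,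
  ∀ (X : Wn) (u : ℕ) (U : ℕ → ℝ), X₀ ≤ X.L → X.T ^ (19 / 20 : ℝ) ≤ u * Real.log 2 →
    (2 : ℝ) ^ (2 * K + 12) * u ≤ X.T ^ (191 / 200 : ℝ) → (∀ n, U n ≤ A) →
    c * X.L ≤ wlg X U →
    ∃ S : Pool.Agent.H6.N4D.Par, S.L = u * Real.log 2 ∧ (X.hi : ℝ) ≤ S.X ∧
      Pool.Agent.H56.E.H56.G3.Str3 S K r (2 ^ (2 * K + 12) * u) ∧
      c / 2 * (S.N * S.h) ≤ Pool.Agent.H56.E.H56.G3.sS S U

/-- SG. A stretch with good windows and large energy. -/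
def W_SGE : Prop := ∀ th c : ℝ, 0 < th → th ≤ 1 → 0 < c → ∀ (K : ℕ) (κ ε : ℝ), 1 ≤ K →
  0 < κ → 0 < ε → ∃ (ε' : ℝ) (r : ℕ), 0 < ε' ∧ ∀ X₁ : ℝ, ∃ X₀ : ℝ,
  ∀ (X : Wn) (u : ℕ) (lam : ℕ → ℝ), X₀ ≤ X.L → Lio lam →
    X.T ^ (19 / 20 : ℝ) ≤ u * Real.log 2 →
    (2 : ℝ) ^ (2 * K + 12) * u ≤ X.T ^ (191 / 200 : ℝ) →
    (∀ i < 2 * K + 2, wHm th ε' lam X (400 * u * 2 ^ i)) →
    c ≤ wte th lam X u → wte th lam X u - ε' ≤ wte th lam X (2 ^ (2 * K + 12) * u) →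
    ∃ S : Pool.Agent.H6.N4D.Par,
      Pool.Agent.H56.E.H56.G3.Str3 S K r (2 ^ (2 * K + 12) * u) ∧ X₁ ≤ S.X ∧
      S.cnt (fun t => ¬ Pool.Agent.H56.E.H56.G3.Gt th κ lam S t) ≤ ε * S.N ∧
      c / 20 * S.N ≤
        S.cnt (fun t => c / 20 ≤ En th lam 1 (Pool.Agent.H56.E.H56.G3.Nt S t) (S.n t))

end

end Pool.Agent.H3.GW
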