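import Pool.Agent.H3.GW.Comp
import Pool.Agent.H22.G0.Fin
import Pool.Agent.H28.NW.BAB
import Pool.Agent.H36.NW.GENB
import Pool.Agent.H40.NW.BESF
import Pool.Agent.H5.NW.LIM

/-!
# The logarithmic windows, MP_c59857_nt: theorem (H0) on short logarithmic windows

The last theorem `gh0w` has no hypotheses.
-/

set_option autoImplicit false

namespace Pool.Agent.H3.GW.Fin

open Pool.Agent.H28.NW Pool.Agent.H3.GW

theorem bBAB : W_BAB := Pool.Agent.H28.NW.EL.pf_BAB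
theorem bLIM : W_LIM := Pool.Agent.H5.NW.pf_LIM
theorem bBES : W_BES :=
  Pool.Agent.H40.NW.BESF.sw_FIN
    (Pool.Agent.H36.NW.GENB.sw_GEN (Pool.Agent.H3.BES.sw_ONE Pool.Agent.H21.BS.bes)
      (Pool.Agent.H3.BES.msu_of Pool.Agent.H20.ENM.pf_QMS))
    (Pool.Agent.H3.BES.msu_of Pool.Agent.H20.ENM.pf_QMS) Pool.Agent.H21.BS.nc0
    Pool.Agent.H3.BES.clu

theorem bE3r : W_E3r :=
  Comp.c_E3R bBAB Pool.Agent.H6.N4D.All.gap Pool.Agent.H78.GX.All.aBUN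
    Pool.Agent.H56.E.H56.G3.All.aRB Pool.Agent.H56.E.H56.G3.All.aWQ
    Pool.Agent.H56.E.H56.G3.All.aSV Pool.Agent.H56.E.H56.G3.All.aSZ
    Pool.Agent.H56.E.H56.G3.All.aSA1 Pool.Agent.H56.E.H56.G3.All.aSA2
    Pool.Agent.H56.E.H56.G3.All.aSN Pool.Agent.H56.E.H56.G3.All.aBN

theorem bTOPE : W_TOPE :=
  Comp.c_TOPE bBAB bLIM bBES bE3r Pool.Agent.H22.GS.Fin.aKCH Pool.Agent.H22.GS.Fin.aCHW
    Pool.Agent.H22.GS.Fin.aQMS

theorem bQT : W_QT :=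
  Comp.c_QT bTOPE Pool.Agent.H22.G9.Fin.aONU Pool.Agent.H22.G9.Fin.aUBB
    Pool.Agent.H22.G9.Fin.aONT Pool.Agent.H22.G9.Fin.aMSU Pool.Agent.H22.G9.Fin.aNRS

theorem bEU1 : W_EU1 :=
  Comp.c_EU1 Pool.Agent.H22.G0.Fin.aBLO Pool.Agent.H22.G0.Fin.aONR Pool.Agent.H22.G0.Fin.aUBR
    Pool.Agent.H22.G9.Fin.aNRS

/-- theorem (H), all iterated logarithms, on short logarithmic windows -/
theorem g9tw : W_G9T := Q.pf_G9T bQT

/-- theorem (H0) on short logarithmic windows -/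
theorem gh0w : W_GH0 := S.pf_GH0 bEU1 bQT

end Pool.Agent.H3.GW.Fin
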