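import Pool.Agent.H28.NW.Targets
import Pool.Agent.H72.GS2.Targets
import Pool.Agent.H93.GS.Asm

/-!
# Theorem (G) on short logarithmic windows (MP_c59857_nt): definitions

All logarithmic means are taken over a window `X : Wn` with
`log (hi / lo) ≥ (log hi) ^ (24 / 25)`.
-/

set_option autoImplicit false

namespace Pool.Agent.H3.GW

open Finset Pool.Agent.H6.N4D Pool.Agent.H93.GS Pool.Agent.H93 Pool.Agent.H28.NW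

/-- the mean energy at the scale `2 ^ k` -/
noncomputable def wte (th : ℝ) (lam : ℕ → ℝ) (X : Wn) (k : ℕ) : ℝ :=
  wlg X (fun n => En th lam 1 (2 ^ k) n) / X.L

/-- the sum of the failures of the level `m` -/
noncomputable def wbF (lam : ℕ → ℝ) (X : Wn) (m : ℕ) (th' δ c : ℝ) : ℝ :=
  wlg X (fun n => ∑ q ∈ EB.QQ m, 1 / (q : ℝ) * EB.ind (JF lam q (2 ^ m) n th' δ c))

/-- the defects of the level `m`, whole windows, `2 ^ p₀` pieces -/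
noncomputable def wgm (th : ℝ) (lam : ℕ → ℝ) (X : Wn) (p₀ m : ℕ) : ℝ :=
  wlg X (fun n => En th lam 1 (2 ^ (m - p₀)) n) - wlg X (fun n => En th lam 1 (2 ^ m) n)

/-- the defects of the level `m`, multiples of the primes, `2 ^ p₀` pieces -/
noncomputable def wgmq (th : ℝ) (lam : ℕ → ℝ) (X : Wn) (p₀ m : ℕ) : ℝ :=
  ∑ q ∈ EB.QQ m, 1 / (q : ℝ) * (wlg X (fun n => En th lam q (2 ^ (m - p₀)) n) -
    wlg X (fun n => En th lam q (2 ^ m) n))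

/-- the sum over the primes of the level `m` of the changes of the energy -/
noncomputable def wch (th : ℝ) (lam : ℕ → ℝ) (X : Wn) (m : ℕ) : ℝ :=
  wlg X (fun n => ∑ q ∈ EB.QQ m, 1 / (q : ℝ) *
    |En th lam q (2 ^ m) n - En th lam 1 (2 ^ m) n|)

/-- the output for section 3: tests, changes of the energy at the level `m` -/
def wHm (th ε : ℝ) (lam : ℕ → ℝ) (X : Wn) (m : ℕ) : Prop :=
  wbA lam X m ≤ ε * X.L ∧ wch th lam X m ≤ ε * X.L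

/-- `lam` is, in the mean over the windows of length `H`, at distance more than `1 / j` from all
sums of `R j` exponentials, for some `j ≤ K` -/
def wFar1 (lam : ℕ → ℝ) (R : ℕ → ℕ) (K H : ℕ) (X : Wn) : Prop := ∃ j : ℕ, 1 ≤ j ∧ j ≤ K ∧
  ∀ (b : ℕ → ℕ → ℂ) (β : ℕ → ℕ → ℝ), (∀ n r, ‖b n r‖ ≤ 1) →
    1 / (j : ℝ) * X.L <
      wlg X (fun n => (∑ m ∈ Ioc n (n + H),
        ‖(lam m : ℂ) - ∑ r ∈ range (R j), b n r * ee (β n r * m)‖ ^ 2) / H)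

/-! ## statements -/

/-- EBT. The inequality of Bessel for levels of any number, below the logarithm, with an
arbitrary threshold `th` and an arbitrary precision `δ`. -/
def W_EBT : Prop := ∀ th δ : ℝ, 0 < th → 0 < δ → ∃ B : ℕ, 1 ≤ B ∧ ∀ ε : ℝ, 0 < ε →
  ∃ e : ℝ, 0 < e ∧ ∀ R : ℕ, ∃ s₀ : ℕ, ∀ s, s₀ ≤ s → ∃ X₀ : ℝ, ∀ (X : Wn) (K : ℕ) (lam : ℕ → ℝ)
    (m : ℕ → ℕ), X₀ ≤ X.L → (∀ n, 1 ≤ n → lam n = 1 ∨ lam n = -1) → WBase lam R (2 ^ s) e X →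
    B * s ≤ m 0 → (∀ i, i + 1 < K → B * m i ≤ m (i + 1)) →
    (∀ i < K, (4 : ℝ) ^ m i ≤ X.L) →
    (∀ (α : ℕ → ℕ → ℝ) (g : ℕ → ℕ → ℕ → ℕ → ℂ),
      (∀ i < K, ∀ n, ∀ q ∈ EB.QQ (m i), EB.BV (2 ^ m i) n (g i n q)) →
      wbesSum lam X K m (fun i n _ => α i n) g ≤ ε * X.L) ∧
    (∀ β : ℕ → ℕ → ℕ → ℝ, ∃ α : ℕ → ℕ → ℕ → ℝ,
      (∀ i < K, ∀ n, ∀ q ∈ EB.QQ (m i), ∃ b : ℤ,
        nd (α i n q - β i n q - (b : ℝ) / q) ≤ δ / 2 ^ m i) ∧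
      ∑ i ∈ range K, wlg X (fun n => ∑ q ∈ EB.QQ (m i), 1 / (q : ℝ) *
        (EB.ind (th ≤ ‖EB.crq lam q (2 ^ m i) n (β i n q)‖) *
          EB.zz lam q (2 ^ m i) n (α i n q) (fun _ => 1) ^ 2)) ≤ ε * X.L)

/-- DLG. Dilation: the energy of the multiples of `q` is the energy of a shorter window. -/
def W_DLG : Prop := ∀ th : ℝ, 0 < th → th ≤ 1 → ∃ C : ℝ, 0 < C ∧
  ∀ (X : Wn) (k q : ℕ) (lam : ℕ → ℝ), 1 ≤ X.L → Lio lam → q.Prime → q ^ 2 ≤ 2 ^ k →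
    |wlg X (fun n => En th lam q (2 ^ k) n) - wlg X (fun n => En th lam 1 (2 ^ k / q) n)| ≤
      C * (k + 1) + C * ((q : ℝ) / 2 ^ k) * X.L

/-- MNX. The energy does not increase with the length, arbitrary lengths. -/
def W_MNX : Prop := ∀ th : ℝ, 0 < th → th ≤ 1 → ∃ C : ℝ, 0 < C ∧
  ∀ (X : Wn) (N H : ℕ) (lam : ℕ → ℝ), 1 ≤ X.L → (∀ n, |lam n| ≤ 1) → 1 ≤ N → N ≤ H →
    wlg X (fun n => En th lam 1 H n) ≤ wlg X (fun n => En th lam 1 N n) +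
      C * ((N : ℝ) / H * X.L + Real.log H + 1)

/-- TEB. The mean energies are bounded. -/
def W_TEB : Prop := ∀ th : ℝ, 0 < th → th ≤ 1 → ∀ (X : Wn) (k : ℕ) (lam : ℕ → ℝ), 1 ≤ X.L →
  (∀ n, |lam n| ≤ 1) → 0 ≤ wte th lam X k ∧ wte th lam X k ≤ 2

/-- LVG. The inequality of one level. -/
def W_LVG : Prop := ∀ th : ℝ, 0 < th → th ≤ 1 → ∃ (κ c₁ δ C : ℝ) (p₀ m₁ : ℕ),
  0 < κ ∧ 0 < c₁ ∧ 0 < δ ∧ 0 < C ∧ 4 * p₀ ≤ m₁ ∧
  ∀ (η : ℝ) (A : ℕ) (X : Wn) (m : ℕ) (lam : ℕ → ℝ), 0 < η → η ≤ 1 → 2 ≤ A → 1 ≤ X.L →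
    m₁ ≤ m → Lio lam →
    wlg X (fun n => En th lam 1 (2 ^ (m - m / 500)) n) -
        wlg X (fun n => En th lam 1 (2 ^ (A * m - m / 100)) n) ≤
      (1 + η) * (wlg X (fun n => En th lam 1 (2 ^ m) n) -
        wlg X (fun n => En th lam 1 (2 ^ (A * m)) n)) +
      C / η * (wbA lam X m + wbF lam X m (th / 2) δ c₁ + wgm th lam X p₀ m +
        wgmq th lam X p₀ m + (1 / 2) ^ (m / 2000) * X.L + A * m + 1)

/-- CH3. The changes of the energy of one level. -/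
def W_CH3 : Prop := ∀ th : ℝ, 0 < th → th ≤ 1 → ∃ (κ c₁ δ C : ℝ) (p₀ m₁ : ℕ),
  0 < κ ∧ 0 < c₁ ∧ 0 < δ ∧ 0 < C ∧ 4 * p₀ ≤ m₁ ∧
  ∀ (X : Wn) (m : ℕ) (lam : ℕ → ℝ), 1 ≤ X.L → m₁ ≤ m → Lio lam →
    wch th lam X m ≤ C * (Real.sqrt (wbA lam X m * X.L) + wbA lam X m +
      wbF lam X m (th / 2) δ c₁ + wgm th lam X p₀ m +
      wgmq th lam X p₀ m + (1 / 2) ^ (m / 2000) * X.L + 3 * (m + 1))

/-- MNE. The energy does not increase with the length. -/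
def W_MNE : Prop := ∀ th : ℝ, 0 < th → th ≤ 1 → ∃ C : ℝ, 0 < C ∧
  ∀ (X : Wn) (k l q : ℕ) (lam : ℕ → ℝ), 1 ≤ X.L → (∀ n, |lam n| ≤ 1) → k ≤ l → 1 ≤ q →
    q ≤ 2 ^ k →
    wlg X (fun n => En th lam q (2 ^ l) n) ≤
      wlg X (fun n => En th lam q (2 ^ k) n) + C * (l + 1)

/-- GMQ. The defects for the multiples of the primes are summable over the levels. -/
def W_GMQ : Prop := ∀ (th : ℝ) (p₀ : ℕ), 0 < th → th ≤ 1 → ∃ C : ℝ, 0 < C ∧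
  ∀ (X : Wn) (m₀ me : ℕ) (lam : ℕ → ℝ), 1 ≤ X.L → (∀ n, |lam n| ≤ 1) →
    1000 * (p₀ + 1) ≤ m₀ → m₀ ≤ me →
    ∑ m ∈ Icc m₀ me, 1 / (m : ℝ) * (wgm th lam X p₀ m + wgmq th lam X p₀ m) ≤
      C / m₀ * X.L + C * (me + 1) * (1 + Real.log me)

/-- EN1. The energy is almost constant from a bounded scale to the powers of the logarithm. -/
def W_EN1 : Prop := ∀ th : ℝ, 0 < th → th ≤ 1 → ∃ B : ℕ, 1 ≤ B ∧ ∀ ε : ℝ, 0 < ε →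
  ∃ e : ℝ, 0 < e ∧ ∀ R : ℕ, ∃ s₀ : ℕ, ∀ s, s₀ ≤ s → ∃ X₀ : ℝ, ∀ (X : Wn) (lam : ℕ → ℝ),
    X₀ ≤ X.L → Lio lam → WBase lam R (2 ^ s) e X →
    ∀ k₀ k : ℕ, B * s ≤ k₀ → k₀ ≤ k → (16 : ℝ) ^ k ≤ X.L →
      wte th lam X k₀ - ε ≤ wte th lam X k

/-- EN2. The energy is almost constant above the powers of `log log X`, with the output for
section 3. -/
def W_EN2 : Prop := ∀ th : ℝ, 0 < th → th ≤ 1 → ∃ B : ℕ, 1 ≤ B ∧ ∀ ε : ℝ, 0 < ε →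
  ∃ e : ℝ, 0 < e ∧ ∀ R : ℕ, ∃ (s₀ : ℕ) (X₀ : ℝ), ∀ (s : ℕ) (X : Wn) (lam : ℕ → ℝ), s₀ ≤ s →
    X₀ ≤ X.L → Lio lam → Real.log X.T ≤ 2 ^ (s / B) → WBase lam R (2 ^ s) e X →
    (∀ k₀ k : ℕ, B * s ≤ k₀ → k₀ ≤ k → (k : ℝ) ≤ 2 * X.T ^ (191 / 200 : ℝ) →
      wte th lam X k₀ - ε ≤ wte th lam X k) ∧
    ∀ m : ℕ, 2 * (B * s) ≤ m → (m : ℝ) ≤ X.T ^ (191 / 200 : ℝ) → wHm th ε lam X m

/-- LNK. Energy near one gives the structure which the second stage needs. -/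
def W_LNK : Prop := ∀ th : ℝ, 0 < th → th ≤ 1 → ∃ (R' p₀ s₀ : ℕ), ∀ δ : ℝ, 0 < δ →
  ∃ ε : ℝ, 0 < ε ∧ ∀ (s : ℕ) (X : Wn) (lam : ℕ → ℝ), s₀ ≤ s → 1 ≤ X.L → (s : ℝ) ≤ ε * X.L →
    (∀ n, lam n = 1 ∨ lam n = -1) → 1 - δ ≤ wte th lam X s →
    wte th lam X (s - p₀) - ε ≤ wte th lam X s → WBase lam R' (2 ^ s) (2 * δ) X

/-- LOW. Structure at a scale gives energy near one, for a threshold which is small in terms of
the number of the exponentials. -/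
def W_LOW : Prop := ∀ (th e : ℝ) (R s : ℕ) (X : Wn) (lam : ℕ → ℝ), 0 < th → 0 ≤ e → 1 ≤ X.L →
  (∀ n, lam n = 1 ∨ lam n = -1) → WBase lam R (2 ^ s) e X →
    1 - e - 2 * th * R ≤ wte th lam X s

/-- GFT. No function with the properties of Liouville's function is almost periodic on windows. -/
def W_GFT : Prop := ∀ R : ℕ → ℕ, ∃ K : ℕ, 1 ≤ K ∧ ∀ H, K ≤ H → ∃ X₀ : ℝ, ∀ (X : Wn)
  (lam : ℕ → ℝ), X₀ ≤ X.L → Lio lam → wFar1 lam R K H X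

/-- GFU. The uniform form: all lengths up to a power of the logarithmic length. -/
def W_GFU : Prop := ∀ R : ℕ → ℕ, ∃ K : ℕ, 1 ≤ K ∧ ∀ (X : Wn) (H : ℕ) (lam : ℕ → ℝ), K ≤ H →
  K * Real.log H ≤ X.L → Lio lam → wFar1 lam R K H X

/-- E3r. The energy at a level `u` is small, if the tests of a geometric chain of levels above
`u` are small and the energy is almost constant on a range of bounded ratio. -/
def W_E3r : Prop := ∀ th c : ℝ, 0 < th → th ≤ 1 → 0 < c → ∃ (ε : ℝ) (A : ℕ) (X₀ : ℝ), 0 < ε ∧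
  1 ≤ A ∧ ∀ (X : Wn) (u : ℕ) (lam : ℕ → ℝ), X₀ ≤ X.L → Lio lam →
    X.T ^ (19 / 20 : ℝ) ≤ u * Real.log 2 → (2 : ℝ) ^ A * u ≤ X.T ^ (191 / 200 : ℝ) →
    (∀ i < A, wHm th ε lam X (400 * u * 2 ^ i)) →
    wte th lam X u - ε ≤ wte th lam X (2 ^ A * u) → wte th lam X u < c

end Pool.Agent.H3.GW
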