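import Pool.Agent.H93.GS.Link
import Pool.Agent.H3.GW.Defs
import Pool.Agent.H28.NW.Defs

/-!
# Theorem (G), MP_c59857_nt: LOW, LNK and windows inside windows
-/

set_option autoImplicit false

namespace Pool.Agent.H3.GW.B

open Pool.Agent.H93.GS Pool.Agent.H28.NW Pool.Agent.H3.GW
open Finset Pool.Agent.H6.N4D Pool.Agent.H93

theorem pf_LOW : W_LOW := by
  intro th e R s X lam hth he hX hl hB
  obtain ⟨b, β, hb, hB⟩ := hB
  have hN : 0 < 2 ^ s := by positivity
  have hlog : 0 < X.L := by linarith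
  have h1 : ∀ n ∈ Icc X.lo X.hi, (1 - 2 * th * R) - (∑ m ∈ Ioc n (n + 2 ^ s),
      ‖(lam m : ℂ) - ∑ r ∈ range R, b n r * ee (β n r * m)‖ ^ 2) / ((2 ^ s : ℕ) : ℝ) ≤
      En th lam 1 (2 ^ s) n := by
    intro n _
    have h2 := J_le_En th lam (2 ^ s) n hN hth.le hl ⟨R, b n, β n⟩
    rw [J_eq th lam (2 ^ s) n _ hN hl] at h2
    have h3 : (⟨R, b n, β n⟩ : Ex).nm ≤ R := by
      unfold Ex.nm
      calc ∑ i ∈ range R, ‖b n i‖ ≤ ∑ i ∈ range R, (1 : ℝ) := sum_le_sum fun i _ => hb n i
        _ = R := by simp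
    have h4 : 2 * th * (⟨R, b n, β n⟩ : Ex).nm ≤ 2 * th * R :=
      mul_le_mul_of_nonneg_left h3 (by positivity)
    unfold dm Ex.f at h2
    simp only at h2
    linarith
  have h5 := wlg_mono h1
  rw [wlg_sub, wlg_const] at h5
  have h7 : X.L ≤ wlg X (fun _ => 1) := L_le_wlg_one X
  unfold wte
  rcases le_or_gt (2 * th * R) 1 with h | h
  · rw [le_div_iff₀ hlog]
    have h8 : (1 - 2 * th * R) * X.L ≤ (1 - 2 * th * R) * wlg X (fun _ => 1) :=
      mul_le_mul_of_nonneg_left h7 (by linarith)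
    have h9 : wlg X (fun n => (∑ m ∈ Ioc n (n + 2 ^ s),
      ‖(lam m : ℂ) - ∑ r ∈ range R, b n r * ee (β n r * m)‖ ^ 2) / ((2 ^ s : ℕ) : ℝ)) ≤
      e * X.L := hB
    linarith
  · have h8 : 0 ≤ wlg X (fun n => En th lam 1 (2 ^ s) n) :=
      wlg_nonneg fun n _ => En_nonneg th lam _ n hN hth.le hl
    have h9 : 0 ≤ wlg X (fun n => En th lam 1 (2 ^ s) n) / X.L := by positivity
    linarith

/-- LNK. Energy near one gives structure on windows. -/
theorem lnk2 (th δ : ℝ) (hth : 0 < th) (hδ : 0 < δ) : ∃ (R' : ℕ) (X₀ : ℝ),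
    ∀ (s : ℕ) (X : Wn) (lam : ℕ → ℝ), X₀ ≤ X.L → (∀ n, lam n = 1 ∨ lam n = -1) →
    1 - δ ≤ wte th lam X s →
    WBase lam R' (2 ^ s) (2 * δ) X := by
  set τ : ℝ := min (δ / 4) 1 with hτ
  have hτ0 : 0 < τ := lt_min (by positivity) one_pos
  have hτ1 : τ ≤ 1 := min_le_right _ _
  have hτ2 : τ ≤ δ / 4 := min_le_left _ _
  obtain ⟨R', hR⟩ := near th τ hth hτ0 hτ1
  refine ⟨R', 4 / δ + 1, fun s X lam hX hl hte => ?_⟩
  have hlog2 : 4 / δ ≤ X.L := by linarith
  have hlog : 0 < X.L := lt_of_lt_of_le (by positivity) hlog2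
  have hN : 0 < 2 ^ s := by positivity
  have hch := fun n => hR lam (2 ^ s) n hN hl
  choose b β hb hd using hch
  refine ⟨b, β, hb, ?_⟩
  have h1 : wlg X (fun n => (∑ m ∈ Ioc n (n + 2 ^ s),
      ‖(lam m : ℂ) - ∑ r ∈ range R', b n r * ee (β n r * m)‖ ^ 2) / ((2 ^ s : ℕ) : ℝ)) ≤
      wlg X (fun n => (1 + τ) - En th lam 1 (2 ^ s) n) := by
    apply wlg_mono
    intro n _
    have := hd n
    unfold dm at this
    linarith
  rw [wlg_sub, wlg_const] at h1
  have h2 := wlg_one_le X
  have h3 : (1 - δ) * X.L ≤ wlg X (fun n => En th lam 1 (2 ^ s) n) := by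
    unfold wte at hte
    rwa [le_div_iff₀ hlog] at hte
  have h4 : (1 + τ) * wlg X (fun _ => 1) ≤ (1 + τ) * (1 + X.L) :=
    mul_le_mul_of_nonneg_left h2 (by positivity)
  have h5 : 4 ≤ δ * X.L := by
    rw [div_le_iff₀ hδ] at hlog2; linarith
  have h6 : τ * X.L ≤ δ / 4 * X.L := mul_le_mul_of_nonneg_right hτ2 hlog.le
  refine h1.trans ?_
  nlinarith

/-! ## windows inside windows -/

/-- from windows of length `H` to windows of length `N ≤ H / 2` -/
theorem subw (lam : ℕ → ℝ) (R H N : ℕ) (X : Wn) (e : ℝ) (hN : 1 ≤ N) (hH : 2 * N ≤ H)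
    (hl : ∀ n, |lam n| ≤ 1) (hB : WBase lam R H e X)
    (hx : 3 * (1 + (R : ℝ)) ^ 2 * EB.hs H ≤ e * X.L) :
    WBase lam R N (3 * e) X := by
  obtain ⟨b, β, hb, hB⟩ := hB
  have hN0 : (0 : ℝ) < N := by exact_mod_cast hN
  have hH0 : (0 : ℝ) < H := by
    have : 0 < H := by omega
    exact_mod_cast this
  set F : ℕ → ℕ → ℝ := fun n m => ‖(lam m : ℂ) - ∑ r ∈ range R, b n r * ee (β n r * m)‖ ^ 2 with hF
  set W : ℝ := (1 + (R : ℝ)) ^ 2 with hW
  have hF0 : ∀ n m, 0 ≤ F n m := fun n m => by simp only [hF]; positivity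
  have hF1 : ∀ n m, F n m ≤ W := by
    intro n m
    simp only [hF, hW]
    apply pow_le_pow_left₀ (norm_nonneg _)
    calc ‖(lam m : ℂ) - ∑ r ∈ range R, b n r * ee (β n r * m)‖
        ≤ ‖(lam m : ℂ)‖ + ‖∑ r ∈ range R, b n r * ee (β n r * m)‖ := norm_sub_le _ _
      _ ≤ 1 + R := by
          apply add_le_add
          · rw [Complex.norm_real]; exact hl m
          · calc ‖∑ r ∈ range R, b n r * ee (β n r * m)‖
                ≤ ∑ r ∈ range R, ‖b n r * ee (β n r * m)‖ := norm_sum_le _ _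
              _ ≤ ∑ r ∈ range R, (1 : ℝ) := by
                  apply sum_le_sum
                  intro r _
                  rw [norm_mul, norm_ee, mul_one]
                  exact hb n r
              _ = R := by simp
  set c : ℕ → ℕ → ℝ := fun n i => (∑ m ∈ Ioc (n + i) (n + i + N), F n m) / N with hc
  have hc0 : ∀ n i, 0 ≤ c n i := fun n i => div_nonneg (sum_nonneg fun m _ => hF0 n m) hN0.le
  have hc1 : ∀ n i, c n i ≤ W := by
    intro n i
    simp only [hc]
    rw [div_le_iff₀ hN0]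
    calc ∑ m ∈ Ioc (n + i) (n + i + N), F n m ≤ ∑ m ∈ Ioc (n + i) (n + i + N), W :=
          sum_le_sum fun m _ => hF1 n m
      _ = W * N := by simp [mul_comm]
  set G : ℕ → ℕ → ℝ := fun i n => if i ≤ n then c (n - i) i else W with hG
  have hGi : ∀ i n, G i (n + i) = c n i := by
    intro i n
    simp only [hG]
    rw [if_pos (by omega), Nat.add_sub_cancel]
  have hG1 : ∀ i n, |G i n| ≤ W := by
    intro i n
    have hW0 : 0 ≤ W := by simp only [hW]; positivity
    simp only [hG]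
    split_ifs
    · rw [abs_of_nonneg (hc0 _ _)]; exact hc1 _ _
    · rw [abs_of_nonneg hW0]
  set L : ℕ := H - N + 1 with hL
  have hL0 : (0 : ℝ) < L := by
    have : 0 < L := by omega
    exact_mod_cast this
  have hLH : (H : ℝ) ≤ 2 * L := by
    have : H ≤ 2 * L := by omega
    exact_mod_cast this
  -- the best choice
  have hex : ∀ n, ∃ i ≤ n, (∑ m ∈ Ioc n (n + N), F (n - i) m) / N ≤
      (∑ j ∈ range L, G j n) / L := by
    intro n
    obtain ⟨j, hj, hj2⟩ : ∃ j ∈ range L, G j n ≤ (∑ j ∈ range L, G j n) / L := by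
      apply exists_le_of_sum_le (nonempty_range_iff.2 (by omega))
      rw [sum_const, card_range, nsmul_eq_mul, mul_div_cancel₀ _ hL0.ne']
    by_cases h : j ≤ n
    · refine ⟨j, h, ?_⟩
      have h1 : G j n = (∑ m ∈ Ioc n (n + N), F (n - j) m) / N := by
        simp only [hG, hc]
        rw [if_pos h, Nat.sub_add_cancel h]
      rw [← h1]; exact hj2
    · refine ⟨0, Nat.zero_le _, ?_⟩
      have h1 : G j n = W := by simp only [hG]; rw [if_neg h]
      have h2 := hc1 n 0
      simp only [hc, add_zero] at h2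
      rw [Nat.sub_zero]
      linarith
  choose i hi hi2 using hex
  refine ⟨fun n r => b (n - i n) r, fun n r => β (n - i n) r, fun n r => hb _ r, ?_⟩
  have h1 : wlg X (fun n => (∑ m ∈ Ioc n (n + N),
      ‖(lam m : ℂ) - ∑ r ∈ range R, b (n - i n) r * ee (β (n - i n) r * m)‖ ^ 2) / N) ≤
      wlg X (fun n => (1 / (L : ℝ)) * ∑ j ∈ range L, G j n) := by
    apply wlg_mono
    intro n _
    have := hi2 n
    simp only [hF] at this
    rw [one_div, inv_mul_eq_div]
    exact this
  rw [wlg_mul, wlg_sum] at h1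
  have h2 : ∀ j ∈ range L, wlg X (G j) ≤ wlg X (fun n => c n j) + 3 * W * EB.hs H := by
    intro j hj
    rw [mem_range] at hj
    have h3 := wlg_shift X j (G j) (hG1 j)
    have h4 : (fun n => G j (n + j)) = fun n => c n j := funext fun n => hGi j n
    rw [h4] at h3
    have h5 := (abs_le.1 h3).1
    have h6 : EB.hs j ≤ EB.hs H := EB.hs_mono (by omega)
    have hW0 : 0 ≤ W := by simp only [hW]; positivity
    have h7 : 3 * W * EB.hs j ≤ 3 * W * EB.hs H := mul_le_mul_of_nonneg_left h6 (by positivity)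
    linarith
  have h3 : (1 / (L : ℝ)) * ∑ j ∈ range L, wlg X (G j) ≤
      (1 / (L : ℝ)) * ∑ j ∈ range L, wlg X (fun n => c n j) + 3 * W * EB.hs H := by
    calc (1 / (L : ℝ)) * ∑ j ∈ range L, wlg X (G j) ≤
        (1 / (L : ℝ)) * ∑ j ∈ range L, (wlg X (fun n => c n j) + 3 * W * EB.hs H) :=
          mul_le_mul_of_nonneg_left (sum_le_sum h2) (by positivity)
      _ = _ := by
          rw [sum_add_distrib, sum_const, card_range, nsmul_eq_mul]
          field_simp
  have h4 : (1 / (L : ℝ)) * ∑ j ∈ range L, wlg X (fun n => c n j) ≤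
      2 * wlg X (fun n => (∑ m ∈ Ioc n (n + H), F n m) / H) := by
    rw [← wlg_sum, ← wlg_mul, ← wlg_mul]
    apply wlg_mono
    intro n _
    have h5 : ∑ j ∈ range L, ∑ m ∈ Ioc (n + j) (n + j + N), F n m ≤
        N * ∑ m ∈ Ioc n (n + H), F n m := by
      have h6 : ∀ j, ∑ m ∈ Ioc (n + j) (n + j + N), F n m =
          ∑ r ∈ range N, F n (n + j + 1 + r) := by
        intro j
        apply sum_nbij' (fun m => m - (n + j + 1)) (fun r => n + j + 1 + r)
        · intro m hm; rw [mem_Ioc] at hm; rw [mem_range]; omega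
        · intro r hr; rw [mem_range] at hr; rw [mem_Ioc]; omega
        · intro m hm; rw [mem_Ioc] at hm; show n + j + 1 + (m - (n + j + 1)) = m; omega
        · intro r _; show n + j + 1 + r - (n + j + 1) = r; omega
        · intro m hm; rw [mem_Ioc] at hm
          have : n + j + 1 + (m - (n + j + 1)) = m := by omega
          rw [this]
      rw [sum_congr rfl fun j _ => h6 j, sum_comm]
      calc ∑ r ∈ range N, ∑ j ∈ range L, F n (n + j + 1 + r)
          ≤ ∑ r ∈ range N, ∑ m ∈ Ioc n (n + H), F n m := by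
            apply sum_le_sum
            intro r hr
            rw [mem_range] at hr
            have h7 : ∑ j ∈ range L, F n (n + j + 1 + r) =
                ∑ m ∈ (range L).image (fun j => n + j + 1 + r), F n m := by
              rw [sum_image]
              intro x _ y _ hxy
              have : n + x + 1 + r = n + y + 1 + r := hxy
              omega
            rw [h7]
            apply sum_le_sum_of_subset_of_nonneg
            · intro m hm
              rw [mem_image] at hm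
              obtain ⟨j, hj, rfl⟩ := hm
              rw [mem_range] at hj
              rw [mem_Ioc]; omega
            · intro m _ _; exact hF0 n m
        _ = N * ∑ m ∈ Ioc n (n + H), F n m := by simp
    have h6 : 0 ≤ ∑ m ∈ Ioc n (n + H), F n m := sum_nonneg fun m _ => hF0 n m
    simp only [hc]
    rw [← sum_div]
    calc 1 / (L : ℝ) * ((∑ j ∈ range L, ∑ m ∈ Ioc (n + j) (n + j + N), F n m) / N)
        ≤ 1 / (L : ℝ) * ((N * ∑ m ∈ Ioc n (n + H), F n m) / N) := by
          apply mul_le_mul_of_nonneg_left _ (by positivity)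
          exact div_le_div_of_nonneg_right h5 hN0.le
      _ = (∑ m ∈ Ioc n (n + H), F n m) / L := by field_simp
      _ ≤ 2 * ((∑ m ∈ Ioc n (n + H), F n m) / H) := by
          rw [mul_div_assoc', div_le_div_iff₀ hL0 hH0]
          nlinarith
  have h5 : wlg X (fun n => (∑ m ∈ Ioc n (n + H), F n m) / H) ≤ e * X.L := hB
  have h6 : wlg X (fun n => (∑ m ∈ Ioc n (n + N),
      ‖(lam m : ℂ) - ∑ r ∈ range R, b (n - i n) r * ee (β (n - i n) r * m)‖ ^ 2) / N) ≤
      3 * e * X.L := by
    have : 3 * W * EB.hs H ≤ e * X.L := hx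
    linarith
  exact h6

end Pool.Agent.H3.GW.B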