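import Pool.Agent.H93.GS.Asm
import Pool.Agent.H3.GW.Defs
import Pool.Agent.H3.GW.Link

/-!
# Theorem (G) on logarithmic windows, MP_c59857_nt: the assembly
-/

set_option autoImplicit false

namespace Pool.Agent.H3.GW.B

open Pool.Agent.H93.GS Pool.Agent.H28.NW Pool.Agent.H3.GW Pool.Agent.H93
open Finset Pool.Agent.H6.N4D Filter

lemma base_mono (lam : ℕ → ℝ) (R S : ℕ) (X : Wn) (e e' : ℝ) (h : e ≤ e')
    (hB : WBase lam R S e X) : WBase lam R S e' X := by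
  obtain ⟨b, β, hb, hB⟩ := hB
  exact ⟨b, β, hb, hB.trans (mul_le_mul_of_nonneg_right h X.L_nonneg)⟩

/-- the second scale -/
noncomputable def LL (X : Wn) : ℕ := ⌊Real.logb 16 X.L⌋₊

lemma LL_ge (n : ℕ) (X : Wn) (hX : (16 : ℝ) ^ n ≤ X.L) : n ≤ LL X := by
  unfold LL
  have h1 : (n : ℝ) ≤ Real.logb 16 X.L := by
    rw [Real.le_logb_iff_rpow_le (by norm_num) (lt_of_lt_of_le (by positivity) hX),
      Real.rpow_natCast]
    exact hX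
  exact Nat.le_floor h1

lemma LL_pow (X : Wn) (hX : 1 ≤ X.L) : (16 : ℝ) ^ LL X ≤ X.L := by
  have h2 : 0 ≤ Real.logb 16 (X.L) := Real.logb_nonneg (by norm_num) hX
  have h3 := Nat.floor_le h2
  unfold LL
  rw [← Real.rpow_natCast]
  calc (16 : ℝ) ^ ((⌊Real.logb 16 (X.L)⌋₊ : ℕ) : ℝ)
      ≤ (16 : ℝ) ^ (Real.logb 16 (X.L)) :=
        Real.rpow_le_rpow_of_exponent_le (by norm_num) h3
    _ = X.L := Real.rpow_logb (by norm_num) (by norm_num) (by linarith)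

lemma log_LL (X : Wn) (hX : 1 ≤ X.L) : Real.log X.T ≤ 3 * ((LL X : ℝ) + 1) := by
  have hT : 1 ≤ X.T := hX.trans X.L_le_T
  have h3 := Nat.lt_floor_add_one (Real.logb 16 (X.L))
  have h4 : Real.logb 16 (X.L) = Real.log X.L / Real.log 16 := rfl
  have h5 : Real.log 16 ≤ 2.88 := by
    have h6 : Real.log 16 = 4 * Real.log 2 := by
      rw [show (16 : ℝ) = 2 ^ 4 by norm_num, Real.log_pow]
      norm_num
    rw [h6]
    linarith [Real.log_two_lt_d9]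
  have h6 : 0 < Real.log 16 := Real.log_pos (by norm_num)
  rw [h4, div_lt_iff₀ h6] at h3
  have h7 : (0 : ℝ) ≤ (LL X : ℝ) + 1 := by positivity
  have h8 : ((LL X : ℝ) + 1) * Real.log 16 ≤ ((LL X : ℝ) + 1) * 2.88 :=
    mul_le_mul_of_nonneg_left h5 h7
  have h9 : Real.log X.L < ((LL X : ℝ) + 1) * Real.log 16 := h3
  have h10 : (24 / 25 : ℝ) * Real.log X.T ≤ Real.log X.L := by
    rw [← Real.log_rpow (by linarith)]
    exact Real.log_le_log (Real.rpow_pos_of_pos (by linarith) _) X.T_pow_le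
  linarith

/-- the conditions on `X` for the second stage -/
lemma ev_all (B c : ℕ) (hB : 1 ≤ B) : ∃ X₀ : ℝ, 1 ≤ X₀ ∧ ∀ (X : Wn), X₀ ≤ X.L →
    c ≤ LL X / (2 * B) ∧ Real.log X.T ≤ 2 ^ (LL X / (2 * B) / B) ∧
    ((LL X : ℕ) : ℝ) ≤ X.L ^ (1 / 2 : ℝ) := by
  have h1 := ev_pow (2 * B * B) (by nlinarith)
  have h2 := eventually_ge_atTop (α := ℕ) (c * (2 * B))
  obtain ⟨n₀, hn₀⟩ := eventually_atTop.1 (h1.and h2)
  refine ⟨(16 : ℝ) ^ n₀, one_le_pow₀ (by norm_num), fun X hX => ?_⟩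
  have hX3 : 1 ≤ X.L := (one_le_pow₀ (by norm_num)).trans hX
  obtain ⟨h4, h5⟩ := hn₀ (LL X) (LL_ge n₀ X hX)
  have h6 : (LL X : ℝ) ≤ 4 ^ LL X := by
    exact_mod_cast (Nat.lt_pow_self (by norm_num : 1 < 4)).le
  refine ⟨(Nat.le_div_iff_mul_le (by omega)).2 h5, ?_, ?_⟩
  · rw [Nat.div_div_eq_div_mul]
    exact (log_LL X hX3).trans h4
  · have h7 := LL_pow X hX3
    have h8 : ((4 : ℝ) ^ LL X) ^ 2 ≤ X.L := by
      rw [← pow_mul, mul_comm, pow_mul]; norm_num; exact h7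
    rw [← Real.sqrt_eq_rpow]
    apply h6.trans
    exact Real.le_sqrt_of_sq_le h8

/-- the choice of the level near the top -/
lemma top_level (A : ℕ) : ∃ X₀ : ℝ, ∀ X : Wn, X₀ ≤ X.L → 1 ≤ X.L → ∃ u : ℕ,
    X.T ^ (19 / 20 : ℝ) ≤ u * Real.log 2 ∧ X.L ^ (1 / 2 : ℝ) ≤ u ∧
    (2 : ℝ) ^ A * u ≤ X.T ^ (191 / 200 : ℝ) ∧
    ∀ i < A, 400 * (u : ℝ) * 2 ^ i ≤ X.T ^ (191 / 200 : ℝ) := by
  refine ⟨(1200 * 2 ^ A) ^ 200, fun X hX hX1 => ?_⟩
  have hT : 1 ≤ X.T := hX1.trans X.L_le_T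
  have hTX : ((1200 : ℝ) * 2 ^ A) ^ 200 ≤ X.T := hX.trans X.L_le_T
  have hl0 : 0 < Real.log 2 := Real.log_pos (by norm_num)
  obtain ⟨a, ha⟩ : ∃ a : ℝ, a = X.T ^ (19 / 20 : ℝ) := ⟨_, rfl⟩
  have ha1 : 1 ≤ a := by
    rw [ha]
    exact Real.one_le_rpow hT (by norm_num)
  refine ⟨⌈a / Real.log 2⌉₊, ?_⟩
  obtain ⟨u, hu⟩ : ∃ u : ℕ, u = ⌈a / Real.log 2⌉₊ := ⟨_, rfl⟩
  rw [← hu, ← ha]
  have hu1 : a / Real.log 2 ≤ u := by
    rw [hu]
    exact Nat.le_ceil _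
  have hu2 : (u : ℝ) < a / Real.log 2 + 1 := by
    rw [hu]
    exact Nat.ceil_lt_add_one (by positivity)
  have hu3 : (u : ℝ) ≤ 3 * a := by
    have h1 : a / Real.log 2 ≤ 2 * a := by
      rw [div_le_iff₀ hl0]
      nlinarith [Real.log_two_gt_d9]
    linarith
  have hu4 : a ≤ u := by
    have h1 : a ≤ a / Real.log 2 := by
      rw [le_div_iff₀ hl0]
      nlinarith [Real.log_two_lt_d9]
    linarith
  have hpow : (1200 : ℝ) * 2 ^ A ≤ X.T ^ (1 / 200 : ℝ) := by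
    have h1 : ((1200 : ℝ) * 2 ^ A) = (((1200 : ℝ) * 2 ^ A) ^ 200) ^ (1 / 200 : ℝ) := by
      rw [← Real.rpow_natCast (1200 * 2 ^ A) 200, ← Real.rpow_mul (by positivity)]
      norm_num
    rw [h1]
    exact Real.rpow_le_rpow (by positivity) hTX (by norm_num)
  have hsplit : X.T ^ (191 / 200 : ℝ) = X.T ^ (1 / 200 : ℝ) * a := by
    rw [ha, ← Real.rpow_add (by linarith)]
    norm_num
  have hmain : 1200 * 2 ^ A * a ≤ X.T ^ (191 / 200 : ℝ) := by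
    rw [hsplit]
    exact mul_le_mul_of_nonneg_right hpow (by linarith)
  have h2A : (0 : ℝ) < 2 ^ A := by positivity
  refine ⟨by rwa [div_le_iff₀ hl0] at hu1, ?_, ?_, ?_⟩
  · calc X.L ^ (1 / 2 : ℝ) ≤ X.T ^ (1 / 2 : ℝ) :=
          Real.rpow_le_rpow X.L_nonneg X.L_le_T (by norm_num)
      _ ≤ X.T ^ (19 / 20 : ℝ) := Real.rpow_le_rpow_of_exponent_le hT (by norm_num)
      _ = a := ha.symm
      _ ≤ u := hu4
  · calc (2 : ℝ) ^ A * u ≤ 2 ^ A * (3 * a) := mul_le_mul_of_nonneg_left hu3 h2A.le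
      _ ≤ 1200 * 2 ^ A * a := by nlinarith
      _ ≤ _ := hmain
  · intro i hi
    have h1 : (2 : ℝ) ^ i ≤ 2 ^ A := pow_le_pow_right₀ (by norm_num) hi.le
    calc 400 * (u : ℝ) * 2 ^ i ≤ 400 * (3 * a) * 2 ^ A := by
          apply mul_le_mul _ h1 (by positivity) (by positivity)
          linarith
      _ = 1200 * 2 ^ A * a := by ring
      _ ≤ _ := hmain

lemma wHm_mono (th ε ε' : ℝ) (lam : ℕ → ℝ) (X : Wn) (m : ℕ) (h : ε ≤ ε')
    (hm : wHm th ε lam X m) : wHm th ε' lam X m :=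
  ⟨hm.1.trans (mul_le_mul_of_nonneg_right h X.L_nonneg),
    hm.2.trans (mul_le_mul_of_nonneg_right h X.L_nonneg)⟩

theorem a_GFU (hEN1 : W_EN1) (hEN2 : W_EN2) (hE3 : W_E3r) : W_GFU := by
  intro R
  -- the first threshold
  set th : ℝ := 1 / (16 * ((R 8 : ℝ) + 1)) with hth
  have hth0 : 0 < th := by rw [hth]; positivity
  have hth1 : th ≤ 1 := by
    rw [hth, div_le_one (by positivity)]
    have : (0 : ℝ) ≤ R 8 := by positivity
    linarith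
  have hthR : 2 * th * R 8 ≤ 1 / 8 := by
    rw [hth]
    have h1 : (0 : ℝ) ≤ R 8 := by positivity
    rw [show 2 * (1 / (16 * ((R 8 : ℝ) + 1))) * R 8 = R 8 / (8 * ((R 8 : ℝ) + 1)) by
      field_simp; ring]
    rw [div_le_div_iff₀ (by positivity) (by norm_num)]
    linarith
  obtain ⟨ε₀, A, X₃, hε₀, hA1, hE3⟩ := hE3 th (1 / 4) hth0 hth1 (by norm_num)
  obtain ⟨ε₃, hε₃, hε₃a, hε₃b⟩ : ∃ ε : ℝ, 0 < ε ∧ ε ≤ ε₀ ∧ ε ≤ 1 / 8 :=
    ⟨min ε₀ (1 / 8), lt_min hε₀ (by norm_num), min_le_left _ _, min_le_right _ _⟩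
  obtain ⟨X₅, hX₅⟩ := top_level A
  -- the second stage
  obtain ⟨B₂, hB₂, hEN2⟩ := hEN2 th hth0 hth1
  obtain ⟨e₂, he₂, hEN2⟩ := hEN2 ε₃ hε₃
  set δ : ℝ := e₂ / 2 with hδ
  have hδ0 : 0 < δ := by rw [hδ]; positivity
  -- the second threshold
  obtain ⟨j₂, hj₂, hj₂'⟩ : ∃ j : ℕ, 1 ≤ j ∧ 3 * (1 / (j : ℝ)) ≤ δ / 2 := by
    obtain ⟨j, hj⟩ := exists_nat_gt (6 / δ)
    refine ⟨j + 1, by omega, ?_⟩
    have h1 : (0 : ℝ) < (j : ℝ) + 1 := by positivity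
    rw [div_lt_iff₀ hδ0] at hj
    push_cast
    rw [mul_one_div, div_le_div_iff₀ h1 (by norm_num)]
    nlinarith
  set th' : ℝ := min 1 (δ / (8 * ((R j₂ : ℝ) + 1))) with hth'
  have hth'0 : 0 < th' := lt_min one_pos (by positivity)
  have hth'1 : th' ≤ 1 := min_le_left _ _
  have hth'R : 2 * th' * R j₂ ≤ δ / 4 := by
    have h1 : (0 : ℝ) ≤ R j₂ := by positivity
    have h2 : th' ≤ δ / (8 * ((R j₂ : ℝ) + 1)) := min_le_right _ _
    calc 2 * th' * R j₂ ≤ 2 * (δ / (8 * ((R j₂ : ℝ) + 1))) * R j₂ := by gcongr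
      _ = δ / 4 * (R j₂ / ((R j₂ : ℝ) + 1)) := by field_simp; ring
      _ ≤ δ / 4 * 1 := by
          apply mul_le_mul_of_nonneg_left _ (by positivity)
          rw [div_le_one (by positivity)]; linarith
      _ = δ / 4 := mul_one _
  obtain ⟨R', XL, hLNK⟩ := lnk2 th' δ hth'0 hδ0
  obtain ⟨s₂, X₂, hEN2⟩ := hEN2 R'
  -- the first stage, twice
  obtain ⟨B₁, hB₁, hA⟩ := hEN1 th hth0 hth1
  obtain ⟨e₁, he₁, hA⟩ := hA (1 / 16) (by norm_num)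
  obtain ⟨B₁', hB₁', hA'⟩ := hEN1 th' hth'0 hth'1
  obtain ⟨e₁', he₁', hA'⟩ := hA' (δ / 4) (by positivity)
  obtain ⟨j₁, hj₁, hj₁'⟩ : ∃ j : ℕ, 1 ≤ j ∧ 3 * (1 / (j : ℝ)) ≤ e₁ := by
    obtain ⟨j, hj⟩ := exists_nat_gt (3 / e₁)
    refine ⟨j + 1, by omega, ?_⟩
    have h1 : (0 : ℝ) < (j : ℝ) + 1 := by positivity
    rw [div_lt_iff₀ he₁] at hj
    push_cast
    rw [mul_one_div, div_le_iff₀ h1]
    nlinarith
  obtain ⟨j₁', hj₁p, hj₁p'⟩ : ∃ j : ℕ, 1 ≤ j ∧ 3 * (1 / (j : ℝ)) ≤ e₁' := by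
    obtain ⟨j, hj⟩ := exists_nat_gt (3 / e₁')
    refine ⟨j + 1, by omega, ?_⟩
    have h1 : (0 : ℝ) < (j : ℝ) + 1 := by positivity
    rw [div_lt_iff₀ he₁'] at hj
    push_cast
    rw [mul_one_div, div_le_iff₀ h1]
    nlinarith
  obtain ⟨s₁, hA⟩ := hA (R j₁)
  obtain ⟨s₁', hA'⟩ := hA' (R j₁')
  set s : ℕ := max s₁ s₁' with hs
  obtain ⟨X₁, hA⟩ := hA s (le_max_left _ _)
  obtain ⟨X₁', hA'⟩ := hA' s (le_max_right _ _)
  set k₀ : ℕ := max (B₁ * s) (B₁' * s) with hk₀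
  obtain ⟨X₄, hX₄, hX₄'⟩ := ev_all B₂ (max s₂ k₀) hB₂
  -- the constant for the windows inside windows
  set W : ℝ := (3 * (1 + (R 8 : ℝ)) ^ 2 + 3 * (1 + (R j₁ : ℝ)) ^ 2 + 3 * (1 + (R j₁' : ℝ)) ^ 2 +
    3 * (1 + (R j₂ : ℝ)) ^ 2) * (8 + j₁ + j₁' + j₂) with hW
  have hW0 : 0 ≤ W := by rw [hW]; positivity
  set K₀ : ℕ := 8 + j₁ + j₁' + j₂ + 2 * 2 ^ s + 2 * 2 ^ k₀ with hK₀
  set K : ℕ := K₀ + (⌈X₁⌉₊ + ⌈X₁'⌉₊ + ⌈X₂⌉₊ + ⌈X₃⌉₊ + ⌈X₄⌉₊ + ⌈X₅⌉₊ + ⌈(XL : ℝ)⌉₊ +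
    ⌈2 * W⌉₊) with hK
  refine ⟨K, by omega, fun X H lam hH hHX hL => ?_⟩
  have hK1 : 1 ≤ K := by omega
  have hK8 : 8 ≤ K := by omega
  have hH1 : 1 ≤ H := by omega
  have hH3 : (3 : ℝ) ≤ H := by exact_mod_cast (by omega : 3 ≤ H)
  have hlH1 : 1 ≤ Real.log H := by
    rw [Real.le_log_iff_exp_le (by linarith)]
    linarith [Real.exp_one_lt_d9]
  have hlH0 : 0 ≤ Real.log H := by linarith
  have hX : (K : ℝ) ≤ X.L := by
    refine le_trans ?_ hHX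
    have : (0 : ℝ) ≤ K := Nat.cast_nonneg K
    nlinarith
  have hge : ∀ (x : ℝ), ⌈x⌉₊ ≤ K → x ≤ X.L := by
    intro x hx
    calc x ≤ ⌈x⌉₊ := Nat.le_ceil _
      _ ≤ K := by exact_mod_cast hx
      _ ≤ X.L := hX
  by_contra hF
  unfold wFar1 at hF
  push Not at hF
  have hX3 : 1 ≤ X.L := by
    refine le_trans ?_ hX
    exact_mod_cast hK1
  have hlog : 0 < X.L := by linarith
  have hl1 : ∀ n, |lam n| ≤ 1 := by
    intro n
    rcases hL.pm n with h | h <;> rw [h] <;> norm_num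
  have hlW1 : 2 * W ≤ X.L := hge _ (by omega)
  have hlW : W * EB.hs H ≤ X.L := by
    have h1 : EB.hs H ≤ 1 + Real.log H := EB.hs_le H
    have h2 : 2 * W ≤ K := by
      calc 2 * W ≤ ⌈2 * W⌉₊ := Nat.le_ceil _
        _ ≤ K := by
          have : ⌈2 * W⌉₊ ≤ K := by omega
          exact_mod_cast this
    have h3 : 2 * W * Real.log H ≤ K * Real.log H := mul_le_mul_of_nonneg_right h2 hlH0
    have h4 : W * EB.hs H ≤ W * (1 + Real.log H) := mul_le_mul_of_nonneg_left h1 hW0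
    linarith
  have hsub : ∀ j N : ℕ, (j = 8 ∨ j = j₁ ∨ j = j₁' ∨ j = j₂) → (N = 2 ^ s ∨ N = 2 ^ k₀) →
      WBase lam (R j) N (3 * (1 / (j : ℝ))) X := by
    intro j N hj hN
    have hj1 : 1 ≤ j := by rcases hj with h | h | h | h <;> omega
    have hj2 : j ≤ K := by
      rcases hj with h | h | h | h <;> omega
    have hN1 : 1 ≤ N := by
      rcases hN with h | h <;> rw [h] <;> exact Nat.one_le_two_pow
    have hN2 : 2 * N ≤ H := by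
      rcases hN with h | h <;> rw [h] <;> omega
    obtain ⟨b, β, hb, hB⟩ := hF j hj1 hj2
    apply subw lam (R j) H N X (1 / (j : ℝ)) hN1 hN2 hl1 ⟨b, β, hb, hB⟩
    have hj0 : (0 : ℝ) < j := by exact_mod_cast hj1
    rw [one_div, inv_mul_eq_div, le_div_iff₀ hj0]
    refine le_trans ?_ hlW
    rw [hW]
    have hh := EB.hs_nonneg H
    have hre : (3 * (1 + (R 8 : ℝ)) ^ 2 + 3 * (1 + (R j₁ : ℝ)) ^ 2 + 3 * (1 + (R j₁' : ℝ)) ^ 2 +
      3 * (1 + (R j₂ : ℝ)) ^ 2) * (8 + j₁ + j₁' + j₂) * EB.hs H =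
      (3 * (1 + (R 8 : ℝ)) ^ 2 + 3 * (1 + (R j₁ : ℝ)) ^ 2 + 3 * (1 + (R j₁' : ℝ)) ^ 2 +
      3 * (1 + (R j₂ : ℝ)) ^ 2) * EB.hs H * (8 + j₁ + j₁' + j₂) := by ring
    rw [hre]
    have a1 : (0 : ℝ) ≤ 3 * (1 + (R 8 : ℝ)) ^ 2 := by positivity
    have a2 : (0 : ℝ) ≤ 3 * (1 + (R j₁ : ℝ)) ^ 2 := by positivity
    have a3 : (0 : ℝ) ≤ 3 * (1 + (R j₁' : ℝ)) ^ 2 := by positivity
    have a4 : (0 : ℝ) ≤ 3 * (1 + (R j₂ : ℝ)) ^ 2 := by positivity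
    have b1 : (0 : ℝ) ≤ j₁ := by positivity
    have b2 : (0 : ℝ) ≤ j₁' := by positivity
    have b3 : (0 : ℝ) ≤ j₂ := by positivity
    apply mul_le_mul _ _ hj0.le (by positivity)
    · apply mul_le_mul_of_nonneg_right _ hh
      rcases hj with h | h | h | h <;> rw [h] <;> linarith
    · rcases hj with h | h | h | h <;> rw [h] <;> push_cast <;> linarith
  -- energies at the beginning
  have hE1 : 1 / 2 ≤ wte th lam X k₀ := by
    have h1 := pf_LOW th (3 * (1 / ((8 : ℕ) : ℝ))) (R 8) k₀ X lam hth0 (by positivity) hX3 hL.pm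
      (hsub 8 (2 ^ k₀) (Or.inl rfl) (Or.inr rfl))
    have h2 : (3 : ℝ) * (1 / ((8 : ℕ) : ℝ)) = 3 / 8 := by norm_num
    rw [h2] at h1
    linarith
  have hE2 : 1 - 3 / 4 * δ ≤ wte th' lam X k₀ := by
    have h1 := pf_LOW th' (3 * (1 / (j₂ : ℝ))) (R j₂) k₀ X lam hth'0 (by positivity) hX3 hL.pm
      (hsub j₂ (2 ^ k₀) (Or.inr (Or.inr (Or.inr rfl))) (Or.inr rfl))
    linarith
  -- the first stage
  have hS1 := hA X lam (hge _ (by omega)) hL (base_mono lam _ _ X _ _ hj₁'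
    (hsub j₁ (2 ^ s) (Or.inr (Or.inl rfl)) (Or.inl rfl)))
  have hS1' := hA' X lam (hge _ (by omega)) hL (base_mono lam _ _ X _ _ hj₁p'
    (hsub j₁' (2 ^ s) (Or.inr (Or.inr (Or.inl rfl))) (Or.inl rfl)))
  obtain ⟨hc1, hc2, hc3⟩ := hX₄' X (hge _ (by omega))
  have hLp := LL_pow X hX3
  set L : ℕ := LL X with hLdef
  set s' : ℕ := L / (2 * B₂) with hs'
  have hs'1 : 2 * (B₂ * s') ≤ L := by
    rw [hs', ← mul_assoc]
    exact Nat.mul_div_le L (2 * B₂)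
  have hs'2 : s' ≤ L := Nat.div_le_self _ _
  have hpow : ∀ k ≤ L, (16 : ℝ) ^ k ≤ X.L := fun k hk =>
    (pow_le_pow_right₀ (by norm_num) hk).trans hLp
  have hk₀s : k₀ ≤ s' := le_trans (le_max_right _ _) hc1
  have hT1 : 1 - δ ≤ wte th' lam X s' := by
    have h1 := hS1' k₀ s' (le_max_right _ _) hk₀s (hpow s' hs'2)
    linarith
  have hBase := hLNK s' X lam (hge _ (by omega)) hL.pm hT1
  have hδe : 2 * δ = e₂ := by rw [hδ]; ring
  rw [hδe] at hBase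
  obtain ⟨hN, hHm⟩ := hEN2 s' X lam (le_trans (le_max_left _ _) hc1) (hge _ (by omega)) hL hc2
    hBase
  -- the end
  have hle : k₀ ≤ 2 * (B₂ * s') := by
    have : s' ≤ B₂ * s' := Nat.le_mul_of_pos_left _ (by omega)
    omega
  have hT2 : 7 / 16 ≤ wte th lam X (2 * (B₂ * s')) := by
    have h1 := hS1 k₀ (2 * (B₂ * s')) (le_max_left _ _) hle (hpow _ hs'1)
    linarith
  obtain ⟨u, hu1, hu2, hu3, hu4⟩ := hX₅ X (hge _ (by omega)) hX3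
  have hLu : L ≤ u := by
    have : (L : ℝ) ≤ u := hc3.trans hu2
    exact_mod_cast this
  have hTp : 0 ≤ X.T ^ (191 / 200 : ℝ) := Real.rpow_nonneg X.T_nonneg _
  have h2A1 : (1 : ℝ) ≤ 2 ^ A := one_le_pow₀ (by norm_num)
  have hu5 : (u : ℝ) ≤ X.T ^ (191 / 200 : ℝ) := by
    refine le_trans ?_ hu3
    have : (0 : ℝ) ≤ u := Nat.cast_nonneg u
    nlinarith
  have hT3 : 5 / 16 ≤ wte th lam X u := by
    have h1 := hN (2 * (B₂ * s')) u (by omega) (by omega) (by linarith)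
    linarith
  have hfin := hE3 X u lam (hge _ (by omega)) hL hu1 hu3
    (fun i hi => wHm_mono th ε₃ ε₀ lam X _ hε₃a (hHm (400 * u * 2 ^ i) (by
      have h1 : u ≤ 400 * u := by omega
      have h2 : 400 * u * 1 ≤ 400 * u * 2 ^ i := Nat.mul_le_mul_left _ Nat.one_le_two_pow
      omega) (by
        have h3 := hu4 i hi
        push_cast
        exact h3)))
    (by
      have h1 := hN u (2 ^ A * u) (by omega)
        (Nat.le_mul_of_pos_left _ (by positivity)) (by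
          push_cast
          linarith)
      linarith)
  linarith

/-- the form with the length of the windows fixed -/
theorem gft_of_gfu (h : W_GFU) : W_GFT := by
  intro R
  obtain ⟨K, hK, h⟩ := h R
  exact ⟨K, hK, fun H hH => ⟨K * Real.log H, fun X lam hX hL => h X H lam hH hX hL⟩⟩

theorem a_GFT (hEN1 : W_EN1) (hEN2 : W_EN2) (hE3 : W_E3r) : W_GFT :=
  gft_of_gfu (a_GFU hEN1 hEN2 hE3)

end Pool.Agent.H3.GW.B
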