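import Pool.Agent.H84.GS.Bas
import Pool.Agent.H3.GW.Defs

/-!
# Theorem (G) on logarithmic windows (MP_c59857_nt): logarithmic sums
-/

set_option autoImplicit false

namespace Pool.Agent.H3.GW.A

open Pool.Agent.H84.GS Pool.Agent.H28.NW Pool.Agent.H3.GW
open Finset Pool.Agent.H6.N4D Pool.Agent.H93.GS

theorem wlg_mono (X : Wn) (f g : ℕ → ℝ) (h : ∀ n, f n ≤ g n) : wlg X f ≤ wlg X g :=
  Pool.Agent.H28.NW.wlg_mono fun n _ => h n

theorem wlg_nonneg (X : Wn) (f : ℕ → ℝ) (h : ∀ n, 0 ≤ f n) : 0 ≤ wlg X f :=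
  Pool.Agent.H28.NW.wlg_nonneg fun n _ => h n

/-- the harmonic sum of the window -/
noncomputable def whs (X : Wn) : ℝ := wlg X (fun _ => 1)

theorem whs_le (X : Wn) : whs X ≤ 1 + X.L := wlg_one_le X

theorem le_whs (X : Wn) : X.L ≤ whs X := L_le_wlg_one X

theorem whs_nonneg (X : Wn) : 0 ≤ whs X := X.L_nonneg.trans (le_whs X)

theorem whs_eq (X : Wn) : whs X = ∑ n ∈ Icc X.lo X.hi, (1 : ℝ) / n := rfl

theorem wlg_le (X : Wn) (f : ℕ → ℝ) (B : ℝ) (h : ∀ n, f n ≤ B) : wlg X f ≤ B * whs X := by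
  unfold whs
  rw [← Pool.Agent.H28.NW.wlg_mul, mul_one]
  exact wlg_mono X _ _ h

theorem ehs (a : ℕ) : Pool.Agent.H93.EB.hs a = hs a := by
  unfold Pool.Agent.H93.EB.hs hs
  rfl

/-- shifts of logarithmic sums -/
theorem wlg_shift (X : Wn) (a : ℕ) (f : ℕ → ℝ) (B : ℝ) (h0 : ∀ n, 0 ≤ f n) (h1 : ∀ n, f n ≤ B) :
    wlg X (fun n => f (n + a)) ≤ wlg X f + 3 * B * hs a := by
  have h := Pool.Agent.H28.NW.wlg_shift X a f (c := B) fun n => by
    rw [abs_of_nonneg (h0 n)]; exact h1 n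
  rw [ehs] at h
  linarith [(abs_le.1 h).2]

end Pool.Agent.H3.GW.A
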