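import Pool.Agent.H38.G9.BSU
import Pool.Agent.H3.GW.TargetsH
import Pool.Agent.H3.GW.Bas

/-!
# Theorem (H) on windows, MP_c59857_nt, row BSU: the inequality of Bessel for the functional `UB`
-/

set_option autoImplicit false

namespace Pool.Agent.H3.GW.M

open Finset Pool.Agent.H6.N4D Pool.Agent.H93 Pool.Agent.H93.GS Pool.Agent.H6.GS2 Pool.Agent.H6.G9
open Pool.Agent.H28.NW Pool.Agent.H3.GW
open Pool.Agent.H3.BT (TC Pt)

theorem wlg_add_const (X : Wn) (f : ℕ → ℝ) (c : ℝ) :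
    wlg X (fun n => f n + c) = wlg X f + c * Pool.Agent.H3.GW.A.whs X := by
  rw [wlg_add, wlg_const]
  rfl

theorem pf_BSU (hT : W_BTS) (hN : T_NRS) (hU : T_UBB) : W_BSU := by
  obtain ⟨B₀, C₁, hB₀, hC₁, hT⟩ := hT
  obtain ⟨m₁, hcore⟩ := Pool.Agent.H38.G9.BSU.core hN
  refine ⟨1000 * B₀, C₁, by omega, hC₁, ?_⟩
  intro R J A hA
  obtain ⟨s₁, hT⟩ := hT R J
  obtain ⟨m₂, C₂, -, hU⟩ := hU J A hA
  obtain ⟨a, ha⟩ := pow_unbounded_of_one_lt A (by norm_num : (1 : ℝ) < 2)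
  obtain ⟨a', ha'⟩ := pow_unbounded_of_one_lt (((J : ℝ) * A) ^ 2) (by norm_num : (1 : ℝ) < 2)
  refine ⟨s₁ + m₁ + m₂ + 2 * B₀ * (a + 1) + a' + 1000 * B₀, ?_⟩
  intro s X K k₁ lam e m hss hX he hl hbase hK hm0 hmi hmk
  have hlX : 1 ≤ X.L := hX
  have hsB : s ≤ 1000 * B₀ * s := Nat.le_mul_of_pos_left _ (by omega)
  have h1000 : 1000 * s ≤ 1000 * B₀ * s := by
    have : s ≤ B₀ * s := Nat.le_mul_of_pos_left _ (by omega)
    calc 1000 * s ≤ 1000 * (B₀ * s) := Nat.mul_le_mul_left _ this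
      _ = 1000 * B₀ * s := by ring
  -- all levels are large
  have hml : ∀ i < K, 1000 * s ≤ m i := by
    intro i
    induction i with
    | zero => intro _; omega
    | succ i ih =>
      intro hi
      have h1 := ih (by omega)
      have h2 := hmi i hi
      have h3 : m i ≤ 1000 * B₀ * m i := Nat.le_mul_of_pos_left _ (by omega)
      omega
  set d : ℝ := (1 / 2) ^ (s / (2 * B₀)) with hd
  have hd0 : 0 < d := by positivity
  have hdiv : 2 * (s / (2 * B₀)) ≤ s / B₀ := by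
    rw [mul_comm 2 B₀, ← Nat.div_div_eq_div_mul]
    omega
  have hsB0 : s / B₀ ≤ s := Nat.div_le_self _ _
  have haa : a ≤ s / (2 * B₀) := by
    rw [Nat.le_div_iff_mul_le (by omega)]
    nlinarith
  have hAd : A / d ≤ 2 ^ (s / B₀) := by
    have e : A / d = A * 2 ^ (s / (2 * B₀)) := by
      rw [hd, one_div, inv_pow, div_inv_eq_mul]
    rw [e]
    calc A * 2 ^ (s / (2 * B₀)) ≤ 2 ^ (s / (2 * B₀)) * 2 ^ (s / (2 * B₀)) := by
          refine mul_le_mul_of_nonneg_right (ha.le.trans ?_) (by positivity)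
          exact pow_le_pow_right₀ (by norm_num) haa
      _ = 2 ^ (2 * (s / (2 * B₀))) := by rw [← pow_add]; congr 1; ring
      _ ≤ 2 ^ (s / B₀) := pow_le_pow_right₀ (by norm_num) hdiv
  have hJd : ∀ i < K, ((J : ℝ) * A) ^ 2 * (1 / 2) ^ (m i / 300) ≤ d ^ 2 := by
    intro i hi
    have h1 := hml i hi
    have h2 : 3 * s ≤ m i / 300 := by omega
    have h3 : ((1 : ℝ) / 2) ^ (m i / 300) ≤ (1 / 2) ^ (3 * s) :=
      pow_le_pow_of_le_one (by norm_num) (by norm_num) h2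
    have h4 : ((J : ℝ) * A) ^ 2 ≤ 2 ^ s :=
      ha'.le.trans (pow_le_pow_right₀ (by norm_num) (by omega))
    calc ((J : ℝ) * A) ^ 2 * (1 / 2) ^ (m i / 300) ≤ 2 ^ s * (1 / 2) ^ (3 * s) :=
          mul_le_mul h4 h3 (by positivity) (by positivity)
      _ = (1 / 2) ^ (2 * s) := by
          have e : (3 : ℕ) * s = s + 2 * s := by ring
          rw [e, pow_add, ← mul_assoc, ← mul_pow]
          norm_num
      _ ≤ (1 / 2) ^ (2 * (s / (2 * B₀))) :=
          pow_le_pow_of_le_one (by norm_num) (by norm_num) (by omega)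
      _ = d ^ 2 := by rw [hd, ← pow_mul]; congr 1; ring
  have key : ∀ i n, ∃ (b : ℕ → ℕ → ℂ) (α : ℕ → ℕ → ℝ), i < K →
      TC (m i) n J (2 ^ (s / B₀)) b α ∧
        UB lam J A (m i) n ≤ Pt lam (m i) n J b α + (12 * d + (1 / 2) ^ s) := by
    intro i n
    by_cases hi : i < K
    · have h1 := hml i hi
      obtain ⟨φ, u, h2, h3⟩ := (hU lam (m i) n (by omega) hl).2.2.2.1 ((1 / 2) ^ s) (by positivity)
      obtain ⟨b, α, h4, h5⟩ := hcore J A (2 ^ (s / B₀)) d lam (m i) n φ u (by omega) hd0 hA hAd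
        (hJd i hi) hl h2
      exact ⟨b, α, fun _ => ⟨h4, by linarith⟩⟩
    · exact ⟨fun _ _ => 0, fun _ _ => 0, fun h => absurd h hi⟩
  choose b α hkey using key
  have hK' : K ≤ 2 ^ (s / B₀) := hK.trans (Nat.pow_le_pow_right (by norm_num)
    (Nat.div_le_div_left (by omega) (by omega)))
  have h0 := hT s X K k₁ lam e m b α (by omega) hX hl hbase hK'
    ((Nat.mul_le_mul_right s (by omega : B₀ ≤ 1000 * B₀)).trans hm0)
    (fun i hi => (Nat.mul_le_mul_right (m i) (by omega : B₀ ≤ 1000 * B₀)).trans (hmi i hi))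
    hmk (fun i hi n => (hkey i n hi).1)
  have hhs : Pool.Agent.H3.GW.A.whs X ≤ 2 * X.L := by
    have := Pool.Agent.H3.GW.A.whs_le X
    linarith
  have h1 : ∑ i ∈ range K, wlg X (fun n => UB lam J A (m i) n) ≤
      ∑ i ∈ range K, (wlg X (fun n => Pt lam (m i) n J (b i n) (α i n)) +
        (12 * d + (1 / 2) ^ s) * (2 * X.L)) := by
    refine Finset.sum_le_sum fun i hi => ?_
    have h2 := Pool.Agent.H3.GW.A.wlg_mono X (fun n => UB lam J A (m i) n)
      (fun n => Pt lam (m i) n J (b i n) (α i n) + (12 * d + (1 / 2) ^ s))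
      (fun n => (hkey i n (mem_range.mp hi)).2)
    rw [wlg_add_const X (fun n => Pt lam (m i) n J (b i n) (α i n))] at h2
    refine h2.trans (add_le_add le_rfl ?_)
    exact mul_le_mul_of_nonneg_left hhs (by positivity)
  rw [Finset.sum_add_distrib, Finset.sum_const, card_range, nsmul_eq_mul] at h1
  -- the parameters
  set j := s / (1000 * B₀) with hj
  have hj1 : 1 ≤ j := by
    rw [hj, Nat.le_div_iff_mul_le (by omega)]
    omega
  have hjs : 1000 * B₀ * j ≤ s := by rw [hj]; exact Nat.mul_div_le _ _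
  have hj2 : 500 * j ≤ s / (2 * B₀) := by
    rw [Nat.le_div_iff_mul_le (by omega)]
    refine le_trans (le_of_eq ?_) hjs
    ring
  have hj3 : 500 * j ≤ s / B₀ := by omega
  have hj4 : 500 * j ≤ s := by omega
  have hd1 : d ≤ (1 / 2) ^ (500 * j) := pow_le_pow_of_le_one (by norm_num) (by norm_num) hj2
  have hd2 : ((1 : ℝ) / 2) ^ s ≤ (1 / 2) ^ (500 * j) :=
    pow_le_pow_of_le_one (by norm_num) (by norm_num) hj4
  have hd3 : ((1 : ℝ) / 2) ^ (s / B₀) ≤ (1 / 2) ^ (500 * j) :=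
    pow_le_pow_of_le_one (by norm_num) (by norm_num) hj3
  have hKr : (K : ℝ) ≤ 2 ^ j := by exact_mod_cast hK
  have hpow : (2 : ℝ) ^ j * (1 / 2) ^ (500 * j) * 27 ≤ (1 / 2) ^ j := by
    have e1 : 500 * j = j + (j + 498 * j) := by ring
    have e2 : (2 : ℝ) ^ j * (1 / 2) ^ (500 * j) = (1 / 2) ^ j * (1 / 2) ^ (498 * j) := by
      rw [e1, pow_add, pow_add, ← mul_assoc, ← mul_pow]
      norm_num
    rw [e2, mul_assoc]
    refine mul_le_of_le_one_right (by positivity) ?_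
    have h3 : ((1 : ℝ) / 2) ^ (498 * j) ≤ (1 / 2) ^ 5 :=
      pow_le_pow_of_le_one (by norm_num) (by norm_num) (by omega)
    have h4 : ((1 : ℝ) / 2) ^ 5 * 27 ≤ 1 := by norm_num
    linarith
  have hx0 : (0 : ℝ) < (1 / 2) ^ (500 * j) := by positivity
  have h2j : (1 : ℝ) ≤ 2 ^ j := one_le_pow₀ (by norm_num)
  have h5 : (K : ℝ) * ((12 * d + (1 / 2) ^ s) * (2 * X.L)) +
      (1 / 2) ^ (s / B₀) * X.L ≤ (1 / 2) ^ j * X.L := by
    have h6 : (K : ℝ) * ((12 * d + (1 / 2) ^ s) * (2 * X.L)) ≤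
        2 ^ j * ((13 * (1 / 2) ^ (500 * j)) * (2 * X.L)) := by
      refine mul_le_mul hKr (mul_le_mul_of_nonneg_right (by linarith) (by linarith))
        (by positivity) (by positivity)
    have h7 : (1 / 2 : ℝ) ^ (s / B₀) * X.L ≤
        2 ^ j * (1 / 2) ^ (500 * j) * X.L := by
      refine mul_le_mul_of_nonneg_right ?_ (by linarith)
      nlinarith
    have h8 := mul_le_mul_of_nonneg_right hpow (by linarith : 0 ≤ X.L)
    nlinarith
  have h9 : (C₁ * e + (1 / 2) ^ (s / B₀)) * X.L =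
      C₁ * e * X.L + (1 / 2) ^ (s / B₀) * X.L := by ring
  have h10 : (C₁ * e + (1 / 2) ^ j) * X.L =
      C₁ * e * X.L + (1 / 2) ^ j * X.L := by ring
  rw [h10]
  rw [h9] at h0
  linarith

end Pool.Agent.H3.GW.M
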