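import Pool.Agent.H72.GS2.LVG
import Pool.Agent.H3.GW.Defs
import Pool.Agent.H4.NW.LEV0
import Pool.Agent.H3.GW.Bas
import Pool.Agent.H3.GW.BFL

/-!
# Theorem (G), MP_c59857_nt, section 2: the inequality of one level
-/

set_option autoImplicit false

open Finset Pool.Agent.H6.N4D Pool.Agent.H93.EB Pool.Agent.H93.GS
open Pool.Agent.H78.N4.LEV hiding BV_one abs_D_le avg_shift phi_le_two sum_dvd_add sum_dvd_le
  zz_le zz_nonneg

namespace Pool.Agent.H3.GW.C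

open Pool.Agent.H72.GS2 Pool.Agent.H28.NW Pool.Agent.H3.GW Pool.Agent.H28.NW.LEV

/-! ## one scale, defects -/

lemma wlg_gapq (th : ℝ) (lam : ℕ → ℝ) (X : Wn) (q P L : ℕ) :
    wlg X (fun n => gapq th lam q P L n) =
      (∑ j ∈ range P, wlg X (fun n => En th lam q L (n + j * L))) / P -
        wlg X (fun n => En th lam q (P * L) n) := by
  unfold gapq
  rw [wlg_sub, wlg_avg X P (fun j n => En th lam q L (n + j * L))]

lemma wlg_gapq_le (th : ℝ) (lam : ℕ → ℝ) (X : Wn) (q P L : ℕ) (hth : 0 < th) (hl : ∀ m, |lam m| ≤ 1)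
    (hq : 1 ≤ q) (hqL : q ≤ L) (hP : 1 ≤ P) :
    |wlg X (fun n => gapq th lam q P L n) - (wlg X (fun n => En th lam q L n) -
      wlg X (fun n => En th lam q (P * L) n))| ≤ 6 * hs (P * L) := by
  rw [wlg_gapq]
  have h := avg_shift X L P hP (fun n => En th lam q L n) (c := 2)
    (fun n => En_abs th lam q L n hth hl hq hqL)
  have e : (∑ j ∈ range P, wlg X (fun n => En th lam q L (n + j * L))) / (P : ℝ) -
      wlg X (fun n => En th lam q (P * L) n) - (wlg X (fun n => En th lam q L n) -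
        wlg X (fun n => En th lam q (P * L) n)) =
      (∑ j ∈ range P, wlg X (fun n => En th lam q L (n + j * L))) / (P : ℝ) -
        wlg X (fun n => En th lam q L n) := by ring
  rw [e]
  linarith

/-- Markov's inequality -/
lemma wlg_ind (X : Wn) (κ : ℝ) (hκ : 0 < κ) (F : ℕ → ℝ) (hF : ∀ n, 0 ≤ F n) :
    wlg X (fun n => ind (κ < F n)) ≤ 1 / κ * wlg X F := by
  rw [← wlg_mul]
  apply wlg_mono
  intro n _
  unfold ind
  split_ifs with h
  · rw [one_div, ← div_eq_inv_mul, le_div_iff₀ hκ]; linarith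
  · exact mul_nonneg (by positivity) (hF n)

/-- the share of the windows with a large defect -/
lemma wlg_ind_gapq (th : ℝ) (lam : ℕ → ℝ) (X : Wn) (q P L : ℕ) (κ : ℝ) (hκ : 0 < κ) (hth : 0 < th)
    (hl : ∀ m, |lam m| ≤ 1) (hq : 1 ≤ q) (hqL : q ≤ L) (hP : 1 ≤ P) :
    wlg X (fun n => ind (κ < gapq th lam q P L n)) ≤ 1 / κ * ((wlg X (fun n => En th lam q L n) -
      wlg X (fun n => En th lam q (P * L) n)) + 6 * hs (P * L)) := by
  refine (wlg_ind X κ hκ (fun n => gapq th lam q P L n)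
    (fun n => gapq_nonneg th lam q P L n hth hl hq hqL hP)).trans ?_
  apply mul_le_mul_of_nonneg_left _ (by positivity)
  have := (abs_le.1 (wlg_gapq_le th lam X q P L hth hl hq hqL hP)).2
  linarith

/-! ## the worst frequency and the worst weights -/

lemma wlg_SA (hBAB : W_BAB) (lam : ℕ → ℝ) (hl : ∀ n, |lam n| ≤ 1) (X : Wn) (m : ℕ)
    (hm : 400 ≤ m) (hQ : ∑ q ∈ QQ m, 1 / (q : ℝ) ≤ 3) :
    wlg X (fun n => Pool.Agent.H6.GS2.SA lam m n) ≤ 2 * wbA lam X m := by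
  choose α v hv hs using fun n => SA_sel lam hl m n hm hQ
  have h1 := (hBAB lam X m hl).2.2.1 α v (fun n q hq => hv n q hq)
  have h2 : wlg X (fun n => Pool.Agent.H6.GS2.SA lam m n) ≤
      wlg X (fun n => 2 * ∑ q ∈ QQ m, 1 / (q : ℝ) * zz lam q (2 ^ m) n (α n) (v n q) ^ 2) :=
    wlg_mono fun n _ => hs n
  rw [wlg_mul] at h2
  have h3 : wlg X (fun n => ∑ q ∈ QQ m, 1 / (q : ℝ) * zz lam q (2 ^ m) n (α n) (v n q) ^ 2) =
      wbv lam X m (fun n _ => α n) v := rfl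
  rw [h3] at h2
  linarith

/-! ## shifts with a sharp constant -/

/-- a shift increases a logarithmic sum by at most the harmonic sum -/
lemma wlg_shift_one (X : Wn) (a : ℕ) (f : ℕ → ℝ) (B : ℝ) (h0 : ∀ n, 0 ≤ f n) (h1 : ∀ n, f n ≤ B) :
    wlg X (fun n => f (n + a)) ≤ wlg X f + B * hs a := by
  have hB : 0 ≤ B := (h0 0).trans (h1 0)
  obtain ⟨g, hg⟩ : ∃ g : ℕ → ℝ, g = fun n => B - f n := ⟨_, rfl⟩
  have hg0 : ∀ n, 0 ≤ g n := fun n => by rw [hg]; simp only; linarith [h1 n]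
  have hgB : ∀ n, g n ≤ B := fun n => by rw [hg]; simp only; linarith [h0 n]
  have e1 : wlg X (fun n => f (n + a)) = B * GW.A.whs X - wlg X (fun n => g (n + a)) := by
    rw [GW.A.whs_eq]
    unfold wlg
    rw [mul_sum, ← sum_sub_distrib]
    apply sum_congr rfl
    intro n _
    rw [hg]; ring
  have e2 : wlg X f = B * GW.A.whs X - wlg X g := by
    rw [GW.A.whs_eq]
    unfold wlg
    rw [mul_sum, ← sum_sub_distrib]
    apply sum_congr rfl
    intro n _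
    rw [hg]; ring
  -- the sum over the shifted numbers
  have hle : X.lo - 1 ≤ X.hi := (Nat.sub_le _ _).trans X.le
  have e3 : ∑ n ∈ Ioc (X.lo - 1 + a) (X.hi + a), g n / (n : ℝ) ≤ wlg X (fun n => g (n + a)) := by
    have h2 : ∑ n ∈ Ioc (X.lo - 1 + a) (X.hi + a), g n / (n : ℝ) =
        ∑ n ∈ Ioc (X.lo - 1) X.hi, g (n + a) / ((n + a : ℕ) : ℝ) := by
      have h3 : Ioc (X.lo - 1 + a) (X.hi + a) =
          (Ioc (X.lo - 1) X.hi).map (addRightEmbedding a) := by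
        rw [Finset.map_add_right_Ioc]
      rw [h3, sum_map]
      rfl
    rw [h2]
    unfold wlg
    rw [X.icc]
    apply sum_le_sum
    intro n hn
    have hn1 : (1 : ℝ) ≤ n := by
      have := (mem_Ioc.1 hn).1
      exact_mod_cast (by omega : 1 ≤ n)
    apply div_le_div_of_nonneg_left (hg0 _) (by linarith)
    push_cast
    have : (0 : ℝ) ≤ a := Nat.cast_nonneg _
    linarith
  have e4 : wlg X g ≤ ∑ n ∈ Ioc (X.lo - 1) (X.lo - 1 + a), g n / (n : ℝ) +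
      ∑ n ∈ Ioc (X.lo - 1 + a) (X.hi + a), g n / (n : ℝ) := by
    rw [sum_Ioc_consecutive (fun n => g n / (n : ℝ)) (Nat.le_add_right _ _)
      (Nat.add_le_add_right hle a)]
    unfold wlg
    rw [X.icc]
    exact sum_le_sum_of_subset_of_nonneg (Ioc_subset_Ioc le_rfl (Nat.le_add_right _ _))
      fun n _ _ => div_nonneg (hg0 n) (Nat.cast_nonneg _)
  have e5 : ∑ n ∈ Ioc (X.lo - 1) (X.lo - 1 + a), g n / (n : ℝ) ≤ B * hs a := by
    calc ∑ n ∈ Ioc (X.lo - 1) (X.lo - 1 + a), g n / (n : ℝ)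
        ≤ ∑ n ∈ Ioc (X.lo - 1) (X.lo - 1 + a), B * (1 / (n : ℝ)) := by
          apply sum_le_sum
          intro n _
          rw [mul_one_div]
          exact div_le_div_of_nonneg_right (hgB n) (Nat.cast_nonneg _)
      _ = B * ∑ n ∈ Ioc (X.lo - 1) (X.lo - 1 + a), 1 / (n : ℝ) := by rw [mul_sum]
      _ ≤ _ := mul_le_mul_of_nonneg_left (sum_window_le _ a) hB
  linarith

/-- the defects are almost not negative, with a sharp constant -/
lemma wlg_En_low (X : Wn) (P L q : ℕ) (th B : ℝ) (lam : ℕ → ℝ) (hth : 0 < th)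
    (hl : ∀ n, |lam n| ≤ 1)
    (hP : 1 ≤ P) (hq : 1 ≤ q) (hqL : q ≤ L) (hB : ∀ n, En th lam q L n ≤ B) :
    wlg X (fun n => En th lam q (P * L) n) ≤ wlg X (fun n => En th lam q L n) +
      B * hs (P * L) := by
  have hP0 : (0 : ℝ) < P := by exact_mod_cast hP
  have hB0 : 0 ≤ B := (Pool.Agent.H84.GS.En_nonneg th lam q L 0 hth hq hqL hl).trans (hB 0)
  have h1 : wlg X (fun n => En th lam q (P * L) n) ≤
      wlg X (fun n => (∑ j ∈ range P, En th lam q L (n + j * L)) / P) :=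
    wlg_mono fun n _ => Pool.Agent.H84.GS.En_split th lam q L n P hth hq hqL hP hl
  rw [wlg_avg X P (fun j n => En th lam q L (n + j * L))] at h1
  refine h1.trans ?_
  rw [div_le_iff₀ hP0]
  calc ∑ j ∈ range P, wlg X (fun n => En th lam q L (n + j * L))
      ≤ ∑ _j ∈ range P, (wlg X (fun n => En th lam q L n) + B * hs (P * L)) := by
        apply sum_le_sum
        intro j hj
        have h3 := wlg_shift_one X (j * L) (fun n => En th lam q L n) B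
          (fun n => Pool.Agent.H84.GS.En_nonneg th lam q L n hth hq hqL hl) hB
        have h4 := mul_le_mul_of_nonneg_left
          (hs_mono (Nat.mul_le_mul_right L (mem_range.1 hj).le)) hB0
        linarith
    _ = _ := by rw [sum_const, card_range, nsmul_eq_mul]; ring

/-! ## the bad events -/

lemma wlg_bb (th κ c₁ δ : ℝ) (p₀ : ℕ) (lam : ℕ → ℝ) (X : Wn) (m : ℕ) (hth : 0 < th) (hκ : 0 < κ)
    (hl : ∀ n, |lam n| ≤ 1) (hm : 400 ≤ m) (hp : 4 * p₀ ≤ m)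
    (hQ : ∑ q ∈ QQ m, 1 / (q : ℝ) ≤ 3) :
    wlg X (fun n => bb th κ c₁ δ p₀ lam m n) ≤ 3 / κ * (wgm th lam X p₀ m + 6 * hs (2 ^ m)) +
      1 / κ * (wgmq th lam X p₀ m + 18 * hs (2 ^ m)) + wbF lam X m (th / 2) δ c₁ := by
  have hPL : 2 ^ p₀ * 2 ^ (m - p₀) = 2 ^ m := by rw [← pow_add]; congr 1; omega
  have hH : 0 ≤ hs (2 ^ m) := by
    unfold hs
    exact sum_nonneg fun n _ => by positivity
  have e : (fun n => bb th κ c₁ δ p₀ lam m n) = fun n =>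
      ((∑ q ∈ QQ m, 1 / (q : ℝ)) * ind (κ < gapq th lam 1 (2 ^ p₀) (2 ^ (m - p₀)) n) +
      ∑ q ∈ QQ m, 1 / (q : ℝ) * ind (κ < gapq th lam q (2 ^ p₀) (2 ^ (m - p₀)) n)) +
      ∑ q ∈ QQ m, 1 / (q : ℝ) * ind (JF lam q (2 ^ m) n (th / 2) δ c₁) := by
    funext n
    unfold bb Pool.Agent.H6.GS2.bad
    rw [sum_mul, ← sum_add_distrib, ← sum_add_distrib]
    apply sum_congr rfl
    intro q _
    rw [gap_gapq]
    ring
  rw [e, wlg_add, wlg_add, wlg_mul]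
  have h1 := wlg_ind_gapq th lam X 1 (2 ^ p₀) (2 ^ (m - p₀)) κ hκ hth hl le_rfl
    Nat.one_le_two_pow Nat.one_le_two_pow
  rw [hPL] at h1
  have h0 : 0 ≤ wlg X (fun n => ind (κ < gapq th lam 1 (2 ^ p₀) (2 ^ (m - p₀)) n)) :=
    wlg_nonneg fun n _ => ind_nonneg _
  have h2 : (∑ q ∈ QQ m, 1 / (q : ℝ)) *
      wlg X (fun n => ind (κ < gapq th lam 1 (2 ^ p₀) (2 ^ (m - p₀)) n)) ≤
      3 / κ * (wgm th lam X p₀ m + 6 * hs (2 ^ m)) := by
    calc _ ≤ 3 * (1 / κ * ((wlg X (fun n => En th lam 1 (2 ^ (m - p₀)) n) -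
          wlg X (fun n => En th lam 1 (2 ^ m) n)) + 6 * hs (2 ^ m))) :=
          mul_le_mul hQ h1 h0 (by norm_num)
      _ = _ := by unfold wgm; ring
  have h3 : wlg X (fun n => ∑ q ∈ QQ m, 1 / (q : ℝ) *
      ind (κ < gapq th lam q (2 ^ p₀) (2 ^ (m - p₀)) n)) ≤
      1 / κ * (wgmq th lam X p₀ m + 18 * hs (2 ^ m)) := by
    rw [wlg_sum]
    calc _ ≤ ∑ q ∈ QQ m, 1 / (q : ℝ) * (1 / κ * ((wlg X (fun n => En th lam q (2 ^ (m - p₀)) n) -
          wlg X (fun n => En th lam q (2 ^ m) n)) + 6 * hs (2 ^ m))) := by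
          apply sum_le_sum
          intro q hq
          rw [wlg_mul]
          apply mul_le_mul_of_nonneg_left _ (by positivity)
          have h4 := (mem_QQ_bounds hq).2
          have h5 : q ≤ 2 ^ (m - p₀) := h4.trans (Nat.pow_le_pow_right (by norm_num) (by omega))
          have h6 := wlg_ind_gapq th lam X q (2 ^ p₀) (2 ^ (m - p₀)) κ hκ hth hl
            (mem_QQ_bounds hq).1 h5 Nat.one_le_two_pow
          rw [hPL] at h6
          exact h6
      _ = 1 / κ * (wgmq th lam X p₀ m + 6 * (∑ q ∈ QQ m, 1 / (q : ℝ)) * hs (2 ^ m)) := by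
          unfold wgmq
          rw [mul_add, mul_sum, mul_sum, sum_mul, mul_sum, ← sum_add_distrib]
          apply sum_congr rfl
          intro q _
          ring
      _ ≤ _ := by
          apply mul_le_mul_of_nonneg_left _ (by positivity)
          nlinarith
  have h4 : wlg X (fun n => ∑ q ∈ QQ m, 1 / (q : ℝ) *
      ind (JF lam q (2 ^ m) n (th / 2) δ c₁)) = wbF lam X m (th / 2) δ c₁ := rfl
  linarith

/-! ## lower bound for the defects -/

lemma gm_low (th : ℝ) (p₀ : ℕ) (lam : ℕ → ℝ) (X : Wn) (m : ℕ) (hth : 0 < th)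
    (hl : ∀ n, |lam n| ≤ 1) (hm : 400 ≤ m) (hp : 4 * p₀ ≤ m)
    (hQ : ∑ q ∈ QQ m, 1 / (q : ℝ) ≤ 3 / 2) :
    -(253 / 100 * hs (2 ^ m)) ≤ wgm th lam X p₀ m + wgmq th lam X p₀ m := by
  have hPL : 2 ^ p₀ * 2 ^ (m - p₀) = 2 ^ m := by rw [← pow_add]; congr 1; omega
  have hH : 0 ≤ hs (2 ^ m) := by
    unfold hs
    exact sum_nonneg fun n _ => by positivity
  have hb : ∀ q, 1 ≤ q → q ≤ 2 ^ (m / 200) → q ≤ 2 ^ (m - p₀) ∧
      ∀ n, En th lam q (2 ^ (m - p₀)) n ≤ 101 / 100 := by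
    intro q hq1 hq2
    have h5 : q ≤ 2 ^ (m - p₀) := hq2.trans (Nat.pow_le_pow_right (by norm_num) (by omega))
    refine ⟨h5, fun n => ?_⟩
    have h6 := Pool.Agent.H6.GS2.En_le th lam q (2 ^ (m - p₀)) n hth.le hl hq1
      Nat.one_le_two_pow
    have h7 : (q : ℝ) / ((2 ^ (m - p₀) : ℕ) : ℝ) ≤ 1 / 100 := by
      rw [div_le_div_iff₀ (by positivity) (by norm_num)]
      have h8 : q * 100 ≤ 1 * 2 ^ (m - p₀) := by
        calc q * 100 ≤ 2 ^ (m / 200) * 2 ^ 7 := Nat.mul_le_mul hq2 (by norm_num)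
          _ = 2 ^ (m / 200 + 7) := by rw [pow_add]
          _ ≤ 2 ^ (m - p₀) := Nat.pow_le_pow_right (by norm_num) (by omega)
          _ = 1 * 2 ^ (m - p₀) := (one_mul _).symm
      exact_mod_cast h8
    linarith
  have h1 : -(101 / 100 * hs (2 ^ m)) ≤ wgm th lam X p₀ m := by
    have h2 := hb 1 le_rfl Nat.one_le_two_pow
    have h3 := wlg_En_low X (2 ^ p₀) (2 ^ (m - p₀)) 1 th (101 / 100) lam hth hl
      Nat.one_le_two_pow le_rfl h2.1 h2.2
    rw [hPL] at h3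
    unfold wgm
    linarith
  have h2 : -((∑ q ∈ QQ m, 1 / (q : ℝ)) * (101 / 100 * hs (2 ^ m))) ≤ wgmq th lam X p₀ m := by
    unfold wgmq
    rw [sum_mul, ← sum_neg_distrib]
    apply sum_le_sum
    intro q hq
    have h4 := mem_QQ_bounds hq
    have h2 := hb q h4.1 h4.2
    have h3 := wlg_En_low X (2 ^ p₀) (2 ^ (m - p₀)) q th (101 / 100) lam hth hl
      Nat.one_le_two_pow h4.1 h2.1 h2.2
    rw [hPL] at h3
    rw [← mul_neg]
    apply mul_le_mul_of_nonneg_left _ (by positivity)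
    linarith
  have h3 : (∑ q ∈ QQ m, 1 / (q : ℝ)) * (101 / 100 * hs (2 ^ m)) ≤
      3 / 2 * (101 / 100 * hs (2 ^ m)) := mul_le_mul_of_nonneg_right hQ (by positivity)
  linarith

lemma gmq_low (th : ℝ) (p₀ : ℕ) (lam : ℕ → ℝ) (X : Wn) (m : ℕ) (hth : 0 < th)
    (hl : ∀ n, |lam n| ≤ 1) (hm : 400 ≤ m) (hp : 4 * p₀ ≤ m)
    (hQ : ∑ q ∈ QQ m, 1 / (q : ℝ) ≤ 3) : 0 ≤ wgmq th lam X p₀ m + 18 * hs (2 ^ m) := by
  have hH0 : 0 ≤ hs (2 ^ m) := by
    unfold hs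
    exact sum_nonneg fun n _ => by positivity
  have hPL : 2 ^ p₀ * 2 ^ (m - p₀) = 2 ^ m := by rw [← pow_add]; congr 1; omega
  have h4 : -((∑ q ∈ QQ m, 1 / (q : ℝ)) * (6 * hs (2 ^ m))) ≤ wgmq th lam X p₀ m := by
    unfold wgmq
    rw [sum_mul, ← sum_neg_distrib]
    apply sum_le_sum
    intro q hq
    have h5 := mem_QQ_bounds hq
    have h6 : q ≤ 2 ^ (m - p₀) := h5.2.trans (Nat.pow_le_pow_right (by norm_num) (by omega))
    have h7 := wlg_En_low X (2 ^ p₀) (2 ^ (m - p₀)) q th 2 lam hth hl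
      Nat.one_le_two_pow h5.1 h6
      (fun n => Pool.Agent.H84.GS.En_le th lam q _ n hth h5.1 h6 hl)
    rw [hPL] at h7
    rw [← mul_neg]
    apply mul_le_mul_of_nonneg_left _ (by positivity)
    linarith
  have h8 : (∑ q ∈ QQ m, 1 / (q : ℝ)) * (6 * hs (2 ^ m)) ≤ 3 * (6 * hs (2 ^ m)) :=
    mul_le_mul_of_nonneg_right hQ (by positivity)
  linarith

/-! ## the scales -/

lemma scale_lo (hD : W_DLG) (hM : W_MNX) : ∀ th : ℝ, 0 < th → th ≤ 1 → ∃ C : ℝ, 0 < C ∧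
    ∀ (X : Wn) (m q : ℕ) (lam : ℕ → ℝ), 1 ≤ X.L → 400 ≤ m → Lio lam → q ∈ QQ m →
    wlg X (fun n => En th lam 1 (2 ^ (m - m / 500)) n) ≤ wlg X (fun n => En th lam q (2 ^ m) n) +
      C * ((1 / 2) ^ (m / 2000) * X.L + m + 1) := by
  intro th hth hth1
  obtain ⟨C₁, hC₁, H1⟩ := hD th hth hth1
  obtain ⟨C₂, hC₂, H2⟩ := hM th hth hth1
  refine ⟨C₁ + C₂, by positivity, ?_⟩
  intro X m q lam hX hm hlam hq
  have hl := lam_abs hlam
  have hlogX : 0 ≤ X.L := X.L_nonneg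
  have hq' := hq
  unfold QQ at hq'
  rw [mem_filter, mem_Ioc] at hq'
  obtain ⟨⟨hq1, hq2⟩, hqp⟩ := hq'
  have hq0 : 0 < q := hqp.pos
  have h1 := H1 X m q lam hX hlam hqp (by
    calc q ^ 2 ≤ (2 ^ (m / 200)) ^ 2 := Nat.pow_le_pow_left hq2 2
      _ = 2 ^ (m / 200 * 2) := by rw [← pow_mul]
      _ ≤ 2 ^ m := Nat.pow_le_pow_right (by norm_num) (by omega))
  -- the lengths
  have hN1 : 1 ≤ 2 ^ m / q := (Nat.one_le_div_iff hq0).2
    (hq2.trans (Nat.pow_le_pow_right (by norm_num) (by omega)))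
  have hN2 : 2 ^ m / q ≤ 2 ^ (m - m / 400) := by
    calc 2 ^ m / q ≤ 2 ^ m / 2 ^ (m / 400) := Nat.div_le_div_left hq1.le (by positivity)
      _ = 2 ^ (m - m / 400) := Nat.pow_div (by omega) (by norm_num)
  have hNH : 2 ^ m / q ≤ 2 ^ (m - m / 500) :=
    hN2.trans (Nat.pow_le_pow_right (by norm_num) (by omega))
  have h2 := H2 X (2 ^ m / q) (2 ^ (m - m / 500)) lam hX hl hN1 hNH
  have h3 : ((2 ^ m / q : ℕ) : ℝ) / ((2 ^ (m - m / 500) : ℕ) : ℝ) ≤ (1 / 2) ^ (m / 2000) := by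
    rw [div_le_iff₀ (by positivity)]
    have h4 : ((2 ^ m / q : ℕ) : ℝ) ≤ (2 : ℝ) ^ (m - m / 400) := by exact_mod_cast hN2
    refine h4.trans ?_
    have h5 : (2 : ℝ) ^ (m - m / 400) * (2 : ℝ) ^ (m / 2000) ≤ (2 : ℝ) ^ (m - m / 500) := by
      rw [← pow_add]
      exact pow_le_pow_right₀ (by norm_num) (by omega)
    rw [one_div, inv_pow, ← div_eq_inv_mul, le_div_iff₀ (by positivity)]
    push_cast
    exact h5
  have h4 : Real.log ((2 ^ (m - m / 500) : ℕ) : ℝ) ≤ m := by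
    rw [Nat.cast_pow, Real.log_pow]
    have h9 : Real.log ((2 : ℕ) : ℝ) ≤ 1 := by
      have := Real.log_two_lt_d9
      norm_num at this ⊢
      linarith
    have h10 : ((m - m / 500 : ℕ) : ℝ) ≤ m := by exact_mod_cast (by omega : m - m / 500 ≤ m)
    have h11 : (0 : ℝ) ≤ ((m - m / 500 : ℕ) : ℝ) := Nat.cast_nonneg _
    have h12 := mul_le_mul_of_nonneg_left h9 h11
    linarith
  have h5 : (q : ℝ) / 2 ^ m ≤ (1 / 2) ^ (m / 2000) := by
    rw [div_le_iff₀ (by positivity)]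
    have h6 : (q : ℝ) ≤ 2 ^ (m / 200) := by exact_mod_cast hq2
    refine h6.trans ?_
    rw [one_div, inv_pow, ← div_eq_inv_mul, le_div_iff₀ (by positivity), ← pow_add]
    exact pow_le_pow_right₀ (by norm_num) (by omega)
  have h6 := (abs_le.1 h1).1
  have h7 := mul_le_mul_of_nonneg_right h3 hlogX
  have h8 := mul_le_mul_of_nonneg_right h5 hlogX
  generalize (1 / 2 : ℝ) ^ (m / 2000) * X.L = Y at *
  have h9 : C₂ * (((2 ^ m / q : ℕ) : ℝ) / ((2 ^ (m - m / 500) : ℕ) : ℝ) * X.L +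
      Real.log ((2 ^ (m - m / 500) : ℕ) : ℝ) + 1) ≤ C₂ * (Y + m + 1) := by
    apply mul_le_mul_of_nonneg_left _ hC₂.le
    linarith
  have h10 : C₁ * ((q : ℝ) / 2 ^ m) * X.L ≤ C₁ * Y := by
    rw [mul_assoc]
    exact mul_le_mul_of_nonneg_left h8 hC₁.le
  have h11 : (C₁ + C₂) * (Y + m + 1) = C₁ * Y + C₁ * (m + 1) + C₂ * (Y + m + 1) := by ring
  rw [h11]
  linarith

lemma scale_hi (hD : W_DLG) (hM : W_MNX) : ∀ th : ℝ, 0 < th → th ≤ 1 → ∃ C : ℝ, 0 < C ∧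
    ∀ (X : Wn) (m q A : ℕ) (lam : ℕ → ℝ), 1 ≤ X.L → 400 ≤ m → 2 ≤ A → Lio lam → q ∈ QQ m →
    wlg X (fun n => En th lam q (2 ^ (A * m)) n) ≤
      wlg X (fun n => En th lam 1 (2 ^ (A * m - m / 100)) n) +
      C * ((1 / 2) ^ (m / 2000) * X.L + A * m + 1) := by
  intro th hth hth1
  obtain ⟨C₁, hC₁, H1⟩ := hD th hth hth1
  obtain ⟨C₂, hC₂, H2⟩ := hM th hth hth1
  refine ⟨C₁ + C₂, by positivity, ?_⟩
  intro X m q A lam hX hm hA hlam hq
  have hl := lam_abs hlam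
  have hlogX : 0 ≤ X.L := X.L_nonneg
  have hq' := hq
  unfold QQ at hq'
  rw [mem_filter, mem_Ioc] at hq'
  obtain ⟨⟨hq1, hq2⟩, hqp⟩ := hq'
  have hq0 : 0 < q := hqp.pos
  obtain ⟨k, hk⟩ : ∃ k, k = A * m := ⟨_, rfl⟩
  have hkm : 2 * m ≤ k := by rw [hk]; exact Nat.mul_le_mul_right m hA
  have hkr : (k : ℝ) = A * m := by rw [hk]; push_cast; ring
  rw [← hk, ← hkr]
  have h1 := H1 X k q lam hX hlam hqp (by
    calc q ^ 2 ≤ (2 ^ (m / 200)) ^ 2 := Nat.pow_le_pow_left hq2 2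
      _ = 2 ^ (m / 200 * 2) := by rw [← pow_mul]
      _ ≤ 2 ^ k := Nat.pow_le_pow_right (by norm_num) (by omega))
  -- the lengths
  have hN2 : 2 ^ (k - m / 200) ≤ 2 ^ k / q := by
    calc 2 ^ (k - m / 200) = 2 ^ k / 2 ^ (m / 200) := (Nat.pow_div (by omega) (by norm_num)).symm
      _ ≤ 2 ^ k / q := Nat.div_le_div_left hq2 hq0
  have hNH : 2 ^ (k - m / 100) ≤ 2 ^ k / q :=
    (Nat.pow_le_pow_right (by norm_num) (by omega)).trans hN2
  have h2 := H2 X (2 ^ (k - m / 100)) (2 ^ k / q) lam hX hl Nat.one_le_two_pow hNH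
  have hpos : (0 : ℝ) < ((2 ^ k / q : ℕ) : ℝ) := by
    exact_mod_cast lt_of_lt_of_le (by positivity) hN2
  have h3 : ((2 ^ (k - m / 100) : ℕ) : ℝ) / ((2 ^ k / q : ℕ) : ℝ) ≤ (1 / 2) ^ (m / 2000) := by
    rw [div_le_iff₀ hpos]
    have h4 : (2 : ℝ) ^ (k - m / 200) ≤ ((2 ^ k / q : ℕ) : ℝ) := by exact_mod_cast hN2
    have h5 : (2 : ℝ) ^ (k - m / 100) * (2 : ℝ) ^ (m / 2000) ≤ (2 : ℝ) ^ (k - m / 200) := by
      rw [← pow_add]
      exact pow_le_pow_right₀ (by norm_num) (by omega)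
    rw [one_div, inv_pow, ← div_eq_inv_mul, le_div_iff₀ (by positivity)]
    push_cast at h4 ⊢
    linarith
  have h4 : Real.log ((2 ^ k / q : ℕ) : ℝ) ≤ k := by
    have h6 : ((2 ^ k / q : ℕ) : ℝ) ≤ (2 : ℝ) ^ k := by
      exact_mod_cast Nat.div_le_self _ _
    have h7 := Real.log_le_log hpos h6
    rw [Real.log_pow] at h7
    have h9 : Real.log 2 ≤ 1 := by
      have := Real.log_two_lt_d9
      linarith
    have h10 : (0 : ℝ) ≤ k := Nat.cast_nonneg _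
    nlinarith
  have h5 : (q : ℝ) / 2 ^ k ≤ (1 / 2) ^ (m / 2000) := by
    rw [div_le_iff₀ (by positivity)]
    have h6 : (q : ℝ) ≤ 2 ^ (m / 200) := by exact_mod_cast hq2
    refine h6.trans ?_
    rw [one_div, inv_pow, ← div_eq_inv_mul, le_div_iff₀ (by positivity), ← pow_add]
    exact pow_le_pow_right₀ (by norm_num) (by omega)
  have h6 := (abs_le.1 h1).2
  have h7 := mul_le_mul_of_nonneg_right h3 hlogX
  have h8 := mul_le_mul_of_nonneg_right h5 hlogX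
  generalize (1 / 2 : ℝ) ^ (m / 2000) * X.L = Y at *
  have h9 : C₂ * (((2 ^ (k - m / 100) : ℕ) : ℝ) / ((2 ^ k / q : ℕ) : ℝ) * X.L +
      Real.log ((2 ^ k / q : ℕ) : ℝ) + 1) ≤ C₂ * (Y + k + 1) := by
    apply mul_le_mul_of_nonneg_left _ hC₂.le
    linarith
  have h10 : C₁ * ((q : ℝ) / 2 ^ k) * X.L ≤ C₁ * Y := by
    rw [mul_assoc]
    exact mul_le_mul_of_nonneg_left h8 hC₁.le
  have h11 : (C₁ + C₂) * (Y + k + 1) = C₁ * Y + C₁ * (k + 1) + C₂ * (Y + k + 1) := by ring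
  rw [h11]
  linarith

/-! ## the inequality of one level -/

/-- the averages of the inequality for a window and its pieces -/
lemma lvg_avg (th κ c₁ δ C η : ℝ) (p₀ J m A : ℕ) (X : Wn) (lam : ℕ → ℝ) (hth : 0 < th)
    (hη : 0 < η) (hC : 0 < C) (hm : 400 ≤ m) (hJ1 : 1 ≤ J)
    (hJ : J * 2 ^ m = 2 ^ (A * m)) (hlam : Lio lam)
    (hQ : ∑ q ∈ QQ m, 1 / (q : ℝ) ≤ 3)
    (H : ∀ n, ∑ q ∈ QQ m, 1 / (q : ℝ) * gapq th lam q J (2 ^ m) n ≤
      (1 + η) * (∑ q ∈ QQ m, 1 / (q : ℝ)) * gap th lam J (2 ^ m) n +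
      C / η * ((∑ j ∈ range J, (Pool.Agent.H6.GS2.SA lam m (n + j * 2 ^ m) +
        ∑ q ∈ QQ m, 1 / (q : ℝ) *
        Pool.Agent.H6.GS2.bad th κ c₁ δ p₀ lam q m (n + j * 2 ^ m))) / J +
          (1 / 2) ^ (m / 1000))) (T : ℝ)
    (hT : ∀ q ∈ QQ m, T ≤ wlg X (fun n => En th lam q (2 ^ m) n) -
      wlg X (fun n => En th lam q (2 ^ (A * m)) n)) :
    (∑ q ∈ QQ m, 1 / (q : ℝ)) * (T - 6 * hs (2 ^ (A * m)) - (1 + η) *
      (wlg X (fun n => En th lam 1 (2 ^ m) n) - wlg X (fun n => En th lam 1 (2 ^ (A * m)) n) +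
        6 * hs (2 ^ (A * m)))) ≤
      C / η * (wlg X (fun n => Pool.Agent.H6.GS2.SA lam m n) +
        wlg X (fun n => bb th κ c₁ δ p₀ lam m n) + 108 * hs (2 ^ (A * m)) +
        (1 / 2) ^ (m / 1000) * GW.A.whs X) := by
  have hl := lam_abs hlam
  have hH : 0 ≤ hs (2 ^ (A * m)) := by
    unfold hs
    exact sum_nonneg fun n _ => by positivity
  have h1 : wlg X (fun n => ∑ q ∈ QQ m, 1 / (q : ℝ) * gapq th lam q J (2 ^ m) n) ≤
      wlg X (fun n => (1 + η) * (∑ q ∈ QQ m, 1 / (q : ℝ)) * gapq th lam 1 J (2 ^ m) n +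
      C / η * ((∑ j ∈ range J, (Pool.Agent.H6.GS2.SA lam m (n + j * 2 ^ m) +
        bb th κ c₁ δ p₀ lam m (n + j * 2 ^ m))) / J + (1 / 2) ^ (m / 1000))) :=
    wlg_mono fun n _ => H n
  rw [wlg_sum, wlg_add, wlg_mul, wlg_mul, wlg_add,
    wlg_avg X J (fun j n => Pool.Agent.H6.GS2.SA lam m (n + j * 2 ^ m) +
        bb th κ c₁ δ p₀ lam m (n + j * 2 ^ m))] at h1
  -- the left side
  have h2 : (∑ q ∈ QQ m, 1 / (q : ℝ)) * (T - 6 * hs (2 ^ (A * m))) ≤
      ∑ q ∈ QQ m, wlg X (fun n => 1 / (q : ℝ) * gapq th lam q J (2 ^ m) n) := by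
    rw [sum_mul]
    apply sum_le_sum
    intro q hq
    rw [wlg_mul]
    apply mul_le_mul_of_nonneg_left _ (by positivity)
    have h3 := (mem_QQ_bounds hq).1
    have h4 := QQ_le hm hq
    have h5 := (abs_le.1 (wlg_gapq_le th lam X q J (2 ^ m) hth hl h3 (by omega) hJ1)).1
    rw [hJ] at h5
    have h6 := hT q hq
    linarith
  -- the defect of the whole windows
  have h3 : wlg X (fun n => gapq th lam 1 J (2 ^ m) n) ≤
      wlg X (fun n => En th lam 1 (2 ^ m) n) - wlg X (fun n => En th lam 1 (2 ^ (A * m)) n) +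
        6 * hs (2 ^ (A * m)) := by
    have h5 := (abs_le.1 (wlg_gapq_le th lam X 1 J (2 ^ m) hth hl le_rfl
      Nat.one_le_two_pow hJ1)).2
    rw [hJ] at h5
    linarith
  -- the tests and the bad events
  have h4 : (∑ j ∈ range J, wlg X (fun n => Pool.Agent.H6.GS2.SA lam m (n + j * 2 ^ m) +
        bb th κ c₁ δ p₀ lam m (n + j * 2 ^ m))) / J ≤
      wlg X (fun n => Pool.Agent.H6.GS2.SA lam m n) +
        wlg X (fun n => bb th κ c₁ δ p₀ lam m n) + 108 * hs (2 ^ (A * m)) := by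
    have h5 := avg_shift X (2 ^ m) J hJ1 (fun n => Pool.Agent.H6.GS2.SA lam m n +
        bb th κ c₁ δ p₀ lam m n) (c := 36) (fun n => by
      have h6 := SA_bounds lam hl m n hm hQ
      have h7 := bb_bounds th κ c₁ δ p₀ lam m n hQ
      rw [abs_of_nonneg (by linarith)]
      linarith)
    have h6 := (abs_le.1 h5).2
    rw [wlg_add, hJ] at h6
    linarith
  have h5 : wlg X (fun _ => (1 / 2 : ℝ) ^ (m / 1000)) = (1 / 2) ^ (m / 1000) * GW.A.whs X := by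
    rw [GW.A.whs_eq]
    unfold wlg
    rw [mul_sum]
    exact sum_congr rfl fun n _ => by ring
  rw [h5] at h1
  have h6 : (1 + η) * (∑ q ∈ QQ m, 1 / (q : ℝ)) * wlg X (fun n => gapq th lam 1 J (2 ^ m) n) ≤
      (1 + η) * (∑ q ∈ QQ m, 1 / (q : ℝ)) *
      (wlg X (fun n => En th lam 1 (2 ^ m) n) - wlg X (fun n => En th lam 1 (2 ^ (A * m)) n) +
        6 * hs (2 ^ (A * m))) := by
    apply mul_le_mul_of_nonneg_left h3
    have : 0 ≤ ∑ q ∈ QQ m, 1 / (q : ℝ) := sum_nonneg fun q _ => by positivity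
    positivity
  have h7 := mul_le_mul_of_nonneg_left (add_le_add_left h4 ((1 / 2 : ℝ) ^ (m / 1000) * GW.A.whs X))
    (by positivity : 0 ≤ C / η)
  generalize (∑ q ∈ QQ m, 1 / (q : ℝ)) = μ at *
  have h8 := h2.trans (h1.trans (add_le_add h6 h7))
  have e : μ * (T - 6 * hs (2 ^ (A * m)) - (1 + η) *
      (wlg X (fun n => En th lam 1 (2 ^ m) n) - wlg X (fun n => En th lam 1 (2 ^ (A * m)) n) +
        6 * hs (2 ^ (A * m)))) = μ * (T - 6 * hs (2 ^ (A * m))) - (1 + η) * μ *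
      (wlg X (fun n => En th lam 1 (2 ^ m) n) - wlg X (fun n => En th lam 1 (2 ^ (A * m)) n) +
        6 * hs (2 ^ (A * m))) := by ring
  rw [e]
  linarith

/-- LVG. The inequality of one level. -/
theorem pf_LVG (hONG : Pool.Agent.H6.GS2.T_ONG) (hD : W_DLG) (hM : W_MNX)
    (hBAB : W_BAB) (hQ : Pool.Agent.H70.EN.T_QMS) : W_LVG := by
  intro th hth hth1
  obtain ⟨κ, c₁, δ, C, p₀, m₁, hκ, hc₁, hδ, hC, hp, H⟩ := hONG th hth hth1
  obtain ⟨C₂, hC₂, H2⟩ := scale_lo hD hM th hth hth1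
  obtain ⟨C₃, hC₃, H3⟩ := scale_hi hD hM th hth hth1
  obtain ⟨m₂, hm₂⟩ := hQ
  obtain ⟨m₃, hm₃⟩ := mu_le
  refine ⟨κ, c₁, δ, 16 * (C₂ + C₃ + 18) + 4 * C * (1747 + 1155 / κ), p₀,
    max m₁ (max m₂ (max m₃ 400)), hκ, hc₁, hδ, by positivity, hp.trans (le_max_left _ _), ?_⟩
  intro η A X m lam hη hη1 hA hX hm hlam
  have hl := lam_abs hlam
  have hm1 : m₁ ≤ m := (le_max_left _ _).trans hm
  have hm2 : m₂ ≤ m := (le_max_left _ _).trans ((le_max_right _ _).trans hm)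
  have hm3 : m₃ ≤ m := (le_max_left _ _).trans ((le_max_right _ _).trans
    ((le_max_right _ _).trans hm))
  have hm4 : 400 ≤ m := (le_max_right _ _).trans ((le_max_right _ _).trans
    ((le_max_right _ _).trans hm))
  obtain ⟨hμ1, hμ3⟩ := hm₂ m hm2
  have hμ32 := hm₃ m hm3
  obtain ⟨J, hJ1, hJK⟩ : ∃ J : ℕ, 1 ≤ J ∧ J * 2 ^ m = 2 ^ (A * m) := by
    refine ⟨2 ^ ((A - 1) * m), Nat.one_le_two_pow, ?_⟩
    rw [← pow_add]; congr 1
    obtain ⟨a, rfl⟩ : ∃ a, A = a + 1 := ⟨A - 1, by omega⟩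
    rw [Nat.add_sub_cancel]; ring
  -- the error
  have hlogX : 0 ≤ X.L := X.L_nonneg
  obtain ⟨Y, hY⟩ : ∃ Y : ℝ, Y = (1 / 2) ^ (m / 2000) * X.L := ⟨_, rfl⟩
  have hY0 : 0 ≤ Y := by rw [hY]; positivity
  obtain ⟨E, hE⟩ : ∃ E : ℝ, E = Y + A * m + 1 := ⟨_, rfl⟩
  have hE0 : 0 ≤ E := by rw [hE]; positivity
  have hAm : (2 : ℝ) * m ≤ A * m := by
    have : (2 : ℝ) ≤ A := by exact_mod_cast hA
    nlinarith [(Nat.cast_nonneg m : (0 : ℝ) ≤ m)]
  have hm400 : (400 : ℝ) ≤ m := by exact_mod_cast hm4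
  have hH : hs (2 ^ (A * m)) ≤ E := by
    have h1 := hs_two_pow (A * m)
    push_cast at h1
    rw [hE]
    linarith
  have hHm : hs (2 ^ m) ≤ E := (hs_mono (Nat.pow_le_pow_right (by norm_num)
    (Nat.le_mul_of_pos_left m (by omega)))).trans hH
  have hHX : (1 / 2) ^ (m / 1000) * GW.A.whs X ≤ E := by
    have h1 := GW.A.whs_le X
    have h2 : (1 / 2 : ℝ) ^ (m / 1000) ≤ (1 / 2) ^ (m / 2000) :=
      pow_le_pow_of_le_one (by norm_num) (by norm_num) (by omega)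
    have h3 : (1 / 2 : ℝ) ^ (m / 2000) ≤ 1 := pow_le_one₀ (by norm_num) (by norm_num)
    have h4 : 0 ≤ (1 / 2 : ℝ) ^ (m / 1000) := by positivity
    calc (1 / 2) ^ (m / 1000) * GW.A.whs X ≤ (1 / 2) ^ (m / 1000) * (1 + X.L) :=
          mul_le_mul_of_nonneg_left h1 h4
      _ ≤ (1 / 2) ^ (m / 2000) * (1 + X.L) :=
          mul_le_mul_of_nonneg_right h2 (by linarith)
      _ ≤ E := by rw [mul_add, mul_one, ← hY, hE]; linarith
  -- the scales
  have hT : ∀ q ∈ QQ m, wlg X (fun n => En th lam 1 (2 ^ (m - m / 500)) n) -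
      wlg X (fun n => En th lam 1 (2 ^ (A * m - m / 100)) n) - (C₂ + C₃) * E ≤
      wlg X (fun n => En th lam q (2 ^ m) n) - wlg X (fun n => En th lam q (2 ^ (A * m)) n) := by
    intro q hq
    have h1 := H2 X m q lam hX hm4 hlam hq
    have h2 := H3 X m q A lam hX hm4 hA hlam hq
    rw [← hY] at h1 h2
    have h3 : C₂ * (Y + m + 1) ≤ C₂ * E := by
      apply mul_le_mul_of_nonneg_left _ hC₂.le
      rw [hE]
      linarith
    rw [← hE] at h2
    linarith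
  have hmain := lvg_avg th κ c₁ δ C η p₀ J m A X lam hth hη hC hm4 hJ1 hJK hlam hμ3
    (fun n => H η J m n lam hη hη1 hJ1 hm1 hl) _ hT
  have hu : -(15 / 16 * E) ≤ wgm th lam X p₀ m + wgmq th lam X p₀ m := by
    have h1 := gm_low th p₀ lam X m hth hl hm4 (hp.trans hm1) hμ32
    have h2 : hs (2 ^ m) ≤ 1 + 694 / 1000 * m := by
      have h := hs_le (2 ^ m)
      have h3 : Real.log ((2 ^ m : ℕ) : ℝ) ≤ 694 / 1000 * m := by
        rw [Nat.cast_pow, Real.log_pow]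
        have h9 : Real.log ((2 : ℕ) : ℝ) ≤ 694 / 1000 := by
          have := Real.log_two_lt_d9
          norm_num at this ⊢
          linarith
        have h10 : (0 : ℝ) ≤ (m : ℝ) := Nat.cast_nonneg _
        nlinarith
      linarith
    have h3 : Y + 2 * m + 1 ≤ E := by rw [hE]; linarith
    linarith
  have hV : wlg X (fun n => Pool.Agent.H6.GS2.SA lam m n) +
        wlg X (fun n => bb th κ c₁ δ p₀ lam m n) + 108 * hs (2 ^ (A * m)) +
        (1 / 2) ^ (m / 1000) * GW.A.whs X ≤ 2 * wbA lam X m +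
        wbF lam X m (th / 2) δ c₁ + 109 * E +
        3 / κ * (wgm th lam X p₀ m + wgmq th lam X p₀ m + 24 * E) := by
    have h1 := wlg_SA hBAB lam hl X m hm4 hμ3
    have h2 := wlg_bb th κ c₁ δ p₀ lam X m hth hκ hl hm4 (hp.trans hm1) hμ3
    have h3 : 0 ≤ wgmq th lam X p₀ m + 18 * hs (2 ^ m) :=
      gmq_low th p₀ lam X m hth hl hm4 (hp.trans hm1) hμ3
    have h4 : 1 / κ * (wgmq th lam X p₀ m + 18 * hs (2 ^ m)) ≤
        3 / κ * (wgmq th lam X p₀ m + 18 * hs (2 ^ m)) := by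
      apply mul_le_mul_of_nonneg_right _ h3
      gcongr
      norm_num
    have h5 : 3 / κ * (wgm th lam X p₀ m + 6 * hs (2 ^ m)) +
        3 / κ * (wgmq th lam X p₀ m + 18 * hs (2 ^ m)) ≤
        3 / κ * (wgm th lam X p₀ m + wgmq th lam X p₀ m + 24 * E) := by
      rw [← mul_add]
      apply mul_le_mul_of_nonneg_left _ (by positivity)
      linarith
    linarith
  have hbA := (hBAB lam X m hl).1
  have hbF := bF_nonneg lam X m (th / 2) δ c₁
  have hfin := lvg_arith (T₁ := wlg X (fun n => En th lam 1 (2 ^ (m - m / 500)) n))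
    (T₂ := wlg X (fun n => En th lam 1 (2 ^ (A * m - m / 100)) n)) hμ1 hη hη1 hκ
    (by positivity : 0 < C₂ + C₃) hC hE0 hH hbA hbF hu hV hmain
  have e : wbA lam X m + wbF lam X m (th / 2) δ c₁ + wgm th lam X p₀ m +
        wgmq th lam X p₀ m + (1 / 2) ^ (m / 2000) * X.L + A * m + 1 =
      wbA lam X m + wbF lam X m (th / 2) δ c₁ +
        (wgm th lam X p₀ m + wgmq th lam X p₀ m) + E := by
    rw [hE, hY]; ring
  rw [e]
  exact hfin

end Pool.Agent.H3.GW.C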