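import Pool.Agent.H72.GS2.CHG
import Pool.Agent.H3.GW.Defs
import Pool.Agent.H3.GW.LVG

/-!
# Theorem (G) on windows, section 2: the changes of the energy of one level (helper32)
-/

set_option autoImplicit false

open Finset Pool.Agent.H6.N4D Pool.Agent.H93.EB Pool.Agent.H93.GS
open Pool.Agent.H78.N4.LEV

namespace Pool.Agent.H3.GW.C

open Pool.Agent.H72.GS2 Pool.Agent.H28.NW Pool.Agent.H3.GW

/-- the inequality of Cauchy and Schwarz -/
lemma wlg_sqrt (X : Wn) (f : ℕ → ℝ) (hf : ∀ n, 0 ≤ f n) :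
    wlg X (fun n => Real.sqrt (f n)) ≤ Real.sqrt (A.whs X) * Real.sqrt (wlg X f) := by
  unfold A.whs wlg
  have h1 := Real.sum_sqrt_mul_sqrt_le (s := Icc X.lo X.hi) (f := fun n : ℕ => (1 : ℝ) / n)
    (g := fun n : ℕ => f n / n) (fun n => by positivity)
    (fun n => div_nonneg (hf n) (Nat.cast_nonneg _))
  refine le_trans (le_of_eq ?_) h1
  apply sum_congr rfl
  intro n _
  rw [← Real.sqrt_mul (by positivity)]
  have e : (1 : ℝ) / n * (f n / n) = f n / (n : ℝ) ^ 2 := by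
    rw [div_mul_div_comm, one_mul, sq]
  rw [e, Real.sqrt_div (hf n), Real.sqrt_sq (Nat.cast_nonneg _)]

/-- CHG with the constant three. -/
theorem pf_CH3 (hCHW : Pool.Agent.H6.GS2.T_CHW) (hBAB : W_BAB)
    (hQ : Pool.Agent.H70.EN.T_QMS) : W_CH3 := by
  intro th hth hth1
  obtain ⟨κ, c₁, δ, C, p₀, m₁, hκ, hc₁, hδ, hC, hp, H⟩ := hCHW th hth hth1
  obtain ⟨m₂, hm₂⟩ := hQ
  obtain ⟨m₃, hm₃⟩ := mu_le
  refine ⟨κ, c₁, δ, C * (9 + 291 / κ), p₀,
    max m₁ (max m₂ (max m₃ 400)), hκ, hc₁, hδ, by positivity, hp.trans (le_max_left _ _), ?_⟩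
  intro X m lam hX hm hlam
  have hl := lam_abs hlam
  have hm1 : m₁ ≤ m := (le_max_left _ _).trans hm
  have hm2 : m₂ ≤ m := (le_max_left _ _).trans ((le_max_right _ _).trans hm)
  have hm3 : m₃ ≤ m := (le_max_left _ _).trans ((le_max_right _ _).trans
    ((le_max_right _ _).trans hm))
  have hm4 : 400 ≤ m := (le_max_right _ _).trans ((le_max_right _ _).trans
    ((le_max_right _ _).trans hm))
  obtain ⟨hμ1, hμ3⟩ := hm₂ m hm2
  have hμ32 := hm₃ m hm3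
  have hlogX : 1 ≤ X.L := hX
  obtain ⟨Y, hY⟩ : ∃ Y : ℝ, Y = (1 / 2) ^ (m / 2000) * X.L := ⟨_, rfl⟩
  have hY0 : 0 ≤ Y := by rw [hY]; positivity
  obtain ⟨E, hE⟩ : ∃ E : ℝ, E = Y + 3 * (m + 1) := ⟨_, rfl⟩
  have hm0 : (0 : ℝ) ≤ m := Nat.cast_nonneg _
  have hE0 : 0 ≤ E := by rw [hE]; positivity
  have hHm : hs (2 ^ m) ≤ E := by
    have h1 := hs_two_pow m
    rw [hE]
    linarith
  have hHX : (1 / 2) ^ (m / 1000) * A.whs X ≤ E := by
    have h1 := A.whs_le X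
    have h2 : (1 / 2 : ℝ) ^ (m / 1000) ≤ (1 / 2) ^ (m / 2000) :=
      pow_le_pow_of_le_one (by norm_num) (by norm_num) (by omega)
    have h3 : (1 / 2 : ℝ) ^ (m / 2000) ≤ 1 := pow_le_one₀ (by norm_num) (by norm_num)
    have h4 : 0 ≤ (1 / 2 : ℝ) ^ (m / 1000) := by positivity
    calc (1 / 2) ^ (m / 1000) * A.whs X ≤ (1 / 2) ^ (m / 1000) * (1 + X.L) :=
          mul_le_mul_of_nonneg_left h1 h4
      _ ≤ (1 / 2) ^ (m / 2000) * (1 + X.L) :=
          mul_le_mul_of_nonneg_right h2 (by linarith)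
      _ ≤ E := by rw [mul_add, mul_one, ← hY, hE]; linarith
  -- the average
  have h1 : wch th lam X m ≤ wlg X (fun n => C * (√(Pool.Agent.H6.GS2.SA lam m n) +
      Pool.Agent.H6.GS2.SA lam m n + bb th κ c₁ δ p₀ lam m n + (1 / 2) ^ (m / 1000))) :=
    wlg_mono fun n _ => H m n lam hm1 hl
  rw [wlg_mul, wlg_add, wlg_add, wlg_add] at h1
  have h5 : wlg X (fun _ => (1 / 2 : ℝ) ^ (m / 1000)) = (1 / 2) ^ (m / 1000) * A.whs X := by
    unfold A.whs wlg
    rw [mul_sum]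
    exact sum_congr rfl fun n _ => by ring
  rw [h5] at h1
  have hbA := (hBAB lam X m hl).1
  have hbF := bF_nonneg lam X m (th / 2) δ c₁
  have hSA := wlg_SA hBAB lam hl X m hm4 hμ3
  obtain ⟨s, hsd⟩ : ∃ s : ℝ, s = Real.sqrt (wbA lam X m * X.L) :=
    ⟨_, rfl⟩
  have hs0 : 0 ≤ s := by rw [hsd]; exact Real.sqrt_nonneg _
  have h6 : wlg X (fun n => √(Pool.Agent.H6.GS2.SA lam m n)) ≤ 2 * s := by
    have h7 := wlg_sqrt X (fun n => Pool.Agent.H6.GS2.SA lam m n)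
      (fun n => (SA_bounds lam hl m n hm4 hμ3).1)
    refine h7.trans ?_
    have h8 : A.whs X ≤ 2 * X.L := by
      have := A.whs_le X
      linarith
    calc Real.sqrt (A.whs X) * Real.sqrt (wlg X (fun n => Pool.Agent.H6.GS2.SA lam m n))
        ≤ Real.sqrt (2 * X.L) * Real.sqrt (2 * wbA lam X m) :=
          mul_le_mul (Real.sqrt_le_sqrt h8) (Real.sqrt_le_sqrt hSA) (Real.sqrt_nonneg _)
            (Real.sqrt_nonneg _)
      _ = Real.sqrt (2 ^ 2 * (wbA lam X m * X.L)) := by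
          rw [← Real.sqrt_mul (by positivity)]
          congr 1; ring
      _ = 2 * s := by
          rw [Real.sqrt_mul (by norm_num), Real.sqrt_sq (by norm_num), ← hsd]
  have h2 := wlg_bb th κ c₁ δ p₀ lam X m hth hκ hl hm4 (hp.trans hm1) hμ3
  have h3 : 0 ≤ wgmq th lam X p₀ m + 18 * hs (2 ^ m) := gmq_low th p₀ lam X m hth hl hm4
    (hp.trans hm1) hμ3
  have h4 : 1 / κ * (wgmq th lam X p₀ m + 18 * hs (2 ^ m)) ≤
      3 / κ * (wgmq th lam X p₀ m + 18 * hs (2 ^ m)) := by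
    apply mul_le_mul_of_nonneg_right _ h3
    gcongr
    norm_num
  have h7 : 3 / κ * (wgm th lam X p₀ m + 6 * hs (2 ^ m)) +
      3 / κ * (wgmq th lam X p₀ m + 18 * hs (2 ^ m)) ≤
      3 / κ * (wgm th lam X p₀ m + wgmq th lam X p₀ m + 24 * E) := by
    rw [← mul_add]
    apply mul_le_mul_of_nonneg_left _ (by positivity)
    linarith
  have hu : -(3 / 4 * E) ≤ wgm th lam X p₀ m + wgmq th lam X p₀ m := by
    have h1 := gm_low th p₀ lam X m hth hl hm4 (hp.trans hm1) hμ32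
    have h2 := hs_two_pow m
    have h3 : (400 : ℝ) ≤ m := by exact_mod_cast hm4
    rw [hE]
    linarith
  -- the arithmetic
  rw [← hsd]
  obtain ⟨u, hud⟩ : ∃ u : ℝ, u = wgm th lam X p₀ m + wgmq th lam X p₀ m := ⟨_, rfl⟩
  rw [← hud] at h7 hu
  obtain ⟨W, hW⟩ : ∃ W : ℝ, W = s + wbA lam X m +
    wbF lam X m (th / 2) δ c₁ + u + E := ⟨_, rfl⟩
  have hEW : E ≤ 4 * W := by rw [hW]; linarith
  have hW0 : 0 ≤ W := by linarith
  have hu1 : u ≤ W := by rw [hW]; linarith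
  have hs1 : s ≤ W := by rw [hW]; linarith
  have hA1 : wbA lam X m ≤ W := by rw [hW]; linarith
  have hF1 : wbF lam X m (th / 2) δ c₁ ≤ W := by rw [hW]; linarith
  have h8 : 3 / κ * (u + 24 * E) ≤ 291 / κ * W := by
    have h9 : 291 / κ * W = 3 / κ * (97 * W) := by ring
    rw [h9]
    apply mul_le_mul_of_nonneg_left _ (by positivity)
    linarith
  have h9 : wlg X (fun n => √(Pool.Agent.H6.GS2.SA lam m n)) +
      wlg X (fun n => Pool.Agent.H6.GS2.SA lam m n) + wlg X (fun n => bb th κ c₁ δ p₀ lam m n) +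
      (1 / 2) ^ (m / 1000) * A.whs X ≤ (9 + 291 / κ) * W := by
    rw [add_mul]
    linarith
  have h10 := h1.trans (mul_le_mul_of_nonneg_left h9 hC.le)
  have e : s + wbA lam X m + wbF lam X m (th / 2) δ c₁ + wgm th lam X p₀ m +
      wgmq th lam X p₀ m + (1 / 2) ^ (m / 2000) * X.L + 3 * ((m : ℝ) + 1) = W := by
    rw [hW, hud, hE, hY]; ring
  rw [e]
  linarith

end Pool.Agent.H3.GW.C
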