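import Pool.Agent.H81.GS.Chain
import Pool.Agent.H28.NW.BAB
import Pool.Agent.H3.GW.Defs
import Pool.Agent.H3.GW.BFL

/-!
# Sums over sparse sequences of levels, above the powers of `log log X`
-/

set_option autoImplicit false

open Finset Pool.Agent.H93 Pool.Agent.H6.N4D Pool.Agent.H93.GS Pool.Agent.H72.EN
open Pool.Agent.H72.GS2 (wit)

namespace Pool.Agent.H3.GW.D

open Pool.Agent.H81.GS (log3 ind_le_one' Lio_abs)
open Pool.Agent.H28.NW Pool.Agent.H3.GW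
open Pool.Agent.H3.GW.C (bF_le)

lemma k_le {Y k : ℝ} (hY1 : 1 ≤ Y) (hkX : k ≤ 2 * Y ^ (191 / 200 : ℝ)) : k ≤ 2 * Y := by
  refine hkX.trans ?_
  have : Y ^ (191 / 200 : ℝ) ≤ Y ^ (1 : ℝ) :=
    Real.rpow_le_rpow_of_exponent_le hY1 (by norm_num)
  rw [Real.rpow_one] at this
  linarith

/-- the number of the levels -/
lemma K_le (hKCH : T_KCH) {B₀ B s k₀ k K : ℕ} {c : ℕ → ℕ} {Y : ℝ} (hB₀ : 1 ≤ B₀) (hBB : B₀ ≤ B)
    (hB2 : 2 ≤ B) (hk0 : 1 ≤ k₀) (hk1 : 1 ≤ k) (hY1 : 1 ≤ Y) (hs : 5 * B ≤ s)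
    (hkX : (k : ℝ) ≤ 2 * Y ^ (191 / 200 : ℝ)) (hll : Real.log Y ≤ 2 ^ (s / (4000 * B)))
    (hc : Chn B k₀ (2 * k) K c) : K ≤ 2 ^ (s / B₀) := by
  have hK := chn_le hKCH hB2 hk0 hk1 hc
  have h1 := k_le hY1 hkX
  have hk0r : (0 : ℝ) ≤ k := Nat.cast_nonneg _
  have hY : 0 < Y := by linarith
  have h2 : Real.log ((k : ℝ) + 1) ≤ Real.log 3 + Real.log Y := by
    rw [← Real.log_mul (by norm_num) hY.ne']
    exact Real.log_le_log (by linarith) (by linarith)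
  have h3 := log3
  have h4 : (1 : ℝ) ≤ 2 ^ (s / (4000 * B)) := one_le_pow₀ (by norm_num)
  have h5 : (K : ℝ) ≤ 2 ^ (s / (4000 * B) + 4) := by
    rw [pow_add]
    norm_num
    linarith
  have h6 : s / (4000 * B) + 4 ≤ s / B₀ := by
    have h7 : s / B ≤ s / B₀ := Nat.div_le_div_left hBB (by omega)
    have h8 : s / (4000 * B) = s / B / 4000 := by
      rw [Nat.div_div_eq_div_mul, mul_comm]
    have h9 : 5 ≤ s / B := by
      rw [Nat.le_div_iff_mul_le (by omega)]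
      omega
    omega
  have h7 : (2 : ℝ) ^ (s / (4000 * B) + 4) ≤ 2 ^ (s / B₀) :=
    pow_le_pow_right₀ (by norm_num) h6
  exact_mod_cast h5.trans h7

/-- the inequality of Bessel for many levels with given constants -/
def BesC (B : ℕ) (C : ℝ) : Prop := ∀ (R : ℕ) (ε : ℝ), 0 < ε → ∃ s₀ : ℕ,
  ∀ (s : ℕ) (X : Wn) (K k₁ : ℕ) (lam : ℕ → ℝ) (e : ℝ) (m : ℕ → ℕ),
    s₀ ≤ s → 1 ≤ X.L → (∀ n, |lam n| ≤ 1) → WBase lam R (2 ^ s) e X → K ≤ 2 ^ (s / B) →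
    B * s ≤ m 0 → (∀ i, i + 1 < K → B * m i ≤ m (i + 1)) → (∀ i < K, m i ≤ k₁) →
    (∀ (α : ℕ → ℕ → ℝ) (g : ℕ → ℕ → ℕ → ℕ → ℂ),
      (∀ i < K, ∀ n, ∀ q ∈ EB.QQ (m i), EB.BV (2 ^ m i) n (g i n q)) →
      wbesSum lam X K m (fun i n _ => α i n) g ≤
        (C * e + (1 / 2) ^ (s / B)) * X.L + C * K * (k₁ + 1)) ∧
    (∀ β : ℕ → ℕ → ℕ → ℝ, ∃ α : ℕ → ℕ → ℕ → ℝ,
      (∀ i < K, ∀ n, ∀ q ∈ EB.QQ (m i), ∃ b : ℤ,
        nd (α i n q - β i n q - (b : ℝ) / q) ≤ ε / 2 ^ m i) ∧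
      wbesSum lam X K m α (fun _ _ _ _ => 1) ≤
        (C * e + (1 / 2) ^ (s / B)) * X.L + C * K * (k₁ + 1))

/-- the failures and the tests -/
lemma bF_le_bv {lam : ℕ → ℝ} {X : Wn} {m : ℕ} {th' δ c : ℝ} (hc : 0 < c) (α : ℕ → ℕ → ℝ)
    (hα : ∀ n, ∀ q ∈ EB.QQ m, ∃ b : ℤ,
      nd (α n q - wit lam m th' δ c n q - (b : ℝ) / q) ≤ δ / 2 ^ m) :
    wbF lam X m th' δ c ≤ 1 / c ^ 2 * wbv lam X m α (fun _ _ _ => 1) := by
  refine (bF_le hc α hα).trans (mul_le_mul_of_nonneg_left ?_ (by positivity))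
  unfold wbv wlg
  refine sum_le_sum fun n _ => div_le_div_of_nonneg_right ?_ (Nat.cast_nonneg _)
  refine sum_le_sum fun q _ => mul_le_mul_of_nonneg_left ?_ (by positivity)
  exact mul_le_of_le_one_left (sq_nonneg _) (ind_le_one' _)

/-- the sums over sparse sequences are small -/
lemma chain2 (hKCH : T_KCH) (hLIM : W_LIM) {B₀ : ℕ} {C₀ : ℝ} (hB₀ : 1 ≤ B₀) (hC₀ : 0 < C₀)
    (hbes : BesC B₀ C₀) (B : ℕ) (hBB : B₀ ≤ B) (hB2 : 2 ≤ B) (th' δ c₁ ε₁ : ℝ) (hδ : 0 < δ)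
    (hc₁ : 0 < c₁) (hε₁ : 0 < ε₁) : ∃ e : ℝ, 0 < e ∧ ∀ R : ℕ, ∃ (s₀ : ℕ) (X₀ : ℝ), 3 ≤ X₀ ∧
      ∀ (s : ℕ) (X : Wn) (lam : ℕ → ℝ), s₀ ≤ s → X₀ ≤ X.L → Lio lam →
        Real.log X.T ≤ 2 ^ (s / (4000 * B)) → WBase lam R (2 ^ s) e X →
        ∀ k₀ k : ℕ, 4000 * B * s ≤ k₀ → k₀ ≤ k → (k : ℝ) ≤ 2 * X.T ^ (191 / 200 : ℝ) →
        ∀ (K : ℕ) (c : ℕ → ℕ), Chn B k₀ (2 * k) K c →
          ∑ i ∈ range K, (wbA lam X (c i) + wbF lam X (c i) th' δ c₁) ≤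
            ε₁ * X.L := by
  obtain ⟨G₁, hG₁d⟩ : ∃ G₁ : ℝ, G₁ = 1 + 1 / c₁ ^ 2 := ⟨_, rfl⟩
  have hG₁ : 0 < G₁ := by rw [hG₁d]; positivity
  obtain ⟨e, hed⟩ : ∃ e : ℝ, e = ε₁ / (4 * G₁ * C₀) := ⟨_, rfl⟩
  have he : 0 < e := by rw [hed]; positivity
  refine ⟨e, he, ?_⟩
  intro R
  obtain ⟨s₁, hs₁⟩ := hbes R δ hδ
  obtain ⟨x, hx1, hx2⟩ : ∃ x : ℕ, 1 ≤ x ∧ 4 * G₁ / ε₁ ≤ x :=
    ⟨⌈4 * G₁ / ε₁⌉₊ + 1, by omega, by
      have := Nat.le_ceil (4 * G₁ / ε₁)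
      push_cast
      linarith⟩
  have hGG : 0 < 4 * (8 * G₁ * C₀ + 4) := by positivity
  obtain ⟨X₀, hX₀, hlim⟩ := hLIM (ε₁ / (4 * (8 * G₁ * C₀ + 4))) (by positivity)
  refine ⟨s₁ + B * x + 5 * B + 1, X₀, hX₀, ?_⟩
  intro s X lam hs hX hlam hll hbase k₀ k hk₀ hk hkX K c hc
  have hX3 : 1 ≤ X.L := by linarith
  have hT1 : 1 ≤ X.T := hX3.trans X.L_le_T
  have hΦ := hlim X k hX hkX
  have hY1 := hX3
  obtain ⟨Y, hYd⟩ : ∃ Y : ℝ, Y = X.L := ⟨_, rfl⟩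
  rw [← hYd] at hΦ hY1 ⊢
  have hY : 0 < Y := by linarith
  have hl1 := Lio_abs hlam
  have hBs : s ≤ B * s := Nat.le_mul_of_pos_left _ (by omega)
  have hk₀s : 4000 * s ≤ k₀ := by
    have h1 : 4000 * B * s = 4000 * (B * s) := by ring
    rw [h1] at hk₀
    omega
  have hs1 : 1 ≤ s := by omega
  have hk1 : 1 ≤ k := by omega
  obtain ⟨Φ, hΦd⟩ : ∃ Φ : ℝ, Φ = ((k : ℝ) + 1) * (1 + Real.log (k + 1)) := ⟨_, rfl⟩
  rw [← hΦd] at hΦ
  have hk0r : (0 : ℝ) ≤ k := Nat.cast_nonneg _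
  have hlog0 : 0 ≤ Real.log ((k : ℝ) + 1) := Real.log_nonneg (by linarith)
  have hΦl : 1 + Real.log ((k : ℝ) + 1) ≤ Φ := by
    rw [hΦd]
    nlinarith
  have hΦ0 : 0 < Φ := by linarith
  rcases Nat.eq_zero_or_pos K with h0 | h0
  · subst h0
    rw [sum_range_zero]
    positivity
  · have hK := chn_le hKCH hB2 (by omega) hk1 hc
    have hK4 : (K : ℝ) ≤ 4 * Φ := by linarith
    have hK2 := K_le hKCH hB₀ hBB hB2 (by omega) hk1 hT1 (by omega) hkX hll hc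
    choose αA gA hgA hA using fun i => (Pool.Agent.H28.NW.EL.pf_BAB lam X (c i) hl1).2.2.2.2.1
    obtain ⟨hbA, hbB⟩ := hs₁ s X K (2 * k) lam e c (by omega) hX3 hl1 hbase hK2 (by
        have h2 := (hc.1 0 h0).1
        have h3 : B₀ * s ≤ B * s := Nat.mul_le_mul_right _ hBB
        have h4 : 4000 * B * s = 4000 * (B * s) := by ring
        rw [h4] at hk₀
        omega) (fun i hi => by
        have h2 := hc.2 i hi
        have h3 : B₀ * c i ≤ B * c i := Nat.mul_le_mul_right _ hBB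
        omega) (fun i hi => (hc.1 i hi).2)
    have h1 := hbA αA gA (fun i _ n q hq => hgA i n q hq)
    obtain ⟨αB, hαB, h2⟩ := hbB (fun i => wit lam (c i) th' δ c₁)
    rw [← hYd] at h1 h2
    obtain ⟨T, hTd⟩ : ∃ T : ℝ, T = (C₀ * e + (1 / 2) ^ (s / B₀)) * Y +
      C₀ * K * (((2 * k : ℕ) : ℝ) + 1) := ⟨_, rfl⟩
    rw [← hTd] at h1 h2
    have h3 : ∑ i ∈ range K, (wbA lam X (c i) + wbF lam X (c i) th' δ c₁) ≤
        ∑ i ∈ range K, (wbv lam X (c i) (fun n _ => αA i n) (gA i) + 1) +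
        ∑ i ∈ range K, 1 / c₁ ^ 2 * wbv lam X (c i) (αB i) (fun _ _ _ => 1) := by
      rw [← sum_add_distrib]
      refine sum_le_sum fun i hi => ?_
      rw [mem_range] at hi
      exact add_le_add (hA i) (bF_le_bv hc₁ (αB i) (hαB i hi))
    have h3a : ∑ i ∈ range K, (wbv lam X (c i) (fun n _ => αA i n) (gA i) + 1) =
        ∑ i ∈ range K, wbv lam X (c i) (fun n _ => αA i n) (gA i) + K := by
      rw [sum_add_distrib, sum_const, card_range, nsmul_eq_mul, mul_one]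
    rw [h3a, ← mul_sum] at h3
    have h4 : ∑ i ∈ range K, wbv lam X (c i) (fun n _ => αA i n) (gA i) ≤ T := h1
    have h4' : ∑ i ∈ range K, wbv lam X (c i) (αB i) (fun _ _ _ => 1) ≤ T := h2
    have h5 := mul_le_mul_of_nonneg_left h4' (by positivity : 0 ≤ 1 / c₁ ^ 2)
    have h6 : G₁ * T = T + 1 / c₁ ^ 2 * T := by
      rw [hG₁d]
      ring
    have h7 : ∑ i ∈ range K, (wbA lam X (c i) + wbF lam X (c i) th' δ c₁) ≤ G₁ * T + K := by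
      rw [h6]
      linarith
    refine h7.trans ?_
    have h8 : (K : ℝ) * ((2 * k : ℕ) + 1) ≤ 8 * Φ := by
      rw [hΦd]
      push_cast
      have h3 : (K : ℝ) * (2 * k + 1) ≤ 4 * (1 + Real.log (k + 1)) * (2 * (k + 1)) :=
        mul_le_mul hK (by linarith) (by positivity) (by positivity)
      linarith
    have t1 : G₁ * (C₀ * e) * Y = ε₁ / 4 * Y := by
      rw [hed]
      field_simp
    have t2 : G₁ * (1 / 2) ^ (s / B₀) ≤ ε₁ / 4 := by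
      have hx0 : (0 : ℝ) < x := by exact_mod_cast hx1
      have h1 : ((1 : ℝ) / 2) ^ (s / B₀) ≤ 1 / x := by
        apply half_pow_le hx0
        have : x ≤ s / B₀ := by
          rw [Nat.le_div_iff_mul_le (by omega)]
          have : x * B₀ ≤ B * x := by
            rw [mul_comm]; exact Nat.mul_le_mul_right _ hBB
          omega
        exact_mod_cast this
      have h2 := mul_le_mul_of_nonneg_left h1 hG₁.le
      refine h2.trans ?_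
      rw [mul_one_div, div_le_iff₀ hx0]
      rw [div_le_iff₀ hε₁] at hx2
      linarith
    have t3 : (8 * G₁ * C₀ + 4) * Φ ≤ ε₁ / 4 * Y := by
      have h1 := mul_le_mul_of_nonneg_left hΦ (by positivity : 0 ≤ 8 * G₁ * C₀ + 4)
      refine h1.trans (le_of_eq ?_)
      field_simp
    have t4 : G₁ * (C₀ * K * (((2 * k : ℕ) : ℝ) + 1)) ≤ 8 * G₁ * C₀ * Φ := by
      have h1 := mul_le_mul_of_nonneg_left h8 (by positivity : 0 ≤ G₁ * C₀)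
      linarith
    have t5 := mul_le_mul_of_nonneg_right t2 hY.le
    have t6 : G₁ * T = G₁ * (C₀ * e) * Y + G₁ * (1 / 2) ^ (s / B₀) * Y +
        G₁ * (C₀ * K * (((2 * k : ℕ) : ℝ) + 1)) := by
      rw [hTd]
      ring
    have t7 : 0 ≤ ε₁ * Y := by positivity
    rw [t6]
    linarith

end Pool.Agent.H3.GW.D
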