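import Pool.Agent.H87.GS2.DLG
import Pool.Agent.H3.GW.Defs
import Pool.Agent.H3.GW.Bas

/-!
# Theorem (G), section 2, on logarithmic windows: dilation (row DLG)
-/

set_option autoImplicit false

namespace Pool.Agent.H3.GW.F

open Pool.Agent.H87.GS2.D Pool.Agent.H28.NW Pool.Agent.H3.GW
open Finset Pool.Agent.H6.N4D Pool.Agent.H93.GS Pool.Agent.H84.GS

/-! ## logarithmic sums -/

lemma wlg_dil (X : Wn) (q : ℕ) (f : ℕ → ℝ) (B : ℝ) (hq : 1 ≤ q) (h0 : ∀ n, 0 ≤ f n)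
    (h1 : ∀ n, f n ≤ B) :
    |wlg X (fun n => f (n / q)) - wlg X f| ≤ 2 * (B * (3 + Real.log q)) := by
  rw [wlg_eq, wlg_eq]
  have e1 := abs_le.1 (lg_dil X.hi q f B hq h0 h1)
  have e2 := abs_le.1 (lg_dil (X.lo - 1) q f B hq h0 h1)
  rw [abs_le]
  constructor <;> linarith [e1.1, e1.2, e2.1, e2.2]

theorem pf_DLG : W_DLG := by
  intro th hth _
  set B : ℝ := 2 * (2 * (1 / th) + (1 / th) ^ 2) with hB
  have hB0 : 0 ≤ B := by positivity
  refine ⟨12 + 2 * B, by positivity, ?_⟩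
  intro X k q lam hX hl hq hqk
  have hq1 : 1 ≤ q := hq.one_lt.le
  have hlam : ∀ m, |lam m| ≤ 1 := by
    intro m
    rcases hl.pm m with h | h <;> rw [h] <;> simp
  have hqH : q ≤ 2 ^ k := by
    refine le_trans ?_ hqk
    nlinarith
  have hN1 : 1 ≤ 2 ^ k / q := (Nat.one_le_div_iff (by omega)).2 hqH
  have hlq : Real.log q ≤ k := by
    have h1 : Real.log q ≤ Real.log ((2 : ℝ) ^ k) := by
      apply Real.log_le_log (by exact_mod_cast hq1)
      exact_mod_cast hqH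
    rw [Real.log_pow] at h1
    have h2 := Real.log_two_lt_d9
    have h3 : (k : ℝ) * Real.log 2 ≤ k * 1 :=
      mul_le_mul_of_nonneg_left (by linarith) (Nat.cast_nonneg _)
    linarith
  have hlq0 : 0 ≤ Real.log q := Real.log_natCast_nonneg q
  set f : ℕ → ℝ := fun n => En th lam 1 (2 ^ k / q) n with hf
  have hd := wlg_dil X q f 2 hq1 (fun n => En_nonneg th lam 1 _ n hth le_rfl hN1 hlam)
    (fun n => En_le th lam 1 _ n hth le_rfl hN1 hlam)
  have hpt : ∀ n, |En th lam q (2 ^ k) n - f (n / q)| ≤ B * ((q : ℝ) / 2 ^ k) := by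
    intro n
    have := En_dil th lam q (2 ^ k) n hth hl hq hqH
    push_cast at this
    exact this
  have hc0 : 0 ≤ B * ((q : ℝ) / 2 ^ k) := by positivity
  have hdiff : |wlg X (fun n => En th lam q (2 ^ k) n) - wlg X (fun n => f (n / q))| ≤
      B * ((q : ℝ) / 2 ^ k) * (2 * X.L) := by
    rw [← Pool.Agent.H28.NW.wlg_sub]
    have e1 := abs_wlg_le X (fun n => En th lam q (2 ^ k) n - f (n / q)) hpt
    exact e1.trans (mul_le_mul_of_nonneg_left (by linarith) hc0)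
  have htri : |wlg X (fun n => En th lam q (2 ^ k) n) -
      wlg X (fun n => En th lam 1 (2 ^ k / q) n)| ≤
      B * ((q : ℝ) / 2 ^ k) * (2 * X.L) + 2 * (2 * (3 + Real.log q)) := by
    calc _ = |(wlg X (fun n => En th lam q (2 ^ k) n) - wlg X (fun n => f (n / q))) +
          (wlg X (fun n => f (n / q)) - wlg X f)| := by
            congr 1
            rw [hf]
            ring
      _ ≤ _ := (abs_add_le _ _).trans (add_le_add hdiff hd)
  refine htri.trans ?_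
  have hk0 : (0 : ℝ) ≤ k := Nat.cast_nonneg _
  have hL0 : 0 ≤ X.L := X.L_nonneg
  have hqk0 : (0 : ℝ) ≤ (q : ℝ) / 2 ^ k * X.L := by positivity
  have h1 : 2 * (2 * (3 + Real.log q)) ≤ 12 * ((k : ℝ) + 1) := by linarith
  have h2 : B * ((q : ℝ) / 2 ^ k) * (2 * X.L) = 2 * B * ((q : ℝ) / 2 ^ k * X.L) := by
    ring
  have h3 : (12 + 2 * B) * ((q : ℝ) / 2 ^ k) * X.L =
      12 * ((q : ℝ) / 2 ^ k * X.L) + 2 * B * ((q : ℝ) / 2 ^ k * X.L) := by ring
  have h4 : (12 + 2 * B) * ((k : ℝ) + 1) = 12 * ((k : ℝ) + 1) + 2 * B * ((k : ℝ) + 1) := by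
    ring
  rw [h2, h3, h4]
  have h5 : 0 ≤ 2 * B * ((k : ℝ) + 1) := by positivity
  linarith

end Pool.Agent.H3.GW.F
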