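import Pool.Agent.H56.E.H5.GS3.E3
import Pool.Agent.H3.GW.Defs
import Pool.Agent.H3.GW.TargetsH

set_option autoImplicit false

namespace Pool.Agent.H3.GW.T4

open Pool.Agent.H56.E.H5.GS3 Pool.Agent.H28.NW Pool.Agent.H3.GW
open Pool.Agent.H5.GS3 Pool.Agent.H78.GX.H5.GS3

open Finset Pool.Agent.H6.N4D Pool.Agent.H78.GX.H6.N4D Pool.Agent.H93.EB Pool.Agent.H93.GS
open Pool.Agent.H56.G3 Pool.Agent.H56.E.H56.G3

theorem pf_E3 (hGap : ∃ (B : ℕ) (c X₁ : ℝ), Gap B c X₁)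
    (hBUN : Pool.Agent.H78.GX.H78.GS.T_BUN) (hSG : W_SGE) (hBN : T_BN) : W_E3r := by
  intro th c hth hth1 hc
  obtain ⟨B, cg, Xg, hG⟩ := hGap
  obtain ⟨K, ε, e₀, XB, hK, hε, he₀, hB⟩ := hBUN B cg Xg hG (r0 th) (c / 40) (by positivity)
  obtain ⟨κ, ε₁, hκ, hε₁, hN⟩ := hBN th c ε e₀ K hth hth1 hc hε he₀ hK
  obtain ⟨ε', r, hε', hS⟩ := hSG th c hth hth1 hc K κ ε₁ hK hκ hε₁
  obtain ⟨XN, hN⟩ := hN r
  obtain ⟨XS, hS⟩ := hS (max XB XN)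
  refine ⟨ε', 2 * K + 12, XS, hε', by omega, ?_⟩
  intro X u lam hX hlio hu1 hu2 hHm hdr
  by_contra hcon
  obtain ⟨S, hstr, hSX, hcnt, hen⟩ := hS X u lam hX hlio hu1 hu2
    (fun i hi => hHm i (by omega)) (not_lt.1 hcon) hdr
  obtain ⟨F, θ, φ, hbnd⟩ := hN S _ lam hstr ((le_max_right XB XN).trans hSX) hlio hcnt hen
  exact hB S F θ φ hstr.ok hstr.hK ((le_max_left XB XN).trans hSX) hstr.ln hbnd

end Pool.Agent.H3.GW.T4
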