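import Pool.Agent.H84.GS.MNG
import Pool.Agent.H3.GW.Defs
import Pool.Agent.H3.GW.Bas

/-!
# Theorem (G), MP_c59857_nt: the energy does not increase with the length
-/

set_option autoImplicit false

namespace Pool.Agent.H3.GW.A

open Pool.Agent.H84.GS Pool.Agent.H28.NW Pool.Agent.H3.GW
open Finset Pool.Agent.H6.N4D Pool.Agent.H93.GS

theorem wlg_sum_div (X : Wn) (P : ℕ) (f : ℕ → ℕ → ℝ) :
    wlg X (fun n => (∑ j ∈ range P, f j n) / P) = (∑ j ∈ range P, wlg X (f j)) / P := by
  unfold Pool.Agent.H28.NW.wlg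
  rw [Finset.sum_comm, Finset.sum_div]
  refine Finset.sum_congr rfl fun n _ => ?_
  rw [← Finset.sum_div]
  ring

/-- The energy at `P` times the length is at most the energy, up to a harmonic sum. -/
theorem wlg_En_mul (X : Wn) (P L q : ℕ) (th : ℝ) (lam : ℕ → ℝ) (hth : 0 < th) (hl : ∀ n, |lam n| ≤ 1)
    (hP : 1 ≤ P) (hq : 1 ≤ q) (hqL : q ≤ L) (H : ℝ) (hH : ∀ j < P, hs (j * L) ≤ H) :
    wlg X (fun n => En th lam q (P * L) n) ≤ wlg X (fun n => En th lam q L n) + 6 * H := by
  have hP0 : (0 : ℝ) < P := by exact_mod_cast hP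
  have h1 : wlg X (fun n => En th lam q (P * L) n) ≤
      wlg X (fun n => (∑ j ∈ range P, En th lam q L (n + j * L)) / P) :=
    wlg_mono X _ _ fun n => En_split th lam q L n P hth hq hqL hP hl
  rw [wlg_sum_div X P (fun j n => En th lam q L (n + j * L))] at h1
  have h2 : ∑ j ∈ range P, wlg X (fun n => En th lam q L (n + j * L)) ≤
      ∑ _j ∈ range P, (wlg X (fun n => En th lam q L n) + 6 * H) := by
    refine Finset.sum_le_sum fun j hj => ?_
    have h3 := wlg_shift X (j * L) (fun n => En th lam q L n) 2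
      (fun n => En_nonneg th lam q L n hth hq hqL hl) (fun n => En_le th lam q L n hth hq hqL hl)
    have h4 := hH j (mem_range.mp hj)
    linarith
  rw [Finset.sum_const, card_range, nsmul_eq_mul] at h2
  have h3 := div_le_div_of_nonneg_right h2 hP0.le
  rw [mul_div_cancel_left₀ _ hP0.ne'] at h3
  exact h1.trans h3

theorem pf_MNG : W_MNE := by
  intro th hth _
  refine ⟨6, by norm_num, ?_⟩
  intro X k l q lam _ hl hkl hq hqk
  have e : 2 ^ l = 2 ^ (l - k) * 2 ^ k := by
    rw [← pow_add]
    congr 1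
    omega
  have hkey := wlg_En_mul X (2 ^ (l - k)) (2 ^ k) q th lam hth hl Nat.one_le_two_pow hq hqk
    ((l : ℝ) + 1) (by
      intro j hj
      rcases Nat.eq_zero_or_pos (j * 2 ^ k) with h0 | h0
      · rw [h0]
        have : hs 0 = 0 := by simp [hs]
        rw [this]
        positivity
      · have h1 := hs_le (j * 2 ^ k) h0
        have h2 : j * 2 ^ k ≤ 2 ^ l := by
          rw [e]
          exact Nat.mul_le_mul_right _ hj.le
        have h3 : ((j * 2 ^ k : ℕ) : ℝ) ≤ (2 : ℝ) ^ l := by exact_mod_cast h2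
        have h4 : (0 : ℝ) < ((j * 2 ^ k : ℕ) : ℝ) := by exact_mod_cast h0
        have h5 := Real.log_le_log h4 h3
        rw [Real.log_pow] at h5
        have h6 : Real.log 2 ≤ 1 := by
          have := Real.log_two_lt_d9
          linarith
        have h7 : (l : ℝ) * Real.log 2 ≤ l * 1 := mul_le_mul_of_nonneg_left h6 (Nat.cast_nonneg _)
        linarith)
  rw [← e] at hkey
  exact hkey

end Pool.Agent.H3.GW.A
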