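import Pool.Agent.H3.GW.TargetsH
import Pool.Agent.H6.G0.Targets

/-!
# Theorem (H0) on short logarithmic windows (MP_c59857_nt): statements for restricted families
-/

set_option autoImplicit false

namespace Pool.Agent.H3.GW

open Finset Pool.Agent.H6.N4D Pool.Agent.H93 Pool.Agent.H93.GS Pool.Agent.H6.GS2 Pool.Agent.H6.G9
  Pool.Agent.H28.NW Pool.Agent.H6.G0

/-- LVR. The inequality of one level; the constant `C₀` is absolute. -/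
def W_LVR : Prop := ∃ C₀ : ℝ, 0 < C₀ ∧ ∀ th : ℝ, 0 < th → th ≤ 1 → ∃ (C : ℝ) (p₀ P m₁ : ℕ),
  0 < C ∧ 4 * p₀ ≤ m₁ ∧ ∀ (η : ℝ) (D : ℕ) (X : Wn) (m : ℕ) (lam : ℕ → ℝ), 0 < η → η ≤ 1 →
    2 ≤ D → 1 ≤ X.L → m₁ ≤ m → Lio lam →
    wlg X (fun n => En th lam 1 (2 ^ (m - m / 500)) n) -
        wlg X (fun n => En th lam 1 (2 ^ (D * m - m / 100)) n) ≤
      (1 + η) * (wlg X (fun n => En th lam 1 (2 ^ m) n) -
        wlg X (fun n => En th lam 1 (2 ^ (D * m)) n)) +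
      C₀ / η * wlg X (fun n => UBr lam P m n) +
      C / η * (wgm th lam X p₀ m + wgmq th lam X p₀ m + wgm th lam X p₀ (D * m) +
        (1 / 2) ^ (m / 2000) * X.L + 3 * (D * m + 1))

/-- BSR. The inequality of Bessel for the functional `UBr` below the logarithm; the constant `C₀`
is absolute, there is no condition on the number `K` of the levels. -/
def W_BSR : Prop := ∃ (B : ℕ) (C₀ : ℝ), 1 ≤ B ∧ 0 < C₀ ∧ ∀ (R P : ℕ) (ε : ℝ), 0 < ε →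
  ∃ s₀ : ℕ, ∀ s, s₀ ≤ s → ∃ X₀ : ℝ, ∀ (X : Wn) (K : ℕ) (lam : ℕ → ℝ) (e : ℝ) (m : ℕ → ℕ),
    X₀ ≤ X.L → Lio lam → 0 ≤ e → WBase lam R (2 ^ s) e X → B * s ≤ m 0 →
    (∀ i, i + 1 < K → B * m i ≤ m (i + 1)) → (∀ i < K, (4 : ℝ) ^ m i ≤ X.L) →
    ∑ i ∈ range K, wlg X (fun n => UBr lam P (m i) n) ≤ (C₀ * e + ε) * X.L

end Pool.Agent.H3.GW
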