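import Pool.Agent.H81.G0.EUW
import Pool.Agent.H3.GW.Defs
import Pool.Agent.H3.GW.EUC
import Pool.Agent.H3.GW.TargetsR

/-!
# Theorem (H0): the telescope for the energies with a general functional `W`
-/

set_option autoImplicit false

open Finset Pool.Agent.H93 Pool.Agent.H6.N4D Pool.Agent.H93.GS Pool.Agent.H72.EN
open Pool.Agent.H6.G9
open Pool.Agent.H81.GS (Lio_abs)

namespace Pool.Agent.H3.GW.V

open Pool.Agent.H28.NW Pool.Agent.H3.GW
open Pool.Agent.H3.GW.D (MonC te_bd te_mul te_mono)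
open Pool.Agent.H3.GW.P (GmU sum_r)

/-- the inequality of one level with given constants -/
def LevW (W : (ℕ → ℝ) → ℕ → ℕ → ℝ) (th C₀ CL : ℝ) (p₀ m₁ : ℕ) : Prop :=
  ∀ (η : ℝ) (D : ℕ) (X : Wn) (m : ℕ) (lam : ℕ → ℝ), 0 < η → η ≤ 1 → 2 ≤ D → 1 ≤ X.L → m₁ ≤ m → Lio lam →
    wlg X (fun n => En th lam 1 (2 ^ (m - m / 500)) n) -
        wlg X (fun n => En th lam 1 (2 ^ (D * m - m / 100)) n) ≤
      (1 + η) * (wlg X (fun n => En th lam 1 (2 ^ m) n) -
        wlg X (fun n => En th lam 1 (2 ^ (D * m)) n)) +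
      C₀ / η * wlg X (fun n => W lam m n) +
      CL / η * (wgm th lam X p₀ m + wgmq th lam X p₀ m + wgm th lam X p₀ (D * m) +
        (1 / 2) ^ (m / 2000) * X.L + 3 * (D * m + 1))

/-- the telescope for the energies -/
lemma coreW (hTEL : T_TEL) (hHAR : T_HAR) (hGSM : T_GSM) {W : (ℕ → ℝ) → ℕ → ℕ → ℝ}
    {th C₀ CL CM CG : ℝ} {p₀ m₁ : ℕ} (hth : 0 < th) (hC₀ : 0 < C₀) (hCL : 0 < CL) (hCM : 0 < CM)
    (hlev : LevW W th C₀ CL p₀ m₁) (hmn : MonC th CM)
    (lam : ℕ → ℝ) (X : Wn) (A B k₀ k : ℕ) (hgm : GmU th CG p₀ A) (η E : ℝ) (hX : 1 ≤ X.L)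
    (hlam : Lio lam) (hA : 2 ≤ A)
    (hB : 2 ≤ B) (h0 : 0 < η) (h1 : η ≤ 1) (hk1 : 3500 ≤ k₀) (hk2 : 100 * A ≤ k₀)
    (hk3 : m₁ ≤ k₀) (hk5 : 1000 * (p₀ + 1) ≤ k₀) (hk4 : k₀ ≤ k)
    (hU : ∀ m n, k₀ ≤ m → 0 ≤ W lam m n)
    (hE : ∀ (K : ℕ) (c : ℕ → ℕ), Chn B k₀ (2 * k) K c →
      ∑ i ∈ range K, wlg X (fun n => W lam (c i) n) ≤ E * X.L) :
    wte th lam X k₀ - wte th lam X k ≤ 48 / A + 1200 * η * A + 1200 * B * (C₀ / η * E) +
      600 * (CL / η * (CG / k₀ + 4000 * (1 / 2) ^ (k₀ / 2000) +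
        (CG * ((2 * k : ℕ) + 1) * (1 + Real.log (2 * k : ℕ)) + (2 * k : ℕ) * (3 * (A + 1))) /
          X.L)) +
      1800 * (CM * ((A * (2 * k) : ℕ) + 1) / X.L) *
        (2 + Real.log (2 * k : ℕ)) + CM * ((A * (2 * k) : ℕ) + 1) / X.L := by
  have hl1 := Lio_abs hlam
  have hY : 0 < X.L := by
    linarith
  set Y := X.L with hYd
  set D := CL / η with hDd
  have hD : 0 < D := div_pos hCL h0
  set D0 := C₀ / η with hD0d
  have hD0 : 0 < D0 := div_pos hC₀ h0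
  set me := 2 * k with hme
  set δ' : ℝ := CM * ((A * me : ℕ) + 1) / Y with hδd
  have hδ : 0 ≤ δ' := by positivity
  have hUL : ∀ m, k₀ ≤ m → 0 ≤ wlg X (fun n => W lam m n) := fun m hm =>
    GW.A.wlg_nonneg X _ fun n => hU m n hm
  -- monotonicity
  have hmono : ∀ i j, i ≤ j → j ≤ A * me → wte th lam X j ≤ wte th lam X i + δ' := by
    intro i j hij hj
    refine (te_mono hmn hl1 hX hij).trans ?_
    have hj' : (j : ℝ) ≤ (A * me : ℕ) := by exact_mod_cast hj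
    rw [hδd, ← hYd]
    gcongr
  have hme1 : 1 ≤ me := by omega
  have hkk : k ≤ me - me / 500 := by omega
  have hT := hTEL A B k₀ me η 0 (δ' / 2) (D0 / 2 * E) (fun k => wte th lam X k / 2) (fun _ => 0)
    (fun m => D0 / 2 * (max 0 (wlg X (fun n => W lam m n)) / Y))
    (fun m => D / 2 * ((wgm th lam X p₀ m + wgmq th lam X p₀ m + wgm th lam X p₀ (A * m)) / Y +
      (1 / 2) ^ (m / 2000) + 3 * (A * m + 1) / Y))
    hA hB hk1 hk2 (by omega) h0.le h1 le_rfl (by positivity)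
    (fun k => by
      obtain ⟨a1, a2⟩ := te_bd hth.le hl1 hX k
      exact ⟨by linarith, by linarith⟩)
    (fun k => ⟨le_rfl, by norm_num⟩) (fun i j hij hj => by
      have := hmono i j hij hj
      exact ⟨by linarith, by linarith⟩)
    (fun m => by
      have h2 := le_max_left 0 (wlg X (fun n => W lam m n))
      positivity)
    (fun K c hc => by
      have h2 := hE K c hc
      rw [← mul_sum]
      refine mul_le_mul_of_nonneg_left ?_ (by positivity)
      rw [← sum_div, div_le_iff₀ hY]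
      refine le_trans (le_of_eq ?_) h2
      refine sum_congr rfl fun i hi => ?_
      rw [mem_range] at hi
      exact max_eq_right (hUL _ (hc.1 i hi).1))
    (fun m hm => by
      rw [mem_Icc] at hm
      have b1 := hlev η A X m lam h0 h1 hA hX (by omega) hlam
      rw [← hYd, ← hDd, ← hD0d, ← te_mul hX, ← te_mul hX, ← te_mul hX, ← te_mul hX, ← hYd] at b1
      have b0 : max 0 (wlg X (fun n => W lam m n)) =
        wlg X (fun n => W lam m n) := max_eq_right (hUL m hm.1)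
      rw [b0]
      obtain ⟨g, hg⟩ : ∃ g : ℝ, g = wgm th lam X p₀ m := ⟨_, rfl⟩
      obtain ⟨g', hg'⟩ : ∃ g : ℝ, g = wgmq th lam X p₀ m := ⟨_, rfl⟩
      obtain ⟨g2, hg2⟩ : ∃ g : ℝ, g = wgm th lam X p₀ (A * m) := ⟨_, rfl⟩
      obtain ⟨x, hx⟩ : ∃ g : ℝ, g = wlg X (fun n => W lam m n) := ⟨_, rfl⟩
      obtain ⟨z, hz⟩ : ∃ z : ℝ, z = (1 / 2) ^ (m / 2000) := ⟨_, rfl⟩
      rw [← hg, ← hg', ← hg2, ← hx, ← hz] at b1
      rw [← hg, ← hg', ← hg2, ← hx, ← hz]
      have b5 := div_le_div_of_nonneg_right b1 (by positivity : 0 ≤ 2 * Y)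
      have e1 : (wte th lam X (m - m / 500) * Y - wte th lam X (A * m - m / 100) * Y) / (2 * Y) =
          wte th lam X (m - m / 500) / 2 - wte th lam X (A * m - m / 100) / 2 := by
        field_simp
      have e2 : ((1 + η) * (wte th lam X m * Y - wte th lam X (A * m) * Y) + D0 * x +
          D * (g + g' + g2 + z * Y + 3 * (A * m + 1))) / (2 * Y) =
          (1 + η) * (wte th lam X m / 2 - wte th lam X (A * m) / 2) +
          D0 / 2 * (x / Y) + 0 * (0 - 0) +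
          D / 2 * ((g + g' + g2) / Y + z + 3 * (A * m + 1) / Y) := by
        field_simp
        ring
      rw [e1, e2] at b5
      exact b5)
  have hr := sum_r (lam := lam) hGSM hgm hl1 X k₀ me (D / 2) hX (by omega) hk5 (by omega)
    (by positivity)
  rw [← hYd] at hr
  obtain ⟨hh0, hh1⟩ := hHAR k₀ me (by omega) hme1
  have hlast := hmono k (me - me / 500) hkk (by
    have : me ≤ A * me := Nat.le_mul_of_pos_left _ (by omega)
    omega)
  have hh2 : 1800 * δ' * (1 + ∑ m ∈ Icc k₀ me, 1 / (m : ℝ)) ≤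
      1800 * δ' * (2 + Real.log me) := by
    refine mul_le_mul_of_nonneg_left ?_ (by positivity)
    linarith
  have hT' : wte th lam X k₀ / 2 - wte th lam X (me - me / 500) / 2 ≤ 24 / A + 600 * η * A +
      1200 * B * (D0 / 2 * E) + 18000 * 0 / k₀ +
      600 * ∑ m ∈ Icc k₀ me, 1 / (m : ℝ) * (D / 2 *
        ((wgm th lam X p₀ m + wgmq th lam X p₀ m + wgm th lam X p₀ (A * m)) / Y +
          (1 / 2) ^ (m / 2000) + 3 * (A * m + 1) / Y)) +
      600 * (3 + 0) * (δ' / 2) * (1 + ∑ m ∈ Icc k₀ me, 1 / (m : ℝ)) := hT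
  have e3 : (18000 : ℝ) * 0 / k₀ = 0 := by simp
  rw [e3] at hT'
  have e4 : (48 : ℝ) / A = 2 * (24 / A) := by ring
  have e5 : 1200 * (B : ℝ) * (D0 * E) = 2 * (1200 * B * (D0 / 2 * E)) := by ring
  rw [e4, e5]
  linarith

end Pool.Agent.H3.GW.V
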