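import Pool.Agent.H93.G9.FNT
import Pool.Agent.H3.GW.TargetsH
import Pool.Agent.H3.GW.Sub
import Pool.Agent.H3.GW.Link

/-!
# Theorem (H) for all iterated logarithms on short windows, MP_c59857_nt: the assembly (row FNT)
-/

set_option autoImplicit false

namespace Pool.Agent.H3.GW.Q

open Pool.Agent.H93.G9 Pool.Agent.H28.NW Pool.Agent.H3.GW
open Finset Pool.Agent.H6.N4D Pool.Agent.H93 Pool.Agent.H93.GS Pool.Agent.H6.G9 Filter

/-- the upper end is large -/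
lemma L_le_hi (X : Wn) : X.L ≤ X.hi := by
  have h1 : X.L ≤ Real.log X.hi := X.L_le_T
  have h2 := Real.log_le_sub_one_of_pos X.hi_pos
  linarith

/-- an iterated logarithm is large for large numbers -/
lemma wev_it (T : ℕ) : ∃ X₀ : ℝ, ∀ X : Wn, X₀ ≤ X.L →
    Real.exp 1 ≤ Real.log^[T] (X.hi : ℝ) := by
  have h : Tendsto (fun X : ℕ => Real.log^[T] (X : ℝ)) atTop atTop :=
    (Tendsto.iterate Real.tendsto_log_atTop T).comp tendsto_natCast_atTop_atTop
  obtain ⟨X₀, hX₀⟩ := eventually_atTop.1 (h.eventually_ge_atTop (Real.exp 1))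
  refine ⟨X₀, fun X hX => hX₀ X.hi ?_⟩
  have := hX.trans (L_le_hi X)
  exact_mod_cast this

/-- the logarithmic length is large against the lengths of the windows -/
lemma big_of_H {a L : ℝ} {K H : ℕ} (hK : 1 ≤ K) (hH : ⌈Real.exp a⌉₊ ≤ H)
    (hHX : K * Real.log H ≤ L) : a ≤ L := by
  have h0 : Real.exp a ≤ H := (Nat.le_ceil _).trans (by exact_mod_cast hH)
  have h1 : (0 : ℝ) < H := (Real.exp_pos a).trans_le h0
  have h2 : a ≤ Real.log H := by
    rw [Real.le_log_iff_exp_le h1]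
    exact h0
  have h3 : Real.log H ≤ K * Real.log H := by
    have h4 : (1 : ℝ) ≤ K := by exact_mod_cast hK
    have h5 : 0 ≤ Real.log (H : ℝ) := Real.log_natCast_nonneg H
    nlinarith
  linarith

/-- larger errors -/
lemma wbase_mono (lam : ℕ → ℝ) (R S : ℕ) (X : Wn) (e e' : ℝ) (h : e ≤ e')
    (hB : WBase lam R S e X) : WBase lam R S e' X := by
  obtain ⟨b, β, hb, hB⟩ := hB
  exact ⟨b, β, hb, hB.trans (mul_le_mul_of_nonneg_right h X.L_nonneg)⟩

/-- the boundary terms are small -/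
lemma hs_le_cL {c L : ℝ} {K H : ℕ} (hc0 : 0 < c) (hK : K = 1 + ⌈2 / c⌉₊)
    (h5 : 2 / c ≤ L) (h2 : K * Real.log H ≤ L) : EB.hs H ≤ c * L := by
  have h1 : EB.hs H ≤ 1 + Real.log H := EB.hs_le H
  have h3 : 2 / c ≤ K := by
    calc 2 / c ≤ ⌈2 / c⌉₊ := Nat.le_ceil _
      _ ≤ K := by
        have : ⌈2 / c⌉₊ ≤ K := by omega
        exact_mod_cast this
  have hlH0 : 0 ≤ Real.log H := Real.log_natCast_nonneg H
  have h4 : 2 / c * Real.log H ≤ L :=
    (mul_le_mul_of_nonneg_right h3 hlH0).trans h2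
  rw [div_mul_eq_mul_div, div_le_iff₀ hc0] at h4
  rw [div_le_iff₀ hc0] at h5
  linarith

/-- FNT. -/
theorem pf_G9T (hQ : W_QT) : W_G9T := by
  intro T
  obtain ⟨B, hB, hQ⟩ := hQ
  obtain ⟨e, he0, he1, hQ⟩ := hQ (T + 2) (by omega)
  obtain ⟨c, hc⟩ : ∃ c : ℝ, c = e / 6 := ⟨_, rfl⟩
  have hc0 : 0 < c := by rw [hc]; positivity
  obtain ⟨K, hK⟩ : ∃ K : ℕ, K = 1 + ⌈2 / c⌉₊ := ⟨_, rfl⟩
  refine ⟨c, K, hc0, by omega, fun R => ?_⟩
  obtain ⟨th, hth⟩ : ∃ th : ℝ, th = e / (8 * ((R : ℝ) + 1)) := ⟨_, rfl⟩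
  have hR0 : (0 : ℝ) ≤ R := Nat.cast_nonneg _
  have hth0 : 0 < th := by rw [hth]; positivity
  have hth1 : th ≤ 1 := by
    rw [hth, div_le_one (by positivity)]
    linarith
  have hthR : 2 * th * R ≤ e / 4 := by
    rw [hth, show 2 * (e / (8 * ((R : ℝ) + 1))) * R = (e / 4) * (R / ((R : ℝ) + 1)) by
      field_simp; ring]
    have h2 : (R : ℝ) / ((R : ℝ) + 1) ≤ 1 := by
      rw [div_le_one (by positivity)]
      linarith
    calc e / 4 * ((R : ℝ) / ((R : ℝ) + 1)) ≤ e / 4 * 1 :=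
          mul_le_mul_of_nonneg_left h2 (by positivity)
      _ = e / 4 := mul_one _
  obtain ⟨s₀, hQ⟩ := hQ th hth0 hth1 R
  obtain ⟨X₁, hX₁⟩ := wev_it T
  obtain ⟨H₁, hH₁⟩ := ev_len B s₀
  refine ⟨H₁ + ⌈Real.exp X₁⌉₊ + ⌈Real.exp (2 / c)⌉₊ + ⌈Real.exp 1⌉₊ + 3,
    fun X H lam hH hHl hHX hL b β hb => ?_⟩
  by_contra hcon
  rw [not_lt] at hcon
  have hBase : WBase lam R H c X := ⟨b, β, hb, hcon⟩
  have hK1 : 1 ≤ K := by omega
  have hH1 : 1 ≤ H := by omega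
  have hX3 : 1 ≤ X.L := big_of_H hK1 (by omega) hHX
  have hH0' : (0 : ℝ) < H := by exact_mod_cast hH1
  have hl1 : ∀ n, |lam n| ≤ 1 := by
    intro n
    rcases hL.pm n with h | h <;> rw [h] <;> norm_num
  -- the boundary
  have hhs : EB.hs H ≤ c * X.L :=
    hs_le_cL hc0 hK (big_of_H hK1 (by omega) hHX) hHX
  -- the scale of the base
  obtain ⟨hlen, hpow⟩ := hH₁ H (by omega)
  have hy := hX₁ X (big_of_H hK1 (by omega) hHX)
  obtain ⟨n, hn⟩ : ∃ n : ℕ, n = ⌈Real.log (Real.log H)⌉₊ + s₀ := ⟨_, rfl⟩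
  rw [← hn] at hlen hpow
  have hit : Real.log^[T + 2] (X.hi : ℝ) ≤ Real.log (Real.log H) := by
    rw [Function.iterate_succ_apply', Function.iterate_succ_apply']
    have he : (0 : ℝ) < Real.exp 1 := Real.exp_pos 1
    have h1 : 1 ≤ Real.log (Real.log^[T] (X.hi : ℝ)) := by
      rw [Real.le_log_iff_exp_le (by linarith)]
      exact hy
    exact Real.log_le_log (by linarith) (Real.log_le_log (by linarith) hHl)
  have hns : Real.log^[T + 2] (X.hi : ℝ) ≤ n := by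
    calc Real.log^[T + 2] (X.hi : ℝ) ≤ Real.log (Real.log H) := hit
      _ ≤ ⌈Real.log (Real.log H)⌉₊ := Nat.le_ceil _
      _ ≤ n := by
        have : ⌈Real.log (Real.log H)⌉₊ ≤ n := by omega
        exact_mod_cast this
  have hlL : Real.log H ≤ X.L := by
    have h4 : (1 : ℝ) ≤ K := by exact_mod_cast hK1
    have h5 : 0 ≤ Real.log (H : ℝ) := Real.log_natCast_nonneg H
    nlinarith
  have hn4 : (n : ℝ) ^ 4 ≤ X.L := hpow.trans hlL
  have hnB : n ≤ B * n := Nat.le_mul_of_pos_left _ (by omega)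
  have hlen2 : 2 * 2 ^ n ≤ H := by
    have : 2 ^ n ≤ 2 ^ (B * n) := Nat.pow_le_pow_right (by norm_num) hnB
    omega
  have hB1 : WBase lam R (2 ^ (B * n)) (3 * c) X :=
    subw1 lam R H (2 ^ (B * n)) X c Nat.one_le_two_pow hlen hl1 hBase hhs
  have hB2 : WBase lam R (2 ^ n) e X :=
    wbase_mono lam _ _ X _ _ (by rw [hc]; linarith)
      (subw1 lam R H (2 ^ n) X c Nat.one_le_two_pow hlen2 hl1 hBase hhs)
  have hlow := Pool.Agent.H3.GW.B.pf_LOW th (3 * c) R (B * n) X lam hth0 (by positivity)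
    hX3 hL.pm hB1
  have hfin := hQ n X lam (by omega) hns hn4 hL hB2
  rw [hc] at hlow
  linarith

end Pool.Agent.H3.GW.Q
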