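import Pool.Agent.H6.G9.Targets3
import Pool.Agent.H3.GW.FNT

/-!
# Theorem (H0) on short windows, MP_c59857_nt: absolute constants for all lengths, the assembly
-/

set_option autoImplicit false

namespace Pool.Agent.H3.GW.S

open Pool.Agent.H6.G9 Pool.Agent.H28.NW Pool.Agent.H3.GW
open Finset Pool.Agent.H6.N4D Pool.Agent.H93 Pool.Agent.H93.GS Filter

/-- the third logarithm is small against the second -/
lemma wev_len3 (B d : ℕ) : ∃ X₀ : ℝ, ∀ X : Wn, X₀ ≤ X.L →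
    (16 : ℝ) ^ (B * (⌈Real.log^[3] (X.hi : ℝ)⌉₊ + d)) ≤ X.L ∧
    ((⌈Real.log^[3] (X.hi : ℝ)⌉₊ + d : ℕ) : ℝ) ^ 4 ≤ X.L := by
  have h2 := (isLittleO_log_rpow_atTop (r := 1 / 8) (by norm_num)).def
    (show (0 : ℝ) < 1 / 2 by norm_num)
  have h3 : ∀ᶠ y : ℝ in atTop, 2 * (3 * (B : ℝ) + 2 + d) ≤ y ^ (1 / 8 : ℝ) :=
    (tendsto_rpow_atTop (by norm_num : (0 : ℝ) < 1 / 8)).eventually_ge_atTop _
  obtain ⟨y₀, hy₀⟩ := eventually_atTop.1 (h2.and (h3.and (eventually_ge_atTop 1)))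
  refine ⟨Real.exp (max y₀ 1), fun X hX => ?_⟩
  have hit : Real.log^[3] (X.hi : ℝ) = Real.log (Real.log X.T) := rfl
  rw [hit]
  have hLT := X.L_le_T
  have hTL := X.T_pow_le
  obtain ⟨L, hL⟩ : ∃ L : ℝ, L = X.L := ⟨_, rfl⟩
  rw [← hL] at hX hLT hTL ⊢
  obtain ⟨t, ht⟩ : ∃ t : ℝ, t = X.T := ⟨_, rfl⟩
  rw [← ht] at hLT hTL ⊢
  have hLpos : 0 < L := (Real.exp_pos _).trans_le hX
  have htpos : 0 < t := hLpos.trans_le hLT
  obtain ⟨y, hy⟩ : ∃ y : ℝ, y = Real.log L := ⟨_, rfl⟩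
  have hyy : max y₀ 1 ≤ y := by
    rw [hy, Real.le_log_iff_exp_le hLpos]
    exact hX
  obtain ⟨h5, h6, h7⟩ := hy₀ y ((le_max_left _ _).trans hyy)
  have hy0 : 0 ≤ Real.log y := Real.log_nonneg h7
  -- the second logarithm of the upper end
  have hyt : y ≤ Real.log t := by
    rw [hy]
    exact Real.log_le_log hLpos hLT
  have hty : Real.log t ≤ 2 * y := by
    have h8 : 24 / 25 * Real.log t ≤ y := by
      rw [hy, ← Real.log_rpow htpos]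
      exact Real.log_le_log (Real.rpow_pos_of_pos htpos _) hTL
    linarith
  have hll : Real.log (Real.log t) ≤ Real.log y + 1 := by
    have h8 : Real.log (Real.log t) ≤ Real.log (2 * y) :=
      Real.log_le_log (by linarith) hty
    rw [Real.log_mul (by norm_num) (by linarith)] at h8
    have := Real.log_two_lt_d9
    linarith
  have hll0 : 0 ≤ Real.log (Real.log t) := Real.log_nonneg (by linarith)
  obtain ⟨z, hz⟩ : ∃ z : ℝ, z = y ^ (1 / 8 : ℝ) := ⟨_, rfl⟩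
  rw [← hz] at h5 h6
  have hz0 : 0 ≤ z := by rw [hz]; exact Real.rpow_nonneg (by linarith) _
  have hz8 : z ^ 8 = y := by
    rw [hz, ← Real.rpow_natCast, ← Real.rpow_mul (by linarith)]
    norm_num
  have hB0 : (0 : ℝ) ≤ B := Nat.cast_nonneg _
  have hs0 : (0 : ℝ) ≤ d := Nat.cast_nonneg _
  rw [Real.norm_of_nonneg hy0, Real.norm_of_nonneg hz0] at h5
  obtain ⟨n, hn⟩ : ∃ n : ℕ, n = ⌈Real.log (Real.log t)⌉₊ + d := ⟨_, rfl⟩
  rw [← hn]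
  have hnz : (n : ℝ) ≤ z := by
    have h9 : (⌈Real.log (Real.log t)⌉₊ : ℝ) < Real.log (Real.log t) + 1 :=
      Nat.ceil_lt_add_one hll0
    rw [hn]
    push_cast
    linarith
  have hz1 : 1 ≤ z := by linarith
  have hyL : y ≤ L := by
    rw [hy]
    have := Real.log_le_sub_one_of_pos hLpos
    linarith
  constructor
  · rw [← Real.log_le_log_iff (by positivity) hLpos, Real.log_pow, ← hy]
    have hl16 : Real.log 16 ≤ 3 := by
      have h9 : Real.log 16 = 4 * Real.log 2 := by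
        rw [show (16 : ℝ) = 2 ^ 4 by norm_num, Real.log_pow]
        norm_num
      rw [h9]
      have := Real.log_two_lt_d9
      linarith
    push_cast
    calc (B : ℝ) * n * Real.log 16 ≤ B * n * 3 := by gcongr
      _ ≤ B * z * 3 := by gcongr
      _ ≤ (3 * (B : ℝ)) * z := by linarith
      _ ≤ z * z := by
        apply mul_le_mul_of_nonneg_right _ hz0
        linarith
      _ = z ^ 2 := by ring
      _ ≤ z ^ 8 := pow_le_pow_right₀ hz1 (by norm_num)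
      _ = y := hz8
  · calc (n : ℝ) ^ 4 ≤ z ^ 4 := pow_le_pow_left₀ (Nat.cast_nonneg _) hnz 4
      _ ≤ z ^ 8 := pow_le_pow_right₀ hz1 (by norm_num)
      _ = y := hz8
      _ ≤ L := hyL

theorem pf_GH0 (hE : W_EU1) (hQ : W_QT) : W_GH0 := by
  obtain ⟨B₂, hB₂, hQ⟩ := hQ
  obtain ⟨e₂, he₂, he₂1, hQ⟩ := hQ 3 (by norm_num)
  obtain ⟨B₁, hB₁, hE⟩ := hE
  obtain ⟨e₁, he₁, hE⟩ := hE (e₂ / 4) (by positivity)
  obtain ⟨c, hc⟩ : ∃ c : ℝ, c = min (e₁ / 3) (e₂ / 24) := ⟨_, rfl⟩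
  have hc0 : 0 < c := by rw [hc]; exact lt_min (by positivity) (by positivity)
  have hc1 : 3 * c ≤ e₁ := by
    have : c ≤ e₁ / 3 := by rw [hc]; exact min_le_left _ _
    linarith
  have hc2 : 3 * c ≤ e₂ / 8 := by
    have : c ≤ e₂ / 24 := by rw [hc]; exact min_le_right _ _
    linarith
  obtain ⟨K, hK⟩ : ∃ K : ℕ, K = 1 + ⌈2 / c⌉₊ := ⟨_, rfl⟩
  refine ⟨c, K, hc0, by omega, fun R => ?_⟩
  obtain ⟨th, hth⟩ : ∃ th : ℝ, th = e₂ / (16 * ((R : ℝ) + 1)) := ⟨_, rfl⟩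
  have hR0 : (0 : ℝ) ≤ R := Nat.cast_nonneg _
  have hth0 : 0 < th := by rw [hth]; positivity
  have hth1 : th ≤ 1 := by
    rw [hth, div_le_one (by positivity)]
    linarith
  have hthR : 2 * th * R ≤ e₂ / 8 := by
    rw [hth, show 2 * (e₂ / (16 * ((R : ℝ) + 1))) * R = (e₂ / 8) * (R / ((R : ℝ) + 1)) by
      field_simp; ring]
    have h2 : (R : ℝ) / ((R : ℝ) + 1) ≤ 1 := by
      rw [div_le_one (by positivity)]
      linarith
    calc e₂ / 8 * ((R : ℝ) / ((R : ℝ) + 1)) ≤ e₂ / 8 * 1 :=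
          mul_le_mul_of_nonneg_left h2 (by positivity)
      _ = e₂ / 8 := mul_one _
  obtain ⟨s₀, hE⟩ := hE th hth0 hth1 R
  obtain ⟨X₀, hE⟩ := hE s₀ le_rfl
  obtain ⟨R', X₁, hlnk⟩ := Pool.Agent.H3.GW.B.lnk2 th (e₂ / 2) hth0 (by positivity)
  obtain ⟨s₂, hQ⟩ := hQ th hth0 hth1 R'
  obtain ⟨X₂, hX₂⟩ := wev_len3 (B₁ + B₂) (s₂ + B₁ * s₀)
  refine ⟨⌈Real.exp X₀⌉₊ + ⌈Real.exp X₁⌉₊ + ⌈Real.exp X₂⌉₊ + ⌈Real.exp (2 / c)⌉₊ +
    ⌈Real.exp 1⌉₊ + 3 + 2 * 2 ^ (B₁ * s₀), fun X H lam hH hHX hL b β hb => ?_⟩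
  by_contra hcon
  rw [not_lt] at hcon
  have hBase : WBase lam R H c X := ⟨b, β, hb, hcon⟩
  have hK1 : 1 ≤ K := by omega
  have hH1 : 1 ≤ H := by omega
  have hX3 : 1 ≤ X.L := Pool.Agent.H3.GW.Q.big_of_H hK1 (by omega) hHX
  have hX0L : X₀ ≤ X.L := Pool.Agent.H3.GW.Q.big_of_H hK1 (by omega) hHX
  have hX1L : (X₁ : ℝ) ≤ X.L := Pool.Agent.H3.GW.Q.big_of_H hK1 (by omega) hHX
  have hX2L : X₂ ≤ X.L := Pool.Agent.H3.GW.Q.big_of_H hK1 (by omega) hHX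
  have hl1 : ∀ n, |lam n| ≤ 1 := by
    intro n
    rcases hL.pm n with h | h <;> rw [h] <;> norm_num
  -- the boundary
  have hhs : EB.hs H ≤ c * X.L :=
    Pool.Agent.H3.GW.Q.hs_le_cL hc0 hK
      (Pool.Agent.H3.GW.Q.big_of_H hK1 (by omega) hHX) hHX
  -- the bounded base
  have hlen : 2 * 2 ^ (B₁ * s₀) ≤ H := by omega
  have hlen2 : 2 * 2 ^ s₀ ≤ H := by
    have : 2 ^ s₀ ≤ 2 ^ (B₁ * s₀) :=
      Nat.pow_le_pow_right (by norm_num) (Nat.le_mul_of_pos_left _ (by omega))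
    omega
  have hA1 : WBase lam R (2 ^ (B₁ * s₀)) (3 * c) X :=
    Pool.Agent.H3.GW.Q.subw1 lam R H (2 ^ (B₁ * s₀)) X c Nat.one_le_two_pow hlen hl1 hBase hhs
  have hA2 : WBase lam R (2 ^ s₀) e₁ X :=
    Pool.Agent.H3.GW.Q.wbase_mono lam _ _ X _ _ hc1
      (Pool.Agent.H3.GW.Q.subw1 lam R H (2 ^ s₀) X c Nat.one_le_two_pow hlen2 hl1 hBase hhs)
  have hlow := Pool.Agent.H3.GW.B.pf_LOW th (3 * c) R (B₁ * s₀) X lam hth0 (by positivity)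
    hX3 hL.pm hA1
  -- the second base
  obtain ⟨hx1, hx2⟩ := hX₂ X hX2L
  obtain ⟨s, hs⟩ : ∃ s : ℕ, s = ⌈Real.log^[3] (X.hi : ℝ)⌉₊ + (s₂ + B₁ * s₀) := ⟨_, rfl⟩
  rw [← hs] at hx1 hx2
  have hks : B₁ * s₀ ≤ s := by omega
  have hsB : s ≤ B₂ * s := Nat.le_mul_of_pos_left _ (by omega)
  have hp1 : (16 : ℝ) ^ (B₂ * s) ≤ X.L := by
    refine le_trans (pow_le_pow_right₀ (by norm_num) ?_) hx1
    rw [add_mul]
    omega
  have hp2 : (16 : ℝ) ^ s ≤ X.L :=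
    (pow_le_pow_right₀ (by norm_num) hsB).trans hp1
  have hEE := hE X lam hX0L hL hA2 (B₁ * s₀)
  have h1 := hEE s le_rfl hks hp2
  have h2 := hEE (B₂ * s) le_rfl (hks.trans hsB) hp1
  have h3 := hlnk s X lam hX1L hL.pm (by linarith)
  rw [show 2 * (e₂ / 2) = e₂ by ring] at h3
  have hll : Real.log^[3] (X.hi : ℝ) ≤ s := by
    calc Real.log^[3] (X.hi : ℝ) ≤ ⌈Real.log^[3] (X.hi : ℝ)⌉₊ := Nat.le_ceil _
      _ ≤ s := by
        have : ⌈Real.log^[3] (X.hi : ℝ)⌉₊ ≤ s := by omega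
        exact_mod_cast this
  have h4 := hQ s X lam (by omega) hll hx2 hL h3
  linarith

end Pool.Agent.H3.GW.S
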