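import Pool.Agent.H1.G9.LVU
import Pool.Agent.H28.NW.LEVB
import Pool.Agent.H3.GW.Defs
import Pool.Agent.H3.GW.TargetsH
import Pool.Agent.H3.GW.LVG

/-!
# Theorem (H), MP_c59857_nt, section B: the inequality of one level
-/

set_option autoImplicit false

open Finset Pool.Agent.H6.N4D Pool.Agent.H93.EB Pool.Agent.H93.GS
open Pool.Agent.H78.N4.LEV hiding avg_shift BV_one abs_D_le sum_dvd_add sum_dvd_le zz_le zz_nonneg
open Pool.Agent.H72.GS2 hiding gm_low scale_lo scale_hi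
open Pool.Agent.H6.G9

namespace Pool.Agent.H3.GW.O

open Pool.Agent.H1.G9 hiding gm_low1 lvu_avg pf_LVU
open Pool.Agent.H28.NW Pool.Agent.H28.NW.LEV Pool.Agent.H3.GW Pool.Agent.H3.GW.C

/-- the logarithmic mean of the events -/
lemma wlg_ev (th κ : ℝ) (p₀ : ℕ) (lam : ℕ → ℝ) (X : Wn) (m : ℕ) (hth : 0 < th) (hκ : 0 < κ)
    (hl : ∀ n, |lam n| ≤ 1) (hm : 400 ≤ m) (hp : 4 * p₀ ≤ m)
    (hQ : ∑ q ∈ QQ m, 1 / (q : ℝ) ≤ 3) :
    wlg X (fun n => ev th κ p₀ lam m n) ≤ 1 / κ * (wgm th lam X p₀ m + 6 * hs (2 ^ m)) +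
      1 / κ * (wgmq th lam X p₀ m + 18 * hs (2 ^ m)) := by
  have hPL : 2 ^ p₀ * 2 ^ (m - p₀) = 2 ^ m := by rw [← pow_add]; congr 1; omega
  have hH : 0 ≤ hs (2 ^ m) := hs_nonneg' _
  have e : (fun n => ev th κ p₀ lam m n) = fun n =>
      ind (κ < gapq th lam 1 (2 ^ p₀) (2 ^ (m - p₀)) n) +
      ∑ q ∈ QQ m, 1 / (q : ℝ) * ind (κ < gapq th lam q (2 ^ p₀) (2 ^ (m - p₀)) n) := by
    funext n
    unfold ev
    rw [gap_gapq]
  rw [e, wlg_add]
  have h1 := wlg_ind_gapq th lam X 1 (2 ^ p₀) (2 ^ (m - p₀)) κ hκ hth hl le_rfl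
    Nat.one_le_two_pow Nat.one_le_two_pow
  rw [hPL] at h1
  have h3 : wlg X (fun n => ∑ q ∈ QQ m, 1 / (q : ℝ) *
      ind (κ < gapq th lam q (2 ^ p₀) (2 ^ (m - p₀)) n)) ≤
      1 / κ * (wgmq th lam X p₀ m + 18 * hs (2 ^ m)) := by
    rw [wlg_sum]
    calc _ ≤ ∑ q ∈ QQ m, 1 / (q : ℝ) * (1 / κ * ((wlg X (fun n => En th lam q (2 ^ (m - p₀)) n) -
          wlg X (fun n => En th lam q (2 ^ m) n)) + 6 * hs (2 ^ m))) := by
          apply sum_le_sum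
          intro q hq
          rw [wlg_mul]
          apply mul_le_mul_of_nonneg_left _ (by positivity)
          have h4 := (mem_QQ_bounds hq).2
          have h5 : q ≤ 2 ^ (m - p₀) := h4.trans (Nat.pow_le_pow_right (by norm_num) (by omega))
          have h6 := wlg_ind_gapq th lam X q (2 ^ p₀) (2 ^ (m - p₀)) κ hκ hth hl
            (mem_QQ_bounds hq).1 h5 Nat.one_le_two_pow
          rw [hPL] at h6
          exact h6
      _ = 1 / κ * (wgmq th lam X p₀ m + 6 * (∑ q ∈ QQ m, 1 / (q : ℝ)) * hs (2 ^ m)) := by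
          unfold wgmq
          rw [mul_add, mul_sum, mul_sum, sum_mul, mul_sum, ← sum_add_distrib]
          apply sum_congr rfl
          intro q _
          ring
      _ ≤ _ := by
          apply mul_le_mul_of_nonneg_left _ (by positivity)
          nlinarith
  have h4 : 1 / κ * ((wlg X (fun n => En th lam 1 (2 ^ (m - p₀)) n) -
      wlg X (fun n => En th lam 1 (2 ^ m) n)) + 6 * hs (2 ^ m)) =
      1 / κ * (wgm th lam X p₀ m + 6 * hs (2 ^ m)) := by unfold wgm; ring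
  linarith

/-- the defects of a level are almost not negative -/
lemma gm_low1 (th : ℝ) (p₀ : ℕ) (lam : ℕ → ℝ) (X : Wn) (m : ℕ) (hth : 0 < th)
    (hl : ∀ n, |lam n| ≤ 1) (hm : 400 ≤ m) (hp : 4 * p₀ ≤ m) :
    -(101 / 100 * hs (2 ^ m)) ≤ wgm th lam X p₀ m := by
  have hPL : 2 ^ p₀ * 2 ^ (m - p₀) = 2 ^ m := by rw [← pow_add]; congr 1; omega
  have h2 : ∀ n, En th lam 1 (2 ^ (m - p₀)) n ≤ 101 / 100 := by
    intro n
    have h6 := Pool.Agent.H6.GS2.En_le th lam 1 (2 ^ (m - p₀)) n hth.le hl le_rfl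
      Nat.one_le_two_pow
    have h7 : ((1 : ℕ) : ℝ) / ((2 ^ (m - p₀) : ℕ) : ℝ) ≤ 1 / 100 := by
      rw [div_le_div_iff₀ (by positivity) (by norm_num)]
      have h8 : 1 * 100 ≤ 1 * 2 ^ (m - p₀) := by
        calc 1 * 100 ≤ 2 ^ 7 := by norm_num
          _ ≤ 2 ^ (m - p₀) := Nat.pow_le_pow_right (by norm_num) (by omega)
          _ = 1 * 2 ^ (m - p₀) := (one_mul _).symm
      exact_mod_cast h8
    linarith
  have h3 := wlg_En_low X (2 ^ p₀) (2 ^ (m - p₀)) 1 th (101 / 100) lam hth hl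
    Nat.one_le_two_pow le_rfl Nat.one_le_two_pow h2
  rw [hPL] at h3
  unfold wgm
  linarith

/-- the averages of the inequality for a window and its pieces -/
lemma lvu_avg (th κ C η A₀ CU : ℝ) (p₀ J₀ p m D : ℕ) (X : Wn) (lam : ℕ → ℝ) (hth : 0 < th)
    (hη : 0 < η) (hκ : 0 < κ) (hC : 0 < C) (hm : 400 ≤ m) (hD : 2 ≤ D) (hp4 : 4 * p₀ ≤ m)
    (hJ : 2 ^ p * 2 ^ m = 2 ^ (D * m)) (hp : p + m = D * m) (hlam : Lio lam)
    (hQ : ∑ q ∈ QQ m, 1 / (q : ℝ) ≤ 3)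
    (hU0 : ∀ n, 0 ≤ UB lam J₀ A₀ m n) (hU1 : ∀ n, UB lam J₀ A₀ m n ≤ CU)
    (H : ∀ n, ∑ q ∈ QQ m, 1 / (q : ℝ) * gapq th lam q (2 ^ p) (2 ^ m) n ≤
      (1 + η) * (∑ q ∈ QQ m, 1 / (q : ℝ)) * gap th lam (2 ^ p) (2 ^ m) n +
      2 / η * ((∑ j ∈ range (2 ^ p), UB lam J₀ A₀ m (n + j * 2 ^ m)) / (2 ^ p : ℕ)) +
      C / η * ((∑ j ∈ range (2 ^ p), ev th κ p₀ lam m (n + j * 2 ^ m)) / (2 ^ p : ℕ) +
        ind (κ < gap th lam (2 ^ p₀) (2 ^ (p + m - p₀)) n) + (1 / 2) ^ (m / 1000))) (T : ℝ)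
    (hT : ∀ q ∈ QQ m, T ≤ wlg X (fun n => En th lam q (2 ^ m) n) -
      wlg X (fun n => En th lam q (2 ^ (D * m)) n)) :
    (∑ q ∈ QQ m, 1 / (q : ℝ)) * (T - 6 * hs (2 ^ (D * m)) - (1 + η) *
      (wlg X (fun n => En th lam 1 (2 ^ m) n) - wlg X (fun n => En th lam 1 (2 ^ (D * m)) n) +
        6 * hs (2 ^ (D * m)))) ≤
      2 / η * (wlg X (fun n => UB lam J₀ A₀ m n) + 3 * CU * hs (2 ^ (D * m))) +
      C / η * (wlg X (fun n => ev th κ p₀ lam m n) + 12 * hs (2 ^ (D * m)) +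
        1 / κ * (wgm th lam X p₀ (D * m) + 6 * hs (2 ^ (D * m))) +
        (1 / 2) ^ (m / 1000) * A.whs X) := by
  have hl := lam_abs hlam
  have hH : 0 ≤ hs (2 ^ (D * m)) := hs_nonneg' _
  have hJ1 : 1 ≤ 2 ^ p := Nat.one_le_two_pow
  have h1 : wlg X (fun n => ∑ q ∈ QQ m, 1 / (q : ℝ) * gapq th lam q (2 ^ p) (2 ^ m) n) ≤
      wlg X (fun n => (1 + η) * (∑ q ∈ QQ m, 1 / (q : ℝ)) * gapq th lam 1 (2 ^ p) (2 ^ m) n +
      2 / η * ((∑ j ∈ range (2 ^ p), UB lam J₀ A₀ m (n + j * 2 ^ m)) / (2 ^ p : ℕ)) +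
      C / η * ((∑ j ∈ range (2 ^ p), ev th κ p₀ lam m (n + j * 2 ^ m)) / (2 ^ p : ℕ) +
        ind (κ < gapq th lam 1 (2 ^ p₀) (2 ^ (p + m - p₀)) n) + (1 / 2) ^ (m / 1000))) :=
    wlg_mono fun n _ => H n
  rw [wlg_sum, wlg_add, wlg_add, wlg_mul, wlg_mul, wlg_mul, wlg_add, wlg_add,
    wlg_avg X (2 ^ p) (fun j n => UB lam J₀ A₀ m (n + j * 2 ^ m)),
    wlg_avg X (2 ^ p) (fun j n => ev th κ p₀ lam m (n + j * 2 ^ m))] at h1
  -- the left side
  have h2 : (∑ q ∈ QQ m, 1 / (q : ℝ)) * (T - 6 * hs (2 ^ (D * m))) ≤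
      ∑ q ∈ QQ m, wlg X (fun n => 1 / (q : ℝ) * gapq th lam q (2 ^ p) (2 ^ m) n) := by
    rw [sum_mul]
    apply sum_le_sum
    intro q hq
    rw [wlg_mul]
    apply mul_le_mul_of_nonneg_left _ (by positivity)
    have h3 := (mem_QQ_bounds hq).1
    have h4 := QQ_le hm hq
    have h5 := (abs_le.1 (wlg_gapq_le th lam X q (2 ^ p) (2 ^ m) hth hl h3 (by omega) hJ1)).1
    rw [hJ] at h5
    have h6 := hT q hq
    linarith
  -- the defect of the whole windows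
  have h3 : wlg X (fun n => gapq th lam 1 (2 ^ p) (2 ^ m) n) ≤
      wlg X (fun n => En th lam 1 (2 ^ m) n) - wlg X (fun n => En th lam 1 (2 ^ (D * m)) n) +
        6 * hs (2 ^ (D * m)) := by
    have h5 := (abs_le.1 (wlg_gapq_le th lam X 1 (2 ^ p) (2 ^ m) hth hl le_rfl
      Nat.one_le_two_pow hJ1)).2
    rw [hJ] at h5
    linarith
  -- the tests
  have h4 : (∑ j ∈ range (2 ^ p), wlg X (fun n => UB lam J₀ A₀ m (n + j * 2 ^ m))) /
      ((2 ^ p : ℕ) : ℝ) ≤ wlg X (fun n => UB lam J₀ A₀ m n) + 3 * CU * hs (2 ^ (D * m)) := by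
    have h5 := avg_shift X (2 ^ m) (2 ^ p) hJ1 (fun n => UB lam J₀ A₀ m n) (c := CU)
      (fun n => by rw [abs_of_nonneg (hU0 n)]; exact hU1 n)
    have h6 := (abs_le.1 h5).2
    rw [hJ] at h6
    linarith
  -- the events
  have h4' : (∑ j ∈ range (2 ^ p), wlg X (fun n => ev th κ p₀ lam m (n + j * 2 ^ m))) /
      ((2 ^ p : ℕ) : ℝ) ≤ wlg X (fun n => ev th κ p₀ lam m n) + 12 * hs (2 ^ (D * m)) := by
    have h5 := avg_shift X (2 ^ m) (2 ^ p) hJ1 (fun n => ev th κ p₀ lam m n) (c := 4)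
      (fun n => by
        have h7 := ev_bounds th κ p₀ lam m n hQ
        rw [abs_of_nonneg h7.1]
        exact h7.2)
    have h6 := (abs_le.1 h5).2
    rw [hJ] at h6
    linarith
  -- the whole window
  have h8 : wlg X (fun n => ind (κ < gapq th lam 1 (2 ^ p₀) (2 ^ (p + m - p₀)) n)) ≤
      1 / κ * (wgm th lam X p₀ (D * m) + 6 * hs (2 ^ (D * m))) := by
    have hmD : m ≤ D * m := Nat.le_mul_of_pos_left m (by omega)
    have hPL : 2 ^ p₀ * 2 ^ (D * m - p₀) = 2 ^ (D * m) := by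
      rw [← pow_add]; congr 1; omega
    have h9 := wlg_ind_gapq th lam X 1 (2 ^ p₀) (2 ^ (D * m - p₀)) κ hκ hth hl le_rfl
      Nat.one_le_two_pow Nat.one_le_two_pow
    rw [hPL] at h9
    rw [hp]
    refine h9.trans (le_of_eq ?_)
    unfold wgm
    ring
  have h5 : wlg X (fun _ => (1 / 2 : ℝ) ^ (m / 1000)) = (1 / 2) ^ (m / 1000) * A.whs X :=
    wlg_const X _
  rw [h5] at h1
  have h6 : (1 + η) * (∑ q ∈ QQ m, 1 / (q : ℝ)) *
      wlg X (fun n => gapq th lam 1 (2 ^ p) (2 ^ m) n) ≤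
      (1 + η) * (∑ q ∈ QQ m, 1 / (q : ℝ)) *
      (wlg X (fun n => En th lam 1 (2 ^ m) n) - wlg X (fun n => En th lam 1 (2 ^ (D * m)) n) +
        6 * hs (2 ^ (D * m))) := by
    apply mul_le_mul_of_nonneg_left h3
    have : 0 ≤ ∑ q ∈ QQ m, 1 / (q : ℝ) := sum_nonneg fun q _ => by positivity
    positivity
  have h7 := mul_le_mul_of_nonneg_left h4 (by positivity : 0 ≤ 2 / η)
  have h7' := mul_le_mul_of_nonneg_left
    (add_le_add_left (add_le_add h4' h8) ((1 / 2 : ℝ) ^ (m / 1000) * A.whs X))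
    (by positivity : 0 ≤ C / η)
  generalize (∑ q ∈ QQ m, 1 / (q : ℝ)) = μ at *
  have h9 := h2.trans (h1.trans (add_le_add (add_le_add h6 h7) h7'))
  have e : μ * (T - 6 * hs (2 ^ (D * m)) - (1 + η) *
      (wlg X (fun n => En th lam 1 (2 ^ m) n) - wlg X (fun n => En th lam 1 (2 ^ (D * m)) n) +
        6 * hs (2 ^ (D * m)))) = μ * (T - 6 * hs (2 ^ (D * m))) - (1 + η) * μ *
      (wlg X (fun n => En th lam 1 (2 ^ m) n) - wlg X (fun n => En th lam 1 (2 ^ (D * m)) n) +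
        6 * hs (2 ^ (D * m))) := by ring
  rw [e]
  linarith

/-- LVU. The inequality of one level; the constant of the tests is absolute. -/
theorem pf_LVU (hO : T_ONU) (hU : T_UBB) (hD : W_DLG) (hM : W_MNX) : W_LVU := by
  refine ⟨8, by norm_num, ?_⟩
  intro th hth hth1
  obtain ⟨κ, A₀, C, p₀, J₀, m₁, hκ, hA₀, hC, hp, H⟩ := hO th hth hth1
  obtain ⟨m₄, CU, hCU, HU⟩ := hU J₀ A₀ hA₀.le
  obtain ⟨C₂, hC₂, H2⟩ := scale_lo hD hM th hth hth1
  obtain ⟨C₃, hC₃, H3⟩ := scale_hi hD hM th hth hth1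
  obtain ⟨m₂, hm₂⟩ := Pool.Agent.H20.ENM.pf_QMS
  obtain ⟨m₃, hm₃⟩ := mu_le
  refine ⟨A₀, (C₂ + C₃ + 18) + 24 * CU + 4 * C * (13 + 31 / κ), p₀, J₀,
    max m₁ (max m₂ (max m₃ (max m₄ 400))), hA₀, by positivity, hp.trans (le_max_left _ _), ?_⟩
  intro η D X m lam hη hη1 hD hX hm hlam
  have hl := lam_abs hlam
  have hm1 : m₁ ≤ m := (le_max_left _ _).trans hm
  have hr1 : max m₂ (max m₃ (max m₄ 400)) ≤ m := (le_max_right _ _).trans hm
  have hm2 : m₂ ≤ m := (le_max_left _ _).trans hr1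
  have hr2 : max m₃ (max m₄ 400) ≤ m := (le_max_right _ _).trans hr1
  have hm3 : m₃ ≤ m := (le_max_left _ _).trans hr2
  have hr3 : max m₄ 400 ≤ m := (le_max_right _ _).trans hr2
  have hm5 : m₄ ≤ m := (le_max_left _ _).trans hr3
  have hm4 : 400 ≤ m := (le_max_right _ _).trans hr3
  obtain ⟨hμ1, hμ3⟩ := hm₂ m hm2
  have hμ32 := hm₃ m hm3
  have hp4 : 4 * p₀ ≤ m := hp.trans hm1
  have hmD : m ≤ D * m := Nat.le_mul_of_pos_left m (by omega)
  have hpm : (D - 1) * m + m = D * m := by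
    obtain ⟨a, rfl⟩ : ∃ a, D = a + 1 := ⟨D - 1, by omega⟩
    rw [Nat.add_sub_cancel]; ring
  have hJK : 2 ^ ((D - 1) * m) * 2 ^ m = 2 ^ (D * m) := by
    rw [← pow_add, hpm]
  -- the error
  have hlogX : 0 ≤ X.L := X.L_nonneg
  obtain ⟨Y, hY⟩ : ∃ Y : ℝ, Y = (1 / 2) ^ (m / 2000) * X.L := ⟨_, rfl⟩
  have hY0 : 0 ≤ Y := by rw [hY]; positivity
  obtain ⟨E, hE⟩ : ∃ E : ℝ, E = Y + D * m + 1 := ⟨_, rfl⟩
  have hE0 : 0 ≤ E := by rw [hE]; positivity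
  have hAm : (2 : ℝ) * m ≤ D * m := by
    have : (2 : ℝ) ≤ D := by exact_mod_cast hD
    nlinarith [(Nat.cast_nonneg m : (0 : ℝ) ≤ m)]
  have hm400 : (400 : ℝ) ≤ m := by exact_mod_cast hm4
  have hs694 : ∀ k : ℕ, hs (2 ^ k) ≤ 1 + 694 / 1000 * k := by
    intro k
    have h := hs_le (2 ^ k)
    have h3 : Real.log ((2 ^ k : ℕ) : ℝ) ≤ 694 / 1000 * k := by
      rw [Nat.cast_pow, Real.log_pow]
      have h9 : Real.log ((2 : ℕ) : ℝ) ≤ 694 / 1000 := by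
        have := Real.log_two_lt_d9
        norm_num at this ⊢
        linarith
      have h10 : (0 : ℝ) ≤ (k : ℝ) := Nat.cast_nonneg _
      nlinarith
    linarith
  have hH : hs (2 ^ (D * m)) ≤ E := by
    have h1 := hs694 (D * m)
    push_cast at h1
    rw [hE]
    linarith
  have hHm : hs (2 ^ m) ≤ E := (hs_mono (Nat.pow_le_pow_right (by norm_num) hmD)).trans hH
  have hHX : (1 / 2) ^ (m / 1000) * A.whs X ≤ E := by
    have h1 := A.whs_le X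
    have h2 : (1 / 2 : ℝ) ^ (m / 1000) ≤ (1 / 2) ^ (m / 2000) :=
      pow_le_pow_of_le_one (by norm_num) (by norm_num) (by omega)
    have h3 : (1 / 2 : ℝ) ^ (m / 2000) ≤ 1 := pow_le_one₀ (by norm_num) (by norm_num)
    have h4 : 0 ≤ (1 / 2 : ℝ) ^ (m / 1000) := by positivity
    calc (1 / 2) ^ (m / 1000) * A.whs X ≤ (1 / 2) ^ (m / 1000) * (1 + X.L) :=
          mul_le_mul_of_nonneg_left h1 h4
      _ ≤ (1 / 2) ^ (m / 2000) * (1 + X.L) :=
          mul_le_mul_of_nonneg_right h2 (by linarith)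
      _ ≤ E := by rw [mul_add, mul_one, ← hY, hE]; linarith
  -- the scales
  have hT : ∀ q ∈ QQ m, wlg X (fun n => En th lam 1 (2 ^ (m - m / 500)) n) -
      wlg X (fun n => En th lam 1 (2 ^ (D * m - m / 100)) n) - (C₂ + C₃) * E ≤
      wlg X (fun n => En th lam q (2 ^ m) n) - wlg X (fun n => En th lam q (2 ^ (D * m)) n) := by
    intro q hq
    have h1 := H2 X m q lam hX hm4 hlam hq
    have h2 := H3 X m q D lam hX hm4 hD hlam hq
    rw [← hY] at h1 h2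
    have h3 : C₂ * (Y + m + 1) ≤ C₂ * E := by
      apply mul_le_mul_of_nonneg_left _ hC₂.le
      rw [hE]
      linarith
    rw [← hE] at h2
    linarith
  have hmain := lvu_avg th κ C η A₀ CU p₀ J₀ ((D - 1) * m) m D X lam hth hη hκ hC hm4 hD hp4
    hJK hpm hlam hμ3 (fun n => (HU lam m n hm5 hl).1) (fun n => (HU lam m n hm5 hl).2.1)
    (fun n => H η ((D - 1) * m) m n lam hη hη1 hm1 hl) _ hT
  have hu : E ≤ wgm th lam X p₀ m + wgmq th lam X p₀ m + wgm th lam X p₀ (D * m) +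
      (Y + 3 * (D * m + 1)) := by
    have h1 := gm_low th p₀ lam X m hth hl hm4 hp4 hμ32
    have h1' := gm_low1 th p₀ lam X (D * m) hth hl (hm4.trans hmD) (hp4.trans hmD)
    have h2 := hs694 m
    have h2' := hs694 (D * m)
    push_cast at h2'
    rw [hE]
    nlinarith
  have hV : wlg X (fun n => ev th κ p₀ lam m n) + 12 * hs (2 ^ (D * m)) +
        1 / κ * (wgm th lam X p₀ (D * m) + 6 * hs (2 ^ (D * m))) +
        (1 / 2) ^ (m / 1000) * A.whs X ≤ 13 * E + 1 / κ * (wgm th lam X p₀ m +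
          wgmq th lam X p₀ m + wgm th lam X p₀ (D * m) + 30 * E) := by
    have h2 := wlg_ev th κ p₀ lam X m hth hκ hl hm4 hp4 hμ3
    have h5 : 1 / κ * (wgm th lam X p₀ m + 6 * hs (2 ^ m)) +
        1 / κ * (wgmq th lam X p₀ m + 18 * hs (2 ^ m)) +
        1 / κ * (wgm th lam X p₀ (D * m) + 6 * hs (2 ^ (D * m))) ≤
        1 / κ * (wgm th lam X p₀ m + wgmq th lam X p₀ m + wgm th lam X p₀ (D * m) + 30 * E) := by
      rw [← mul_add, ← mul_add]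
      apply mul_le_mul_of_nonneg_left _ (by positivity)
      linarith
    linarith
  have hU0 : 0 ≤ wlg X (fun n => UB lam J₀ A₀ m n) :=
    wlg_nonneg fun n _ => (HU lam m n hm5 hl).1
  have hfin := lvu_arith (T₁ := wlg X (fun n => En th lam 1 (2 ^ (m - m / 500)) n))
    (T₂ := wlg X (fun n => En th lam 1 (2 ^ (D * m - m / 100)) n)) (F := Y + 3 * (D * m + 1))
    hμ1 hη hη1 hκ (by positivity : 0 < C₂ + C₃) hC hCU hE0 hH hU0
    (by rw [hE]; nlinarith [(Nat.cast_nonneg m : (0 : ℝ) ≤ m)]) hu hV hmain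
  have e : wgm th lam X p₀ m + wgmq th lam X p₀ m + wgm th lam X p₀ (D * m) +
        (1 / 2) ^ (m / 2000) * X.L + 3 * (D * m + 1) =
      wgm th lam X p₀ m + wgmq th lam X p₀ m + wgm th lam X p₀ (D * m) +
        (Y + 3 * (D * m + 1)) := by
    rw [hY]; ring
  rw [e]
  exact hfin

end Pool.Agent.H3.GW.O
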