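import Pool.Agent.H84.GS.MNX
import Pool.Agent.H3.GW.Defs
import Pool.Agent.H3.GW.MNG

/-!
# Theorem (G), MP_c59857_nt: the energy does not increase with the length, arbitrary lengths
-/

set_option autoImplicit false

namespace Pool.Agent.H3.GW.A

open Pool.Agent.H84.GS Pool.Agent.H28.NW Pool.Agent.H3.GW
open Finset Pool.Agent.H6.N4D Pool.Agent.H93.GS

theorem pf_MNX : W_MNX := by
  intro th hth _
  refine ⟨6, by norm_num, ?_⟩
  intro X N H lam hX hl hN hNH
  have hN0 : (0 : ℝ) < N := by exact_mod_cast hN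
  have hH0 : (0 : ℝ) < H := by exact_mod_cast (by omega : 0 < H)
  have hlX : 1 ≤ X.L := hX
  set P := H / N with hP
  have hP1 : 1 ≤ P := (Nat.one_le_div_iff hN).mpr hNH
  set r := H % N with hr
  have hHe : P * N + r = H := by
    rw [hP, hr, mul_comm]
    exact Nat.div_add_mod H N
  have hrN : r ≤ N := (Nat.mod_lt _ hN).le
  have h1 : wlg X (fun n => En th lam 1 H n) ≤
      wlg X (fun n => En th lam 1 (P * N) n + (N : ℝ) / H) := by
    refine wlg_mono X _ _ fun n => ?_
    have h2 := En_cut th lam (P * N) r n hth (Nat.mul_pos hP1 hN) hl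
    rw [hHe] at h2
    have h3 : (r : ℝ) / H ≤ N / H := div_le_div_of_nonneg_right (by exact_mod_cast hrN) hH0.le
    linarith
  have h2 : wlg X (fun n => En th lam 1 (P * N) n + (N : ℝ) / H) =
      wlg X (fun n => En th lam 1 (P * N) n) + wlg X (fun _ => (N : ℝ) / H) := by
    unfold Pool.Agent.H28.NW.wlg
    rw [← Finset.sum_add_distrib]
    exact Finset.sum_congr rfl fun n _ => add_div _ _ _
  have h3 : wlg X (fun _ => (N : ℝ) / H) ≤ (N : ℝ) / H * whs X := wlg_le X _ _ fun _ => le_rfl
  have h4 := whs_le X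
  have h5 : (N : ℝ) / H * whs X ≤ N / H * (2 * X.L) :=
    mul_le_mul_of_nonneg_left (by linarith) (by positivity)
  have hlH : 0 ≤ Real.log H := Real.log_nonneg (by exact_mod_cast (by omega : 1 ≤ H))
  have h6 := wlg_En_mul X P N 1 th lam hth hl hP1 le_rfl hN (Real.log H + 1) (by
    intro j hj
    rcases Nat.eq_zero_or_pos (j * N) with h0 | h0
    · rw [h0]
      have : hs 0 = 0 := by simp [hs]
      rw [this]
      linarith
    · have h7 := hs_le (j * N) h0
      have h8 : j * N ≤ H := by
        have : j * N ≤ P * N := Nat.mul_le_mul_right _ hj.le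
        omega
      have h9 : ((j * N : ℕ) : ℝ) ≤ H := by exact_mod_cast h8
      have h10 : (0 : ℝ) < ((j * N : ℕ) : ℝ) := by exact_mod_cast h0
      have h11 := Real.log_le_log h10 h9
      linarith)
  have h7 : 0 ≤ (N : ℝ) / H * X.L := by positivity
  linarith

end Pool.Agent.H3.GW.A
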