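import Pool.Agent.H6.G9.QT
import Pool.Agent.H3.GW.TargetsH
import Pool.Agent.H3.GW.Link

/-!
# Theorem (H) for all iterated logarithms: the chain of the stages
-/

set_option autoImplicit false

namespace Pool.Agent.H3.GW.S

open Pool.Agent.H6.G9 Pool.Agent.H28.NW Pool.Agent.H3.GW
open Finset Pool.Agent.H6.N4D Pool.Agent.H93 Pool.Agent.H93.GS Filter

/-! ## iterated logarithms -/

/-- large windows have a large upper end -/
lemma wnev {p : ℝ → Prop} (h : ∀ᶠ x : ℝ in atTop, p x) :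
    ∃ X₀ : ℝ, ∀ X : Wn, X₀ ≤ X.L → p X.hi := by
  obtain ⟨x₀, hx₀⟩ := eventually_atTop.1 h
  refine ⟨x₀, fun X hX => hx₀ _ ?_⟩
  have h1 : X.L ≤ X.T := X.L_le_T
  have h2 : X.T ≤ X.hi := by
    unfold Wn.T
    have := Real.log_le_sub_one_of_pos X.hi_pos
    linarith
  linarith

lemma wbase_le (lam : ℕ → ℝ) (R S : ℕ) (X : Wn) (e e' : ℝ) (h : e ≤ e')
    (hB : WBase lam R S e X) : WBase lam R S e' X := by
  obtain ⟨b, β, hb, hB⟩ := hB
  exact ⟨b, β, hb, hB.trans (mul_le_mul_of_nonneg_right h X.L_nonneg)⟩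

lemma num_log (B : ℕ) : ∀ᶠ y : ℝ in atTop,
    ((B + 1) * Real.log y + 1) ^ 4 ≤ y ^ (1 / 2 : ℝ) := by
  have h2 := (isLittleO_log_rpow_atTop (r := 1 / 8) (by norm_num)).def
    (show (0 : ℝ) < 1 / (2 * ((B : ℝ) + 1)) by positivity)
  have h3 : ∀ᶠ y : ℝ in atTop, (2 : ℝ) ≤ y ^ (1 / 8 : ℝ) :=
    (tendsto_rpow_atTop (by norm_num : (0 : ℝ) < 1 / 8)).eventually_ge_atTop 2
  filter_upwards [h2, h3, eventually_ge_atTop 1] with y h4 h5 h6
  have h7 : 0 ≤ Real.log y := Real.log_nonneg h6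
  have h8 : 0 ≤ y ^ (1 / 8 : ℝ) := Real.rpow_nonneg (by linarith) _
  rw [Real.norm_of_nonneg h7, Real.norm_of_nonneg h8] at h4
  have hB : (0 : ℝ) < (B : ℝ) + 1 := by positivity
  have h9 : ((B : ℝ) + 1) * Real.log y ≤ 1 / 2 * y ^ (1 / 8 : ℝ) := by
    calc ((B : ℝ) + 1) * Real.log y ≤
        (B + 1) * (1 / (2 * ((B : ℝ) + 1)) * y ^ (1 / 8 : ℝ)) :=
          mul_le_mul_of_nonneg_left h4 hB.le
      _ = 1 / 2 * y ^ (1 / 8 : ℝ) := by field_simp
  have h10 : ((B : ℝ) + 1) * Real.log y + 1 ≤ y ^ (1 / 8 : ℝ) := by linarith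
  calc (((B : ℝ) + 1) * Real.log y + 1) ^ 4 ≤ (y ^ (1 / 8 : ℝ)) ^ 4 :=
        pow_le_pow_left₀ (by positivity) h10 4
    _ = y ^ (1 / 2 : ℝ) := by
        rw [← Real.rpow_natCast, ← Real.rpow_mul (by linarith)]
        norm_num

theorem pf_QT (hE : W_EUS) (hT : W_TOPE) : W_QT := by
  obtain ⟨B, hB, hE⟩ := hE
  refine ⟨B, hB, ?_⟩
  obtain ⟨s₁, hs₁, hs₁'⟩ := num_s B hB
  intro T hT2
  induction T, hT2 using Nat.le_induction with
  | base =>
    obtain ⟨e, he, hE⟩ := hE (1 / 4) (by norm_num)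
    refine ⟨min e (1 / 2), lt_min he (by norm_num), (min_le_right _ _).trans (by norm_num), ?_⟩
    intro th hth hth1 R
    obtain ⟨s₀, X₀, hE⟩ := hE th hth hth1 R
    obtain ⟨X₁, hT⟩ := hT th (1 / 4) hth hth1 (by norm_num)
    obtain ⟨M, hM⟩ := exists_nat_gt (max X₀ X₁)
    refine ⟨s₀ + M + s₁ + 3, fun s X lam hs hll hsX hL hBase => ?_⟩
    simp only [Function.iterate_succ, Function.iterate_zero, Function.comp_apply, id_eq] at hll
    have hs1 : (1 : ℝ) ≤ s := by exact_mod_cast (by omega : 1 ≤ s)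
    have hsX1 : (s : ℝ) ≤ X.L := by
      calc (s : ℝ) = (s : ℝ) ^ 1 := (pow_one _).symm
        _ ≤ (s : ℝ) ^ 4 := pow_le_pow_right₀ hs1 (by norm_num)
        _ ≤ _ := hsX
    have hMs : (M : ℝ) ≤ s := by exact_mod_cast (by omega : M ≤ s)
    have hX₀ : X₀ ≤ X.L := by
      have := (le_max_left X₀ X₁).trans hM.le
      linarith
    have hX₁ : X₁ ≤ X.L := by
      have := (le_max_right X₀ X₁).trans hM.le
      linarith
    have hLT := X.L_le_T
    obtain ⟨a, ha1, ha2, ha3⟩ := hT X lam hX₁ hL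
    have hlog : 0 < X.L := by linarith
    have hlogT : 0 < X.T := by linarith
    -- the number of the levels
    have hBs : B * s ≤ a := by
      have h1 : (s : ℝ) ^ 2 ≤ X.T ^ (1 / 2 : ℝ) := top_le hs1 (hsX.trans hLT)
      have h2 : ((B * s : ℕ) : ℝ) ≤ a := by
        refine le_trans ?_ (h1.trans ha1)
        push_cast
        have : (B : ℝ) ≤ s := by exact_mod_cast (by omega : B ≤ s)
        nlinarith
      exact_mod_cast h2
    have ha0 : 0 < a := by
      have : 0 < B * s := Nat.mul_pos (by omega) (by omega)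
      omega
    have hla : Real.log a ≤ 2 ^ (s / B) := by
      have h1 : Real.log (a : ℝ) ≤ Real.log (X.T ^ (191 / 200 : ℝ)) :=
        Real.log_le_log (by exact_mod_cast ha0) ha2
      rw [Real.log_rpow hlogT] at h1
      have h2 : 0 ≤ (s : ℝ) := by linarith
      have h3 := (hs₁' s (by omega)).1
      have h4 : Real.log X.T ≤ s := hll
      nlinarith
    have hp0 : 0 ≤ X.T ^ (191 / 200 : ℝ) := Real.rpow_nonneg hlogT.le _
    have hfin := hE s X a lam (by omega) hX₀ hL hla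
      (wbase_le lam _ _ X _ _ (min_le_left _ _) hBase) (B * s) a le_rfl hBs le_rfl
      (by linarith)
    have : min e (1 / 2) ≤ 1 / 2 := min_le_right _ _
    linarith
  | succ T hT2 ih =>
    obtain ⟨e₁, he₁, he₁1, ih⟩ := ih
    obtain ⟨e₂, he₂, hE⟩ := hE (e₁ / 4) (by positivity)
    refine ⟨min e₂ (e₁ / 4), lt_min he₂ (by positivity),
      (min_le_right _ _).trans (by linarith), ?_⟩
    intro th hth hth1 R
    obtain ⟨s₂, X₂, hE⟩ := hE th hth hth1 R
    obtain ⟨R', X₃, hlnk⟩ := Pool.Agent.H3.GW.B.lnk2 th (e₁ / 2) hth (by positivity)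
    obtain ⟨s₃, ih1⟩ := ih th hth hth1 R
    obtain ⟨s₄, ih2⟩ := ih th hth hth1 R'
    obtain ⟨X₄, hX₄⟩ := wnev (itlog_le2 T hT2)
    -- numerals for the logarithmic length
    have hnum : ∃ X₆ : ℝ, ∀ X : Wn, X₆ ≤ X.L →
        ((B + 1) * Real.log X.T + 1) ^ 4 ≤ X.L ∧ (B : ℝ) ≤ X.L ^ (1 / 2 : ℝ) := by
      obtain ⟨Y₁, hY₁⟩ := Wn.pow_small (1 / 2) (by norm_num) 1
      obtain ⟨y₂, hy₂⟩ := eventually_atTop.1 (num_log B)
      have h3 : Tendsto (fun y : ℝ => y ^ (1 / 2 : ℝ)) atTop atTop :=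
        tendsto_rpow_atTop (by norm_num)
      obtain ⟨y₃, hy₃⟩ := eventually_atTop.1 (h3.eventually_ge_atTop (B : ℝ))
      refine ⟨max Y₁ (max y₂ y₃), fun X hX => ?_⟩
      have a1 := hY₁ X ((le_max_left _ _).trans hX)
      have a2 := hy₂ X.T ((((le_max_left _ _).trans (le_max_right _ _)).trans hX).trans X.L_le_T)
      have a3 := hy₃ X.L (((le_max_right _ _).trans (le_max_right _ _)).trans hX)
      exact ⟨a2.trans (by linarith), a3⟩
    obtain ⟨X₆, hX₆⟩ := hnum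
    obtain ⟨M, hM⟩ := exists_nat_gt (max (max X₂ X₃) (max X₄ X₆))
    refine ⟨s₁ + s₂ + s₃ + s₄ + M + 3, fun s X lam hs hll hsX hL hBase => ?_⟩
    have hs1 : (1 : ℝ) ≤ s := by exact_mod_cast (by omega : 1 ≤ s)
    have hsX1 : (s : ℝ) ≤ X.L := by
      calc (s : ℝ) = (s : ℝ) ^ 1 := (pow_one _).symm
        _ ≤ (s : ℝ) ^ 4 := pow_le_pow_right₀ hs1 (by norm_num)
        _ ≤ _ := hsX
    have hMs : (M : ℝ) ≤ s := by exact_mod_cast (by omega : M ≤ s)
    have hML : max (max X₂ X₃) (max X₄ X₆) ≤ X.L := by linarith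
    have hX2 : X₂ ≤ X.L := ((le_max_left _ _).trans (le_max_left _ _)).trans hML
    have hX3 : X₃ ≤ X.L := ((le_max_right _ _).trans (le_max_left _ _)).trans hML
    have hX4 : X₄ ≤ X.L := ((le_max_left _ _).trans (le_max_right _ _)).trans hML
    have hX6 : X₆ ≤ X.L := ((le_max_right _ _).trans (le_max_right _ _)).trans hML
    have hLT := X.L_le_T
    have hlog : 0 < X.L := by linarith
    have hlogT : 0 < X.T := by linarith
    have hm1 : min e₂ (e₁ / 4) ≤ e₂ := min_le_left _ _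
    have hm2 : min e₂ (e₁ / 4) ≤ e₁ / 4 := min_le_right _ _
    by_contra hcon
    rw [not_lt] at hcon
    rcases le_or_gt (Real.log^[T] (X.hi : ℝ)) s with hc | hc
    · -- the previous range
      have h1 := ih1 s X lam (by omega) hc hsX hL
        (wbase_le lam _ _ X _ _ (by linarith) hBase)
      linarith
    · -- a new base
      obtain ⟨y, hy⟩ : ∃ y : ℝ, y = Real.log^[T] (X.hi : ℝ) := ⟨_, rfl⟩
      rw [← hy] at hc
      have hy0 : 0 < y := by linarith
      have hys : y ≤ Real.exp s := by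
        rw [Function.iterate_succ_apply', ← hy] at hll
        calc y = Real.exp (Real.log y) := (Real.exp_log hy0).symm
          _ ≤ _ := Real.exp_le_exp.2 hll
      have hyl : y ≤ Real.log X.T := by rw [hy]; exact hX₄ X hX4
      obtain ⟨hx1, hx2⟩ := hX₆ X hX6
      obtain ⟨s', hs'⟩ : ∃ s' : ℕ, s' = ⌈y⌉₊ + B * s := ⟨_, rfl⟩
      have hc1 : (⌈y⌉₊ : ℝ) < y + 1 := Nat.ceil_lt_add_one hy0.le
      have hBs1 : 1 * s ≤ B * s := Nat.mul_le_mul_right s hB
      have hs'r : (s' : ℝ) ≤ y + 1 + B * s := by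
        rw [hs']; push_cast; linarith
      have hB0 : (0 : ℝ) ≤ B := Nat.cast_nonneg _
      have hs'2 : (s' : ℝ) ≤ (B + 1) * Real.log X.T + 1 := by
        have h1 : (B : ℝ) * s ≤ B * Real.log X.T :=
          mul_le_mul_of_nonneg_left (by linarith) hB0
        linarith
      have hs'4 : (s' : ℝ) ^ 4 ≤ X.L :=
        (pow_le_pow_left₀ (Nat.cast_nonneg _) hs'2 4).trans hx1
      have hs'1 : (1 : ℝ) ≤ s' := by exact_mod_cast (by omega : 1 ≤ s')
      have hyss : y ≤ s' := by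
        have h1 : y ≤ ⌈y⌉₊ := Nat.le_ceil _
        have h2 : ((⌈y⌉₊ : ℕ) : ℝ) ≤ s' := by exact_mod_cast (by omega : ⌈y⌉₊ ≤ s')
        linarith
      -- the number of the levels
      obtain ⟨hn1, hn2⟩ := hs₁' s (by omega)
      have hkk : ((B * s' : ℕ) : ℝ) ≤ Real.exp (2 * s) := by
        refine le_trans ?_ hn2
        push_cast
        apply mul_le_mul_of_nonneg_left _ hB0
        linarith
      have hBs' : 0 < B * s' := Nat.mul_pos (by omega) (by omega)
      have hlk : Real.log ((B * s' : ℕ) : ℝ) ≤ 2 ^ (s / B) := by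
        refine le_trans ?_ hn1
        rw [Real.log_le_iff_le_exp (by exact_mod_cast hBs')]
        exact hkk
      have hss' : s' ≤ B * s' := Nat.le_mul_of_pos_left _ (by omega)
      -- the scales are below the top
      have htop : ((B * s' : ℕ) : ℝ) ≤ 2 * X.T ^ (191 / 200 : ℝ) := by
        have h1 : 1 ≤ X.T := by linarith
        have h3 : (s' : ℝ) ≤ X.T ^ (1 / 4 : ℝ) := by
          calc (s' : ℝ) = ((s' : ℝ) ^ 4) ^ (1 / 4 : ℝ) := by
                rw [← Real.rpow_natCast, ← Real.rpow_mul (Nat.cast_nonneg _)]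
                norm_num
            _ ≤ X.T ^ (1 / 4 : ℝ) :=
                Real.rpow_le_rpow (by positivity) (hs'4.trans hLT) (by norm_num)
        have hx3 : (B : ℝ) ≤ X.T ^ (1 / 2 : ℝ) :=
          hx2.trans (Real.rpow_le_rpow hlog.le hLT (by norm_num))
        have h4 : (B : ℝ) * s' ≤ X.T ^ (1 / 2 : ℝ) * X.T ^ (1 / 4 : ℝ) :=
          mul_le_mul hx3 h3 (Nat.cast_nonneg _) (Real.rpow_nonneg hlogT.le _)
        rw [← Real.rpow_add hlogT] at h4
        have h5 : X.T ^ (1 / 2 + 1 / 4 : ℝ) ≤ X.T ^ (191 / 200 : ℝ) :=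
          Real.rpow_le_rpow_of_exponent_le h1 (by norm_num)
        have h6 : 0 ≤ X.T ^ (191 / 200 : ℝ) := Real.rpow_nonneg hlogT.le _
        push_cast
        linarith
      have htop1 : (s' : ℝ) ≤ 2 * X.T ^ (191 / 200 : ℝ) := by
        refine le_trans ?_ htop
        exact_mod_cast hss'
      have hB1 := wbase_le lam _ _ X _ _ hm1 hBase
      have hEE := hE s X (B * s') lam (by omega) hX2 hL hlk hB1 (B * s)
      have h1 := hEE s' le_rfl (by omega) hss' htop1
      have h2 := hEE (B * s') le_rfl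
        ((show B * s ≤ s' by omega).trans hss') le_rfl htop
      have h3 := hlnk s' X lam hX3 hL.pm (by linarith)
      rw [show 2 * (e₁ / 2) = e₁ by ring] at h3
      have h4 := ih2 s' X lam (by omega) (by rw [← hy]; exact hyss) hs'4 hL h3
      linarith

end Pool.Agent.H3.GW.S
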