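import Pool.Agent.H56.E.H8.G3.SGa
import Pool.Agent.H3.GW.Defs
import Pool.Agent.H3.GW.TargetsH

/-!
# Theorem (G), MP_c59857_nt, section 3b: row SG, levels and counting
-/

set_option autoImplicit false

namespace Pool.Agent.H3.GW.T3

open Pool.Agent.H56.E.H8.G3 Pool.Agent.H28.NW Pool.Agent.H3.GW
open Pool.Agent.H8.G3

open Finset Filter Pool.Agent.H6.N4D Pool.Agent.H78.GX.H6.N4D Pool.Agent.H93.EB
open Pool.Agent.H93.GS Pool.Agent.H56.G3 Pool.Agent.H56.E.H56.G3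

/-! ### counting -/

/-! ### linearity -/

lemma SG_lg_sub (X : Wn) (f g : ℕ → ℝ) : wlg X (fun n => f n - g n) = wlg X f - wlg X g :=
  Pool.Agent.H28.NW.wlg_sub X f g

lemma SG_lg_add (X : Wn) (f g : ℕ → ℝ) : wlg X (fun n => f n + g n) = wlg X f + wlg X g :=
  Pool.Agent.H28.NW.wlg_add X f g

lemma SG_lg_mul (X : Wn) (c : ℝ) (f : ℕ → ℝ) : wlg X (fun n => c * f n) = c * wlg X f :=
  Pool.Agent.H28.NW.wlg_mul X c f

lemma SG_lg_sum {ι : Type} (X : Wn) (s : Finset ι) (f : ι → ℕ → ℝ) :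
    wlg X (fun n => ∑ i ∈ s, f i n) = ∑ i ∈ s, wlg X (f i) := by
  unfold wlg
  rw [Finset.sum_comm]
  refine Finset.sum_congr rfl fun n _ => ?_
  rw [Finset.sum_div]

end Pool.Agent.H3.GW.T3
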