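import Pool.Agent.H56.E.H8.G3.SG
import Pool.Agent.H3.GW.Defs
import Pool.Agent.H3.GW.SGEa

/-!
# Theorem (G), MP_c59857_nt, section 3b: row SG, the main statement
-/

set_option autoImplicit false

namespace Pool.Agent.H3.GW.T3

open Pool.Agent.H56.E.H8.G3 Pool.Agent.H28.NW Pool.Agent.H3.GW
open Pool.Agent.H8.G3

open Finset Filter Pool.Agent.H6.N4D Pool.Agent.H78.GX.H6.N4D Pool.Agent.H93.EB
open Pool.Agent.H93.GS Pool.Agent.H56.G3 Pool.Agent.H56.E.H56.G3

/-- row SG -/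
theorem pf_SG (hRB : T_RB) (hWQ : T_WQ) (hSV : T_SV) (hSZ0 : T_SZ) (hSZ : W_SZE)
    (hSW : W_SWE) (hSA1 : T_SA1) (hSA2 : T_SA2) (hSN : T_SN) : W_SGE := by
  classical
  obtain ⟨W, hW1, hW⟩ := hWQ
  intro th c hth hth1 hc K κ ε hK hκ hε
  obtain ⟨δ, hδ⟩ : ∃ δ : ℝ, δ = ε * κ / (4 * (K + 1)) := ⟨_, rfl⟩
  have hK0 : (0 : ℝ) < 4 * (K + 1) := by positivity
  have hδ0 : 0 < δ := by rw [hδ]; positivity
  obtain ⟨A, hA1, hA2⟩ : ∃ A : ℝ, 1 ≤ A ∧ 6 / A ≤ δ / 3 := by
    refine ⟨max 1 (18 / δ), le_max_left _ _, ?_⟩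
    have h1 : 18 / δ ≤ max 1 (18 / δ) := le_max_right _ _
    have h2 : 0 < max 1 (18 / δ) := lt_of_lt_of_le one_pos (le_max_left _ _)
    rw [div_le_div_iff₀ h2 (by norm_num)]
    rw [div_le_iff₀ hδ0] at h1
    linarith
  have hA0 : 0 < A := by linarith
  have hW0 : 0 < 4 + 13 * W := by linarith
  obtain ⟨η, hη0, hη1, hη2, hη3⟩ : ∃ η : ℝ, 0 < η ∧ η ≤ 1 / 2 ∧ (4 + 13 * W) * η ≤ δ / 3 ∧
      (A + 1) * η ≤ c / 24 := by
    refine ⟨min (1 / 2) (min (δ / 3 / (4 + 13 * W)) (c / 24 / (A + 1))), ?_, min_le_left _ _,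
      ?_, ?_⟩
    · refine lt_min (by norm_num) (lt_min (by positivity) (by positivity))
    · have h1 : min (1 / 2) (min (δ / 3 / (4 + 13 * W)) (c / 24 / (A + 1))) ≤
          δ / 3 / (4 + 13 * W) := (min_le_right _ _).trans (min_le_left _ _)
      rw [le_div_iff₀ hW0] at h1
      linarith
    · have h1 : min (1 / 2) (min (δ / 3 / (4 + 13 * W)) (c / 24 / (A + 1))) ≤
          c / 24 / (A + 1) := (min_le_right _ _).trans (min_le_right _ _)
      rw [le_div_iff₀ (by linarith)] at h1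
      linarith
  obtain ⟨r, hr⟩ : ∃ r : ℕ, 8 / th ^ 2 * (1 / 2 : ℝ) ^ r ≤ min (δ / 3) (c / 24) := by
    have h1 : 0 < min (δ / 3) (c / 24) / (8 / th ^ 2) := by
      have : 0 < min (δ / 3) (c / 24) := lt_min (by positivity) (by positivity)
      positivity
    obtain ⟨r, hr⟩ := exists_pow_lt_of_lt_one h1 (by norm_num : (1 / 2 : ℝ) < 1)
    refine ⟨r, ?_⟩
    rw [lt_div_iff₀ (by positivity)] at hr
    linarith
  have hr1 : 8 / th ^ 2 * (1 / 2 : ℝ) ^ r ≤ δ / 3 := hr.trans (min_le_left _ _)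
  have hr2 : 8 / th ^ 2 * (1 / 2 : ℝ) ^ r ≤ c / 24 := hr.trans (min_le_right _ _)
  have hr0 : 0 ≤ 8 / th ^ 2 * (1 / 2 : ℝ) ^ r := by positivity
  obtain ⟨ρ, hρ⟩ : ∃ ρ : ℝ, ρ = 8 / th ^ 2 * (1 / 2 : ℝ) ^ r := ⟨_, rfl⟩
  rw [← hρ] at hr0 hr1 hr2
  obtain ⟨Y₁, hY₁⟩ := hSW K r (2 * (1 + A)) (c / 2) hK (by linarith) (by linarith)
  obtain ⟨Z, hZ⟩ : ∃ Z : ℝ, Z = 1 + A + 2 * A * (2 * K + 2) := ⟨_, rfl⟩
  have hZ0 : 0 < Z := by rw [hZ]; positivity
  obtain ⟨ε', hε'⟩ : ∃ ε' : ℝ, ε' = c / 2 / Z := ⟨_, rfl⟩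
  have hε'0 : 0 < ε' := by rw [hε']; positivity
  have hε'1 : ε' * Z = c / 2 := by rw [hε']; field_simp
  refine ⟨ε', r, hε'0, fun X₁ => ?_⟩
  obtain ⟨xv, hxv⟩ := hSV K η hK hη0
  obtain ⟨xa, hxa⟩ := hSA1 th hth hth1 η K r hη0 hK
  obtain ⟨xb, hxb⟩ := hSA2 th hth hth1 η K r hη0 hK
  obtain ⟨xn, hxn⟩ := hSN K r 1 hK
  refine ⟨max Y₁ (max (max X₁ (max (max xv xa) (max xb xn))) 1),
    fun X u lam hX hlio hu1 hu2 hHm hc1 hc2 => ?_⟩
  have hX3 : 1 ≤ X.L := le_trans (le_trans (le_max_right _ _) (le_max_right _ _)) hX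
  have hXY : max X₁ (max (max xv xa) (max xb xn)) ≤ (X.hi : ℝ) :=
    (le_trans (le_trans (le_max_left _ _) (le_max_right _ _)) hX).trans
      (X.L_le_T.trans (Real.log_le_self X.hi_pos.le))
  have hlX : 0 < X.L := by linarith
  have hlog2 : 0 < Real.log 2 := Real.log_pos one_lt_two
  have hu0 : 1 ≤ u := by
    by_contra hneg
    have h1 : u = 0 := by omega
    rw [h1, Nat.cast_zero, zero_mul] at hu1
    have h2 : 0 < X.T ^ (19 / 20 : ℝ) :=
      Real.rpow_pos_of_pos (lt_of_lt_of_le hlX X.L_le_T) _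
    linarith
  obtain ⟨k, hk⟩ : ∃ k : ℕ, k = 2 ^ (2 * K + 12) * u := ⟨_, rfl⟩
  rw [← hk] at hc2
  have hB1 : B1 lam := fun n => by rcases hlio.pm n with h | h <;> rw [h] <;> norm_num
  -- the functions
  obtain ⟨E1, hE1⟩ : ∃ E1 : ℕ → ℝ, E1 = En th lam 1 (2 ^ k) := ⟨_, rfl⟩
  obtain ⟨E0, hE0⟩ : ∃ E0 : ℕ → ℝ, E0 = En th lam 1 (2 ^ u) := ⟨_, rfl⟩
  obtain ⟨m, hm⟩ : ∃ m : ℕ → ℕ, m = fun i => 400 * u * 2 ^ i := ⟨_, rfl⟩
  obtain ⟨G, hG⟩ : ∃ G : ℕ → ℕ → ℝ, G = fun i n => zs lam (m i) n + ts th lam (m i) n :=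
    ⟨_, rfl⟩
  obtain ⟨T, hT⟩ : ∃ T : ℕ → ℝ, T = fun n => ∑ i ∈ range (2 * K + 2), G i n := ⟨_, rfl⟩
  have hE1b : ∀ n, 0 ≤ E1 n ∧ E1 n ≤ 2 := by
    intro n
    obtain ⟨_, g1, g2, _⟩ := hRB th lam 1 (2 ^ k) n hth hB1 le_rfl Nat.one_le_two_pow
    rw [hE1]
    refine ⟨g1, g2.trans ?_⟩
    have h1 : (1 : ℝ) ≤ ((2 ^ k : ℕ) : ℝ) := by exact_mod_cast Nat.one_le_two_pow
    have h2 : ((1 : ℕ) : ℝ) / ((2 ^ k : ℕ) : ℝ) ≤ 1 := by
      rw [Nat.cast_one]
      exact div_le_one_of_le₀ h1 (Nat.cast_nonneg _)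
    linarith only [h2]
  have hE0b : ∀ n, 0 ≤ E0 n := by
    intro n
    obtain ⟨_, g1, g2, _⟩ := hRB th lam 1 (2 ^ u) n hth hB1 le_rfl Nat.one_le_two_pow
    rw [hE0]
    exact g1
  have hmb : ∀ i, 1 ≤ m i := by
    intro i
    rw [hm]
    have h1 : 1 ≤ 2 ^ i := Nat.one_le_two_pow
    have h2 : 1 * 1 ≤ 400 * u * 2 ^ i := Nat.mul_le_mul (by omega) h1
    omega
  have hGb : ∀ i < 2 * K + 2, (∀ v, 0 ≤ G i v ∧ G i v ≤ 13 * W) ∧
      wlg X (G i) ≤ 2 * ε' * X.L := by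
    intro i hi
    obtain ⟨z1, z2, -⟩ := hSZ0 th W lam (m i) hth hth1 hB1 (hmb i) (hW _)
    refine ⟨fun v => ?_, ?_⟩
    · obtain ⟨y1, y2, y3, y4⟩ := z1 v
      rw [hG]
      exact ⟨add_nonneg y1 y3, by simp only; linarith only [y2, y4]⟩
    · obtain ⟨y1, y2⟩ := hSZ th lam (m i) hth hth1 hB1 (hmb i) X hX3
      obtain ⟨w1, w2⟩ : wHm th ε' lam X (m i) := by
        rw [hm]
        exact hHm i hi
      have h1 : wlg X (G i) = wlg X (zs lam (m i)) + wlg X (ts th lam (m i)) := by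
        rw [hG, ← SG_lg_add]
      rw [h1, y2]
      linarith only [y1, w1, w2]
  have hT0 : ∀ n, 0 ≤ T n := by
    intro n
    rw [hT]
    exact Finset.sum_nonneg fun i hi => ((hGb i (mem_range.1 hi)).1 n).1
  have hTG : ∀ i < 2 * K + 2, ∀ n, G i n ≤ T n := by
    intro i hi n
    rw [hT]
    exact Finset.single_le_sum (f := fun i => G i n)
      (fun i hi => ((hGb i (mem_range.1 hi)).1 n).1) (mem_range.2 hi)
  have hlgT : wlg X T ≤ (2 * K + 2) * (2 * ε' * X.L) := by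
    rw [hT, SG_lg_sum]
    refine (Finset.sum_le_card_nsmul (range (2 * K + 2)) _ (2 * ε' * X.L)
      fun i hi => (hGb i (mem_range.1 hi)).2).trans ?_
    rw [card_range, nsmul_eq_mul]
    push_cast
    exact le_rfl
  -- the function `U`
  obtain ⟨U, hU⟩ : ∃ U : ℕ → ℝ, U = fun n => E1 n - A * (E0 n - E1 n) - A * T n := ⟨_, rfl⟩
  have hUb : ∀ n, U n ≤ 2 * (1 + A) := by
    intro n
    have h1 := hE1b n
    have h2 := hE0b n
    have h3 := hT0 n
    have p1 := mul_nonneg hA0.le h2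
    have p2 := mul_nonneg hA0.le h3
    have p3 := mul_le_mul_of_nonneg_left h1.2 hA0.le
    rw [hU]
    simp only
    linarith only [p1, p2, p3, h1.2]
  have hlgU : c / 2 * X.L ≤ wlg X U := by
    have h1 : wlg X U = wlg X E1 - A * (wlg X E0 - wlg X E1) - A * wlg X T := by
      rw [hU, SG_lg_sub, SG_lg_sub, SG_lg_mul, SG_lg_mul, SG_lg_sub]
    have h2 : wlg X E1 = wte th lam X k * X.L := by
      unfold wte
      rw [div_mul_cancel₀ _ hlX.ne', hE1]
    have h3 : wlg X E0 = wte th lam X u * X.L := by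
      unfold wte
      rw [div_mul_cancel₀ _ hlX.ne', hE0]
    rw [h1, h2, h3]
    have h4 : (wte th lam X u - wte th lam X k) * X.L ≤ ε' * X.L :=
      mul_le_mul_of_nonneg_right (by linarith only [hc2]) hlX.le
    have h5 : (c - ε') * X.L ≤ wte th lam X k * X.L :=
      mul_le_mul_of_nonneg_right (by linarith only [hc1, hc2]) hlX.le
    have h6 : A * wlg X T ≤ A * ((2 * K + 2) * (2 * ε' * X.L)) :=
      mul_le_mul_of_nonneg_left hlgT hA0.le
    have h7 : A * (wte th lam X u * X.L - wte th lam X k * X.L) ≤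
        A * (ε' * X.L) := by
      refine mul_le_mul_of_nonneg_left ?_ hA0.le
      linarith only [h4]
    have h8 : ε' * Z * X.L = c / 2 * X.L := by rw [hε'1]
    rw [hZ] at h8
    linarith only [h5, h6, h7, h8]
  obtain ⟨S, hSL, hSX, hS2, hS3⟩ := hY₁ X u U (le_trans (le_max_left _ _) hX) hu1 hu2 hUb hlgU
  rw [← hk] at hS2 ⊢
  have hS1 := hXY.trans hSX
  have hx1 : X₁ ≤ S.X := (le_max_left _ _).trans hS1
  have hx2 : max (max xv xa) (max xb xn) ≤ S.X := (le_max_right _ _).trans hS1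
  have hxv' : xv ≤ S.X := ((le_max_left _ _).trans (le_max_left _ _)).trans hx2
  have hxa' : xa ≤ S.X := ((le_max_right _ _).trans (le_max_left _ _)).trans hx2
  have hxb' : xb ≤ S.X := ((le_max_left _ _).trans (le_max_right _ _)).trans hx2
  have hxn' : xn ≤ S.X := ((le_max_right _ _).trans (le_max_right _ _)).trans hx2
  have hh : 0 < S.h := hS2.ok.hh
  have hL0 : 0 ≤ S.L := by
    unfold Par.L Pool.Agent.H6.N4D.LL
    exact Real.rpow_nonneg (Real.log_nonneg hS2.ok.hX) _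
  have hNh : 0 ≤ S.N * S.h := le_trans (by positivity) hS2.ok.hI1
  have hN : 0 ≤ S.N := nonneg_of_mul_nonneg_left hNh hh
  have haL : (u : ℝ) ≤ 2 * S.L := by
    have h1 : (1 / 2 : ℝ) ≤ Real.log 2 := by
      have := Real.log_two_gt_d9
      linarith only [this]
    have h2 := mul_le_mul_of_nonneg_left h1 (Nat.cast_nonneg u : (0 : ℝ) ≤ u)
    rw [hSL]
    linarith only [h2]
  have hlvm : ∀ i, lv S.X i = m i := by
    intro i
    have h1 : Pool.Agent.H6.N4D.LL S.X = u * Real.log 2 := hSL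
    rw [hm]
    unfold lv
    rw [h1, mul_div_assoc, div_self hlog2.ne', mul_one, Nat.floor_natCast]
  -- sums over the stretch
  have hsU : sS S U = sS S E1 - A * (sS S E0 - sS S E1) - A * sS S T := by
    rw [hU, SG_sS_sub, SG_sS_sub, SG_sS_mul, SG_sS_mul, SG_sS_sub]
  have hone : sS S (fun _ => 1) ≤ (1 + η) * (S.N * S.h) :=
    (hxa S lam k 1 hS2 hxa' hB1 (Or.inl rfl)).2
  have hsE1 : sS S E1 ≤ 2 * ((1 + η) * (S.N * S.h)) := by
    have h1 : sS S E1 ≤ sS S (fun _ => 2 * 1) := SG_sS_mono S _ _ fun n => by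
      have := (hE1b n).2
      linarith only [this]
    rw [SG_sS_mul] at h1
    linarith only [h1, hone]
  have hsT0 : 0 ≤ sS S T := by
    unfold sS
    exact Finset.sum_nonneg fun n _ => div_nonneg (hT0 n) (Nat.cast_nonneg _)
  have hs01 : sS S E1 ≤ sS S E0 + η * (S.N * S.h) := by
    have := (hxb S lam k u 1 0 hS2 hxb' hB1 (Or.inl rfl) haL (by omega)).2.1
    rw [hE1, hE0]
    exact this
  rw [hsU] at hS3
  have hs3 : sS S E0 - sS S E1 ≤ 3 / A * (S.N * S.h) := by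
    have p1 : 0 ≤ A * sS S T := mul_nonneg hA0.le hsT0
    have p2 : 0 ≤ c * (S.N * S.h) := mul_nonneg hc.le hNh
    have p3 : η * (S.N * S.h) ≤ 1 / 2 * (S.N * S.h) := mul_le_mul_of_nonneg_right hη1 hNh
    have h1 : A * (sS S E0 - sS S E1) ≤ 3 * (S.N * S.h) := by
      linarith only [p1, p2, p3, hS3, hsE1]
    rw [div_mul_eq_mul_div, le_div_iff₀ hA0]
    linarith only [h1]
  have hsT : sS S T ≤ (3 / A + η) * (S.N * S.h) := by
    have p1 : A * sS S E1 ≤ A * (sS S E0 + η * (S.N * S.h)) :=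
      mul_le_mul_of_nonneg_left hs01 hA0.le
    have p2 : 0 ≤ c * (S.N * S.h) := mul_nonneg hc.le hNh
    have p3 : η * (S.N * S.h) ≤ 1 / 2 * (S.N * S.h) := mul_le_mul_of_nonneg_right hη1 hNh
    have h1 : A * sS S T ≤ 3 * (S.N * S.h) + A * (η * (S.N * S.h)) := by
      linarith only [p1, p2, p3, hS3, hsE1]
    have h2 : (3 / A + η) * (S.N * S.h) = (3 * (S.N * S.h) + A * (η * (S.N * S.h))) / A := by
      field_simp
    rw [h2, le_div_iff₀ hA0]
    linarith only [h1]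
  have hsE1' : (c / 4 - A * η) * (S.N * S.h) ≤ sS S E1 := by
    have h1 : 0 ≤ A * sS S T := mul_nonneg hA0.le hsT0
    have h2 : -(A * (η * (S.N * S.h))) ≤ A * (sS S E0 - sS S E1) := by
      rw [← mul_neg]
      exact mul_le_mul_of_nonneg_left (by linarith only [hs01]) hA0.le
    linarith only [h1, h2, hS3]
  refine ⟨S, hS2, hx1, ?_, ?_⟩
  · -- good windows
    have hgap : ∀ i < 2 * K + 2, ∀ w : ℕ, (w = 1 ∨ w = 2) →
        κ * S.cnt (fun t => κ < sl (w * Nt S t) (S.n t) (En th lam 1 (2 ^ lv S.X i)) -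
          En th lam 1 (w * Nt S t) (S.n t)) ≤ (3 / A + ρ + 3 * η) * S.N := by
      intro i hi w hw
      obtain ⟨g1, _, g3⟩ := hxb S lam k u w i hS2 hxb' hB1 hw haL hi
      have g4 := (hxa S lam k w hS2 hxa' hB1 hw).1
      rw [← hE0] at g1
      rw [← hE1, ← hρ] at g4
      have h1 := SG_markov S hN (fun t => sl (w * Nt S t) (S.n t) (En th lam 1 (2 ^ lv S.X i)) -
          En th lam 1 (w * Nt S t) (S.n t)) κ η (3 / A + ρ + 2 * η) hη0.le
        (fun t ht => by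
          have := g3 t ht
          linarith only [this]) (by
          rw [Finset.sum_sub_distrib]
          have h2 : S.h * (∑ t ∈ S.I, sl (w * Nt S t) (S.n t) (En th lam 1 (2 ^ lv S.X i)) -
              ∑ t ∈ S.I, En th lam 1 (w * Nt S t) (S.n t)) ≤
              S.h * ((3 / A + ρ + 2 * η) * S.N) := by
            rw [mul_sub]
            linarith only [g1, g4, hs3]
          exact le_of_mul_le_mul_left h2 hh)
      refine h1.trans (le_of_eq ?_)
      ring
    have htest : ∀ i < 2 * K + 2, ∀ w : ℕ, (w = 1 ∨ w = 2) →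
        κ * S.cnt (fun t => κ < sl (w * Nt S t) (S.n t)
          (fun v => zs lam (lv S.X i) v + ts th lam (lv S.X i) v)) ≤
          (3 / A + η + 13 * W * η) * S.N := by
      intro i hi w hw
      have hGe : (fun v => zs lam (lv S.X i) v + ts th lam (lv S.X i) v) = G i := by
        rw [hG, hlvm i]
      rw [hGe]
      have hW13 : 0 < 13 * W := by linarith only [hW1]
      have hb := (hGb i hi).1
      have g1 := hxv S r k w (fun v => 1 / (13 * W) * G i v) hS2 hxv' hw (fun v => by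
        rw [abs_of_nonneg (mul_nonneg (by positivity) (hb v).1), one_div, inv_mul_le_iff₀ hW13,
          mul_one]
        exact (hb v).2)
      have g2 := (abs_le.1 g1).2
      rw [SG_sS_mul] at g2
      have h3 : ∑ t ∈ S.I, sl (w * Nt S t) (S.n t) (fun v => 1 / (13 * W) * G i v) =
          1 / (13 * W) * ∑ t ∈ S.I, sl (w * Nt S t) (S.n t) (G i) := by
        rw [Finset.mul_sum]
        exact Finset.sum_congr rfl fun t _ => SG_sl_mul _ _ _ _
      rw [h3] at g2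
      have h4 : sS S (G i) ≤ sS S T := SG_sS_mono S _ _ fun n => hTG i hi n
      have h5 : S.h * ∑ t ∈ S.I, sl (w * Nt S t) (S.n t) (G i) ≤
          S.h * ((3 / A + η + 13 * W * η) * S.N) := by
        have h6 : S.h * ∑ t ∈ S.I, sl (w * Nt S t) (S.n t) (G i) - sS S (G i) ≤
            13 * W * (η * (S.N * S.h)) := by
          have h7 : 13 * W * (S.h * (1 / (13 * W) * ∑ t ∈ S.I, sl (w * Nt S t) (S.n t) (G i)) -
              1 / (13 * W) * sS S (G i)) ≤ 13 * W * (η * (S.N * S.h)) :=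
            mul_le_mul_of_nonneg_left g2 hW13.le
          have h8 : 13 * W * (S.h * (1 / (13 * W) * ∑ t ∈ S.I, sl (w * Nt S t) (S.n t) (G i)) -
              1 / (13 * W) * sS S (G i)) =
              S.h * ∑ t ∈ S.I, sl (w * Nt S t) (S.n t) (G i) - sS S (G i) := by
            field_simp
          rw [h8] at h7
          exact h7
        linarith only [h6, h4, hsT]
      have h6 : ∑ t ∈ S.I, sl (w * Nt S t) (S.n t) (G i) ≤ (3 / A + η + 13 * W * η) * S.N :=
        le_of_mul_le_mul_left h5 hh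
      have h7 := SG_markov S hN (fun t => sl (w * Nt S t) (S.n t) (G i)) κ 0
        (3 / A + η + 13 * W * η) le_rfl
        (fun t _ => by
          have := SG_sl_nonneg (w * Nt S t) (S.n t) (G i) fun v => (hb v).1
          linarith only [this]) h6
      rw [add_zero] at h7
      exact h7
    have hall : S.cnt (fun t => ¬ Gt th κ lam S t) ≤
        S.cnt (fun t => ∃ i < 2 * K + 2,
          (κ < sl (1 * Nt S t) (S.n t) (En th lam 1 (2 ^ lv S.X i)) -
            En th lam 1 (1 * Nt S t) (S.n t) ∨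
          κ < sl (1 * Nt S t) (S.n t)
            (fun v => zs lam (lv S.X i) v + ts th lam (lv S.X i) v)) ∨
          (κ < sl (2 * Nt S t) (S.n t) (En th lam 1 (2 ^ lv S.X i)) -
            En th lam 1 (2 * Nt S t) (S.n t) ∨
          κ < sl (2 * Nt S t) (S.n t)
            (fun v => zs lam (lv S.X i) v + ts th lam (lv S.X i) v))) := by
      refine Par.cnt_mono fun t _ hG' => ?_
      by_contra hno
      apply hG'
      intro i hi w hw
      rw [hS2.hK] at hi
      obtain ⟨h1, h2⟩ := not_or.1 (fun h => hno ⟨i, hi, h⟩)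
      obtain ⟨h3, h4⟩ := not_or.1 h1
      obtain ⟨h5, h6⟩ := not_or.1 h2
      rcases hw with rfl | rfl
      · exact ⟨not_lt.1 h3, not_lt.1 h4⟩
      · exact ⟨not_lt.1 h5, not_lt.1 h6⟩
    have hper : ∀ i < 2 * K + 2, S.cnt (fun t =>
          (κ < sl (1 * Nt S t) (S.n t) (En th lam 1 (2 ^ lv S.X i)) -
            En th lam 1 (1 * Nt S t) (S.n t) ∨
          κ < sl (1 * Nt S t) (S.n t)
            (fun v => zs lam (lv S.X i) v + ts th lam (lv S.X i) v)) ∨
          (κ < sl (2 * Nt S t) (S.n t) (En th lam 1 (2 ^ lv S.X i)) -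
            En th lam 1 (2 * Nt S t) (S.n t) ∨
          κ < sl (2 * Nt S t) (S.n t)
            (fun v => zs lam (lv S.X i) v + ts th lam (lv S.X i) v))) ≤
        2 * (δ / κ) * S.N := by
      intro i hi
      have a1 := hgap i hi 1 (Or.inl rfl)
      have a2 := htest i hi 1 (Or.inl rfl)
      have a3 := hgap i hi 2 (Or.inr rfl)
      have a4 := htest i hi 2 (Or.inr rfl)
      have b1 := S.cnt_or (fun t => κ < sl (1 * Nt S t) (S.n t) (En th lam 1 (2 ^ lv S.X i)) -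
            En th lam 1 (1 * Nt S t) (S.n t) ∨
          κ < sl (1 * Nt S t) (S.n t)
            (fun v => zs lam (lv S.X i) v + ts th lam (lv S.X i) v))
        (fun t => κ < sl (2 * Nt S t) (S.n t) (En th lam 1 (2 ^ lv S.X i)) -
            En th lam 1 (2 * Nt S t) (S.n t) ∨
          κ < sl (2 * Nt S t) (S.n t)
            (fun v => zs lam (lv S.X i) v + ts th lam (lv S.X i) v))
      have b2 := S.cnt_or (fun t => κ < sl (1 * Nt S t) (S.n t) (En th lam 1 (2 ^ lv S.X i)) -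
            En th lam 1 (1 * Nt S t) (S.n t))
        (fun t => κ < sl (1 * Nt S t) (S.n t)
            (fun v => zs lam (lv S.X i) v + ts th lam (lv S.X i) v))
      have b3 := S.cnt_or (fun t => κ < sl (2 * Nt S t) (S.n t) (En th lam 1 (2 ^ lv S.X i)) -
            En th lam 1 (2 * Nt S t) (S.n t))
        (fun t => κ < sl (2 * Nt S t) (S.n t)
            (fun v => zs lam (lv S.X i) v + ts th lam (lv S.X i) v))
      refine (b1.trans (add_le_add b2 b3)).trans ?_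
      have h1 : 6 / A + ρ + (4 + 13 * W) * η ≤ δ := by linarith only [hA2, hr1, hη2]
      have h2 : 2 * ((6 / A + ρ + (4 + 13 * W) * η) * S.N) ≤ 2 * (δ * S.N) := by
        have := mul_le_mul_of_nonneg_right h1 hN
        linarith only [this]
      have h3 : 6 / A = 3 / A + 3 / A := by ring
      rw [show 2 * (δ / κ) * S.N = 2 * (δ * S.N) / κ by ring, le_div_iff₀ hκ]
      rw [h3] at h2
      linarith only [h2, a1, a2, a3, a4]
    refine hall.trans ((SG_union S (2 * K + 2) _ _ hper).trans (le_of_eq ?_))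
    push_cast
    rw [hδ]
    field_simp
    ring
  · -- large energy
    have g4 := (hxa S lam k 1 hS2 hxa' hB1 (Or.inl rfl)).1
    rw [← hE1, ← hρ] at g4
    simp only [one_mul] at g4
    refine SG_share S hN (fun t => En th lam 1 (Nt S t) (S.n t)) c hc (fun t ht => ?_) ?_
    · have h1 := ((hxn S k hS2 hxn').2.2.2.2.2.1 t ht).1
      have h2 : 1 ≤ Nt S t := by exact_mod_cast h1
      obtain ⟨_, _, g2, _⟩ := hRB th lam 1 (Nt S t) (S.n t) hth hB1 le_rfl h2
      refine g2.trans ?_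
      have h3 : ((1 : ℕ) : ℝ) / (Nt S t : ℝ) ≤ 1 := by
        rw [Nat.cast_one]
        exact div_le_one_of_le₀ h1 (Nat.cast_nonneg _)
      linarith only [h3]
    · have h1 : S.h * (c / 6 * S.N) ≤ S.h * ∑ t ∈ S.I, En th lam 1 (Nt S t) (S.n t) := by
        have h2 : (c / 4 - A * η - ρ - η) * (S.N * S.h) ≤
            S.h * ∑ t ∈ S.I, En th lam 1 (Nt S t) (S.n t) := by
          linarith only [g4, hsE1']
        have h3 : c / 6 ≤ c / 4 - A * η - ρ - η := by linarith only [hr2, hη3]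
        have h4 := mul_le_mul_of_nonneg_right h3 hNh
        linarith only [h2, h4]
      exact le_of_mul_le_mul_left h1 hh

end Pool.Agent.H3.GW.T3
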