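import Pool.Agent.H56.E.H4.G3.SW
import Pool.Agent.H3.GW.Defs
import Pool.Agent.H3.GW.TargetsH

/-!
# Row SW with decoupled prime numbers: the choice of the stretch
-/

set_option autoImplicit false

open Finset
open Pool.Agent.H6.N4D Pool.Agent.H78.GX.H6.N4D Pool.Agent.H93.EB Pool.Agent.H93.GS Pool.Agent.H56.G3 Pool.Agent.H56.E.H56.G3

namespace Pool.Agent.H3.GW.T2

open Pool.Agent.H56.E.H4.G3 Pool.Agent.H28.NW Pool.Agent.H3.GW
/-- one scale -/
theorem SW_one (K r u k : ℕ) (A c δ X Z v ℓ L : ℝ) (U : ℕ → ℝ) (hK : 1 ≤ K) (hA : 0 ≤ A)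
    (hc : 0 < c) (hδ : 0 < δ) (hδ1 : δ ≤ 1 / 2) (hX0 : 0 < X) (hv : 0 ≤ v) (hℓ : v + ℓ = Real.log X)
    (hXZ : X ≤ Z) (hZ1 : 1 ≤ Z) (hL : L = LL Z) (hLu : L = u * Real.log 2)
    (hk : k = 2 ^ (2 * K + 12) * u) (hLr : (r : ℝ) + 20 ≤ L) (hkℓ : 4 * (k : ℝ) ≤ δ * ℓ)
    (hU : ∀ n, U n ≤ A)
    (hS : ∀ S : Par, S.X = Z → Str3 S K r k → sS S U < c / 2 * (S.N * S.h)) :
    ∑ n ∈ Ico ⌊Real.exp (v + δ * ℓ)⌋₊ ⌊X⌋₊, U n / n ≤ c / 2 * ℓ + A * (13 * K * L + 10) := by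
  have hKr : (1 : ℝ) ≤ K := by exact_mod_cast hK
  have hrr : (0 : ℝ) ≤ r := Nat.cast_nonneg r
  have hexpℓ : Real.exp (v + ℓ) = X := by rw [hℓ]; exact Real.exp_log hX0
  have hL20 : 20 ≤ L := by linarith
  have hKL : 0 < K * L := by positivity
  have hKL2 : L ≤ K * L := le_mul_of_one_le_left (by linarith) hKr
  have hlog2 : 0 < Real.log 2 := Real.log_pos one_lt_two
  have hlog2l : 1 / 2 ≤ Real.log 2 := by
    have := Real.log_two_gt_d9
    linarith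
  have hlog2' : Real.log 2 ≤ 1 := by
    have := Real.log_two_lt_d9
    linarith
  have huL : L ≤ u := by
    rw [hLu]
    exact mul_le_of_le_one_right (Nat.cast_nonneg u) hlog2'
  have hkr : (k : ℝ) = 4096 * 2 ^ (2 * K) * u := by
    rw [hk, pow_add]
    push_cast
    ring
  have hK4 : (K : ℝ) ≤ 2 ^ (2 * K) := by
    have h1 : K ≤ 2 ^ (2 * K) := (Nat.lt_two_pow_self.le).trans
      (Nat.pow_le_pow_right (by norm_num) (by omega))
    exact_mod_cast h1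
  have hkKL : 4096 * (K * L) ≤ k := by
    rw [hkr]
    have h1 : K * L ≤ 2 ^ (2 * K) * u :=
      mul_le_mul hK4 huL (by linarith) (by positivity)
    linarith
  have hrk : r ≤ k := by
    have h1 : (r : ℝ) ≤ k := by linarith
    exact_mod_cast h1
  have hk0 : (2 : ℝ) ^ (2 * K + 12) * L ≤ k := by
    rw [hk]
    push_cast
    exact mul_le_mul_of_nonneg_left huL (by positivity)
  have hℓ0 : 780 ≤ ℓ := by
    have h1 : δ * ℓ ≤ 1 / 2 * ℓ := by
      have h2 : 0 ≤ ℓ := by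
        by_contra hneg
        push Not at hneg
        have := mul_neg_of_pos_of_neg hδ hneg
        linarith
      exact mul_le_mul_of_nonneg_right hδ1 h2
    linarith
  -- the mesh
  obtain ⟨J, hJ⟩ := pow_unbounded_of_one_lt (Z ^ 5) (one_lt_two (α := ℝ))
  have h2J : (0 : ℝ) < 2 ^ J := by positivity
  obtain ⟨h, hh⟩ : ∃ h, h = Real.log 2 / 2 ^ J := ⟨_, rfl⟩
  have hh0 : 0 < h := by rw [hh]; positivity
  have hhJ : h * 2 ^ J = Real.log 2 := by rw [hh]; field_simp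
  have hh5 : h * Z ^ 5 ≤ 1 := by
    calc h * Z ^ 5 ≤ h * 2 ^ J := mul_le_mul_of_nonneg_left hJ.le hh0.le
      _ = Real.log 2 := hhJ
      _ ≤ 1 := hlog2'
  have hh1 : h ≤ 1 := by
    have h1 : 1 ≤ Z ^ 5 := one_le_pow₀ hZ1
    have h2 : h * 1 ≤ h * Z ^ 5 := mul_le_mul_of_nonneg_left h1 hh0.le
    linarith
  -- the number of the steps
  obtain ⟨N', hN'⟩ : ∃ N' : ℕ, N' = ⌈12.5 * (K * L) / h⌉₊ := ⟨_, rfl⟩
  have hN1 : 12.5 * (K * L) ≤ N' * h := by
    have h1 : 12.5 * (K * L) / h ≤ N' := by rw [hN']; exact Nat.le_ceil _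
    rwa [div_le_iff₀ hh0] at h1
  have hN2 : N' * h ≤ 12.5 * (K * L) + h := by
    have h1 : (N' : ℝ) < 12.5 * (K * L) / h + 1 := by
      rw [hN']; exact Nat.ceil_lt_add_one (by positivity)
    have h2 : (N' : ℝ) * h ≤ (12.5 * (K * L) / h + 1) * h :=
      mul_le_mul_of_nonneg_right h1.le hh0.le
    have h3 : (12.5 * (K * L) / h + 1) * h = 12.5 * (K * L) + h := by field_simp
    linarith
  obtain ⟨D, hD⟩ : ∃ D, D = (N' : ℝ) * h := ⟨_, rfl⟩
  rw [← hD] at hN1 hN2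
  have hD1 : 12 * (K * L) ≤ D := by linarith
  have hD2 : D ≤ 13 * (K * L) := by linarith
  have hD0 : 0 < D := by linarith
  -- the first point
  obtain ⟨a₀, ha₀⟩ : ∃ a₀ : ℤ, a₀ = ⌈(v + δ * ℓ) / h⌉ := ⟨_, rfl⟩
  have ha1 : v + δ * ℓ ≤ h * a₀ := by
    have h1 : (v + δ * ℓ) / h ≤ a₀ := by rw [ha₀]; exact Int.le_ceil _
    rw [div_le_iff₀ hh0] at h1
    linarith
  have ha2 : h * a₀ ≤ v + δ * ℓ + h := by
    have h1 : (a₀ : ℝ) < (v + δ * ℓ) / h + 1 := by rw [ha₀]; exact Int.ceil_lt_add_one _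
    have h2 : (a₀ : ℝ) * h ≤ ((v + δ * ℓ) / h + 1) * h := mul_le_mul_of_nonneg_right h1.le hh0.le
    have h3 : ((v + δ * ℓ) / h + 1) * h = v + δ * ℓ + h := by field_simp
    linarith
  -- the number of the stretches
  have hδℓ : 0 < δ * ℓ := by positivity
  have hrest : 1 ≤ ℓ - δ * ℓ := by
    have h1 : δ * ℓ ≤ 1 / 2 * ℓ := mul_le_mul_of_nonneg_right hδ1 (by linarith)
    linarith
  obtain ⟨m, hm⟩ : ∃ m : ℕ, m = ⌊(ℓ - δ * ℓ - 1) / D⌋₊ := ⟨_, rfl⟩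
  have hm1 : (m : ℝ) * D ≤ ℓ - δ * ℓ - 1 := by
    have h1 : (m : ℝ) ≤ (ℓ - δ * ℓ - 1) / D := by
      rw [hm]; exact Nat.floor_le (by apply div_nonneg <;> linarith)
    rwa [le_div_iff₀ (by linarith)] at h1
  have hm2 : ℓ - δ * ℓ - 1 ≤ m * D + D := by
    have h1 : (ℓ - δ * ℓ - 1) / D < m + 1 := by rw [hm]; exact Nat.lt_floor_add_one _
    rw [div_lt_iff₀ (by linarith)] at h1
    linarith
  -- the stretches
  obtain ⟨a, ha⟩ : ∃ a : ℕ → ℤ, a = fun i : ℕ => a₀ + (i : ℤ) * (N' : ℤ) := ⟨_, rfl⟩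
  have har : ∀ i, h * (a i : ℝ) = h * a₀ + i * D := by
    intro i
    rw [ha, hD]
    push_cast
    ring
  obtain ⟨x, hx⟩ : ∃ x : ℕ → ℝ, x = fun i => Real.exp (h * (a i : ℝ)) := ⟨_, rfl⟩
  have hxe : ∀ i, x i = Real.exp (h * a₀ + i * D) := fun i => by rw [hx]; simp only [har]
  have hxs : ∀ i, x (i + 1) = x i * Real.exp D := by
    intro i
    rw [hxe, hxe, ← Real.exp_add]
    congr 1
    push_cast
    ring
  have hx1 : ∀ i, Real.exp (v + δ * ℓ) ≤ x i := by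
    intro i
    rw [hxe]
    apply Real.exp_le_exp.2
    have : 0 ≤ (i : ℝ) * D := by positivity
    linarith
  have hx2 : ∀ i ≤ m, x i ≤ X := by
    intro i hi
    rw [← hexpℓ, hxe]
    apply Real.exp_le_exp.2
    have h2 : (i : ℝ) ≤ m := by exact_mod_cast hi
    have h3 : (i : ℝ) * D ≤ m * D := mul_le_mul_of_nonneg_right h2 hD0.le
    linarith
  have hxpos : ∀ i, 0 < x i := fun i => by rw [hxe]; exact Real.exp_pos _
  -- the conditions
  have hNh : ∀ i, (((a (i + 1) : ℤ) : ℝ) - (a i : ℝ)) * h = D := by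
    intro i
    rw [ha, hD]
    push_cast
    ring
  have hkey : Real.exp (100 * (K * L)) * (8 * Real.exp D) ≤ 2 ^ (k - r) := by
    have h1 : (2 : ℝ) ^ (k - r) = Real.exp (((k : ℝ) - r) * Real.log 2) := by
      rw [← Nat.cast_sub hrk, mul_comm, Real.exp_mul, Real.exp_log two_pos, Real.rpow_natCast]
    have h2 : Real.exp (100 * (K * L)) * (8 * Real.exp D) =
        Real.exp (100 * (K * L) + (Real.log 8 + D)) := by
      rw [Real.exp_add, Real.exp_add, Real.exp_log (by norm_num)]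
    rw [h1, h2]
    apply Real.exp_le_exp.2
    have h3 : Real.log 8 ≤ 7 := by
      have := Real.log_le_sub_one_of_pos (x := 8) (by norm_num)
      linarith
    have h7 : (r : ℝ) ≤ k := by exact_mod_cast hrk
    have h8 : ((k : ℝ) - r) * (1 / 2) ≤ (k - r) * Real.log 2 :=
      mul_le_mul_of_nonneg_left hlog2l (by linarith)
    linarith
  have h2k : (2 : ℝ) ^ k ≤ Real.exp k := by
    have h5 : (2 : ℝ) ≤ Real.exp 1 := by
      have := Real.add_one_le_exp (1 : ℝ)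
      linarith
    calc (2 : ℝ) ^ k ≤ Real.exp 1 ^ k := pow_le_pow_left₀ (by norm_num) h5 _
      _ = Real.exp k := by rw [← Real.exp_nat_mul, mul_one]
  have h2k4 : ((2 : ℝ) ^ k) ^ 4 ≤ Real.exp (v + δ * ℓ) := by
    calc ((2 : ℝ) ^ k) ^ 4 ≤ Real.exp k ^ 4 := pow_le_pow_left₀ (by positivity) h2k 4
      _ = Real.exp (4 * k) := by
        rw [← Real.exp_nat_mul]
        norm_num
      _ ≤ Real.exp (v + δ * ℓ) := Real.exp_le_exp.2 (by linarith)
  have h1k : (1 : ℝ) ≤ 2 ^ k := one_le_pow₀ one_le_two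
  have h2kr : (2 : ℝ) ^ (k - r) ≤ 2 ^ k := pow_le_pow_right₀ one_le_two (Nat.sub_le k r)
  have hPk : Real.exp (100 * (K * L)) ≤ 2 ^ k := by
    have h1 : 1 ≤ 8 * Real.exp D := by
      have := Real.one_le_exp hD0.le
      linarith
    have h2 := le_mul_of_one_le_right (Real.exp_pos (100 * (K * L))).le h1
    linarith
  have hstr : ∀ i < m, Str3 ⟨Z, h, 2 ^ (k - r) / (8 * x (i + 1)), J, K, a i, a (i + 1)⟩ K r k := by
    intro i hi
    have hxi := hxpos (i + 1)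
    have hx0 : x i = Real.exp (h * (a i : ℝ)) := by rw [hx]
    have hx1' : x (i + 1) = Real.exp (h * (a (i + 1) : ℝ)) := by rw [hx]
    refine ⟨⟨hZ1, hK, hh0, hhJ, hh5, ?_, ?_, ?_, ?_, ?_, ?_⟩, rfl, ?_, ?_, hrk, ?_, ?_⟩
    · show 12 * (K : ℝ) * LL Z ≤ (((a (i + 1) : ℤ) : ℝ) - (a i : ℝ)) * h
      rw [hNh, ← hL]
      linarith
    · show (((a (i + 1) : ℤ) : ℝ) - (a i : ℝ)) * h ≤ 13 * (K : ℝ) * LL Z
      rw [hNh, ← hL]
      linarith
    · show 0 < 2 ^ (k - r) / (8 * x (i + 1))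
      positivity
    · show 2 ^ (k - r) / (8 * x (i + 1)) * PP Z ^ (100 * K) ≤ 1
      rw [div_mul_eq_mul_div, div_le_one (by positivity), PP_pow, ← hL]
      have h0 : ((100 * K : ℕ) : ℝ) * L = 100 * (K * L) := by push_cast; ring
      rw [h0]
      have h1 : (2 : ℝ) ^ (k - r) * Real.exp (100 * (K * L)) ≤ 2 ^ k * 2 ^ k :=
        mul_le_mul h2kr hPk (Real.exp_pos _).le (by positivity)
      have h2 : (2 : ℝ) ^ k * 2 ^ k ≤ ((2 : ℝ) ^ k) ^ 4 := by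
        have h4 : ((2 : ℝ) ^ k) ^ 4 = 2 ^ k * 2 ^ k * (2 ^ k * 2 ^ k) := by ring
        rw [h4]
        exact le_mul_of_one_le_right (by positivity) (one_le_mul_of_one_le_of_one_le h1k h1k)
      have h3 := hx1 (i + 1)
      linarith
    · show PP Z ^ (100 * K) ≤ 2 ^ (k - r) / (8 * x (i + 1)) * Real.exp (h * (a i : ℝ))
      rw [← hx0, PP_pow, ← hL]
      have h1 := hxpos i
      have h2 : 2 ^ (k - r) / (8 * x (i + 1)) * x i = 2 ^ (k - r) / (8 * Real.exp D) := by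
        rw [hxs]
        have h3 := Real.exp_pos D
        field_simp
      rw [h2, le_div_iff₀ (by positivity)]
      refine le_trans (le_of_eq ?_) hkey
      congr 2
      push_cast
      ring
    · show Real.exp (h * (a (i + 1) : ℝ)) ≤ Z
      rw [← hx1']
      exact (hx2 (i + 1) hi).trans hXZ
    · show ((2 : ℝ) ^ k) ^ 4 ≤ Real.exp (h * (a i : ℝ))
      rw [← hx0]
      exact h2k4.trans (hx1 i)
    · show 2 ^ (k - r) / (8 * x (i + 1)) * (8 * Real.exp (h * (a (i + 1) : ℝ))) = 2 ^ (k - r)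
      rw [← hx1']
      field_simp
    · show (2 : ℝ) ^ (2 * K + 12) * LL Z ≤ k
      rw [← hL]
      exact hk0
    · show 25 / 2 * (K : ℝ) * LL Z ≤ (((a (i + 1) : ℤ) : ℝ) - (a i : ℝ)) * h
      rw [hNh, ← hL]
      linarith
  have hsmall : ∀ i < m, ∑ n ∈ Ico ⌊x i⌋₊ ⌊x (i + 1)⌋₊, U n / n ≤ c / 2 * D := by
    intro i hi
    have h1 := hS _ rfl (hstr i hi)
    have h2 : sS ⟨Z, h, 2 ^ (k - r) / (8 * x (i + 1)), J, K, a i, a (i + 1)⟩ U =
        ∑ n ∈ Ico ⌊x i⌋₊ ⌊x (i + 1)⌋₊, U n / n := by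
      rw [hx]
      rfl
    have h3 : (Par.N ⟨Z, h, 2 ^ (k - r) / (8 * x (i + 1)), J, K, a i, a (i + 1)⟩) * h = D :=
      hNh i
    rw [h2] at h1
    refine h1.le.trans (le_of_eq ?_)
    show c / 2 * (_ * h) = _
    rw [h3]
  -- the sum
  have hmon : ∀ i, ⌊x i⌋₊ ≤ ⌊x (i + 1)⌋₊ := by
    intro i
    apply Nat.floor_le_floor
    rw [hxs]
    exact le_mul_of_one_le_right (hxpos i).le (Real.one_le_exp hD0.le)
  obtain ⟨t1, t2⟩ := SW_tel (fun i => ⌊x i⌋₊) hmon (fun n => U n / n) m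
  have hmid : ∑ n ∈ Ico ⌊x 0⌋₊ ⌊x m⌋₊, U n / n ≤ m * (c / 2 * D) := by
    rw [← t2]
    refine (Finset.sum_le_card_nsmul (range m) _ (c / 2 * D) fun i hi => ?_).trans (le_of_eq ?_)
    · exact hsmall i (Finset.mem_range.1 hi)
    · rw [Finset.card_range, nsmul_eq_mul]
  have hmid2 : (m : ℝ) * (c / 2 * D) ≤ c / 2 * ℓ := by
    have h1 : c / 2 * (m * D) ≤ c / 2 * ℓ :=
      mul_le_mul_of_nonneg_left (by linarith) (by positivity)
    have h2 : (m : ℝ) * (c / 2 * D) = c / 2 * (m * D) := by ring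
    rw [h2]
    exact h1
  have h2e : 2 ≤ Real.exp (v + δ * ℓ) := by
    have h1 := Real.add_one_le_exp (v + δ * ℓ)
    linarith
  obtain ⟨p1, p2⟩ := SW_fl h2e
  rw [Real.log_exp] at p2
  have hx0a : Real.exp (v + δ * ℓ) ≤ x 0 := hx1 0
  have hfirst : ∑ n ∈ Ico ⌊Real.exp (v + δ * ℓ)⌋₊ ⌊x 0⌋₊, U n / n ≤ A * 3 := by
    refine (SW_U hA hU _ _ p1 (Nat.floor_le_floor hx0a)).trans
      (mul_le_mul_of_nonneg_left ?_ hA)
    have h1 : Real.log (⌊x 0⌋₊ : ℝ) ≤ Real.log (x 0) := by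
      refine Real.log_le_log ?_ (Nat.floor_le (hxpos 0).le)
      exact_mod_cast p1.trans (Nat.floor_le_floor hx0a)
    have h2 : Real.log (x 0) = h * a₀ := by
      rw [hxe, Real.log_exp]
      push_cast
      ring
    linarith
  have hxmY := hx2 m le_rfl
  obtain ⟨q1, q2⟩ := SW_fl (x := x m) (h2e.trans (hx1 m))
  have hlast : ∑ n ∈ Ico ⌊x m⌋₊ ⌊X⌋₊, U n / n ≤ A * (13 * K * L + 3) := by
    refine (SW_U hA hU _ _ q1 (Nat.floor_le_floor hxmY)).trans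
      (mul_le_mul_of_nonneg_left ?_ hA)
    have h1 : Real.log (⌊X⌋₊ : ℝ) ≤ v + ℓ := by
      rw [hℓ]
      refine Real.log_le_log ?_ (Nat.floor_le hX0.le)
      exact_mod_cast q1.trans (Nat.floor_le_floor hxmY)
    have h2 : Real.log (x m) = h * a₀ + m * D := by rw [hxe, Real.log_exp]
    rw [h2] at q2
    linarith
  rw [← Finset.sum_Ico_consecutive _ (Nat.floor_le_floor hx0a)
    (t1.trans (Nat.floor_le_floor hxmY)), ← Finset.sum_Ico_consecutive _ t1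
    (Nat.floor_le_floor hxmY)]
  have hfin : A * (13 * K * L + 10) = A * 3 + A * (13 * K * L + 3) + A * 4 := by ring
  rw [hfin]
  have hA4 : 0 ≤ A * 4 := by positivity
  linarith

theorem pf_SW : W_SWE := by
  classical
  intro K r A c hK hA hc
  have hA0 : 0 ≤ A := by linarith
  have hA1 : 0 < A := by linarith
  obtain ⟨δ, hδ0, hδ1, hδ2⟩ : ∃ δ : ℝ, 0 < δ ∧ δ ≤ 1 / 2 ∧ A * δ ≤ c / 8 := by
    refine ⟨min (1 / 2) (c / 8 / A), lt_min (by norm_num) (by positivity), min_le_left _ _, ?_⟩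
    have h1 : min (1 / 2) (c / 8 / A) ≤ c / 8 / A := min_le_right _ _
    rw [le_div_iff₀ hA1] at h1
    linarith
  have E1 : ∀ᶠ t : ℝ in Filter.atTop, (r : ℝ) + 20 ≤ t ^ (19 / 20 : ℝ) :=
    (tendsto_rpow_atTop (by norm_num)).eventually_ge_atTop _
  obtain ⟨t₀, ht₀⟩ := Filter.eventually_atTop.1 E1
  obtain ⟨X₂, hX₂⟩ := Wn.pow_small (191 / 200) (by norm_num) (4 / δ)
  obtain ⟨X₃, hX₃⟩ := Wn.pow_small (191 / 200) (by norm_num) (A * (13 * K) / (c / 8))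
  refine ⟨max t₀ (max X₂ (max X₃ (max ((12 * A + 1) / (c / 8)) 1))),
    fun X u U hX hu1 hu2 hU hlg => ?_⟩
  have g0 : t₀ ≤ X.T := ((le_max_left _ _).trans hX).trans X.L_le_T
  have hX' := (le_max_right _ _).trans hX
  have g2' := hX₂ X ((le_max_left _ _).trans hX')
  have hX'' := (le_max_right _ _).trans hX'
  have g3' := hX₃ X ((le_max_left _ _).trans hX'')
  have hX3 := (le_max_right _ _).trans hX''
  have g4 : (12 * A + 1) / (c / 8) ≤ X.L := (le_max_left _ _).trans hX3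
  have g7 : 1 ≤ X.L := (le_max_right _ _).trans hX3
  have g1 := ht₀ X.T g0
  rw [div_le_iff₀ (by positivity)] at g4
  have hX0 : (0 : ℝ) < X.hi := X.hi_pos
  have hv0 : 0 ≤ Real.log X.lo := Real.log_nonneg (by exact_mod_cast X.one_le)
  have hvl : Real.log X.lo + X.L = Real.log X.hi := by unfold Wn.L; ring
  have hev : Real.exp (Real.log X.lo) = X.lo := Real.exp_log X.lo_pos
  have hT0 : 0 ≤ X.T := X.T_nonneg
  have hTX : Real.log X.hi = X.T := rfl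
  obtain ⟨v, hvd⟩ : ∃ v, v = Real.log X.lo := ⟨_, rfl⟩
  obtain ⟨l, hl⟩ : ∃ l, l = X.L := ⟨_, rfl⟩
  obtain ⟨T, hTd⟩ : ∃ T, T = X.T := ⟨_, rfl⟩
  rw [← hvd] at hv0 hvl hev
  rw [← hl] at hlg g2' g3' g4 g7 hvl
  rw [← hTd] at g0 g1 g2' g3' hu1 hu2 hT0 hTX
  have hl0 : 0 ≤ l := by linarith
  have hk4 : 4 * T ^ (191 / 200 : ℝ) ≤ δ * l := by
    have h1 : 4 * T ^ (191 / 200 : ℝ) = δ * (4 / δ * T ^ (191 / 200 : ℝ)) := by
      field_simp
    rw [h1]
    exact mul_le_mul_of_nonneg_left g2' hδ0.le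
  have hk5 : A * (13 * K) * T ^ (191 / 200 : ℝ) ≤ c / 8 * l := by
    have h1 : A * (13 * K) * T ^ (191 / 200 : ℝ) =
        c / 8 * (A * (13 * K) / (c / 8) * T ^ (191 / 200 : ℝ)) := by
      field_simp
    rw [h1]
    exact mul_le_mul_of_nonneg_left g3' (by positivity)
  -- the formal range
  obtain ⟨L, hL⟩ : ∃ L, L = (u : ℝ) * Real.log 2 := ⟨_, rfl⟩
  rw [← hL] at hu1
  have hLr : (r : ℝ) + 20 ≤ L := g1.trans hu1
  have hL0 : 0 < L := by
    have : (0 : ℝ) ≤ r := Nat.cast_nonneg r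
    linarith
  obtain ⟨Z, hZ⟩ : ∃ Z, Z = Real.exp (L ^ (20 / 19 : ℝ)) := ⟨_, rfl⟩
  have hZlog : Real.log Z = L ^ (20 / 19 : ℝ) := by rw [hZ, Real.log_exp]
  have hLZ : L = LL Z := by
    unfold Pool.Agent.H6.N4D.LL
    rw [hZlog, ← Real.rpow_mul hL0.le]
    norm_num
  have hlZ : T ≤ L ^ (20 / 19 : ℝ) := by
    have h1 : (T ^ (19 / 20 : ℝ)) ^ (20 / 19 : ℝ) ≤ L ^ (20 / 19 : ℝ) :=
      Real.rpow_le_rpow (by positivity) hu1 (by norm_num)
    rw [← Real.rpow_mul hT0] at h1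
    norm_num at h1
    exact h1
  have hXZ : (X.hi : ℝ) ≤ Z := by
    rw [hZ, ← Real.log_le_iff_le_exp hX0, hTX]
    exact hlZ
  have hZ1 : 1 ≤ Z := by
    rw [hZ]
    exact Real.one_le_exp (by positivity)
  obtain ⟨k, hk⟩ : ∃ k : ℕ, k = 2 ^ (2 * K + 12) * u := ⟨_, rfl⟩
  have hkl : (k : ℝ) ≤ T ^ (191 / 200 : ℝ) := by
    rw [hk]
    push_cast
    exact hu2
  by_contra hno
  push Not at hno
  have hone := SW_one K r u k A c δ X.hi Z v l L U hK hA0 hc hδ0 hδ1 hX0 hv0 hvl hXZ hZ1 hLZ hL hk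
    hLr (by linarith) hU (by
      intro S hSX hS3
      refine hno S ?_ (by rw [hSX]; exact hXZ) (by rw [← hk]; exact hS3)
      show LL S.X = u * Real.log 2
      rw [hSX, ← hLZ, hL])
  have hfl : ⌊(X.hi : ℝ)⌋₊ = X.hi := Nat.floor_natCast X.hi
  rw [hfl] at hone
  have hlow : X.lo ≤ ⌊Real.exp (v + δ * l)⌋₊ := by
    apply Nat.le_floor
    rw [← hev]
    apply Real.exp_le_exp.2
    have := mul_nonneg hδ0.le hl0
    linarith
  have hlow1 : 1 ≤ ⌊Real.exp (v + δ * l)⌋₊ := X.one_le.trans hlow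
  have hexl : Real.exp (v + δ * l) ≤ X.hi := by
    rw [← Real.exp_log hX0, ← hvl]
    apply Real.exp_le_exp.2
    have := mul_le_mul_of_nonneg_right hδ1 hl0
    linarith
  have hlowX : ⌊Real.exp (v + δ * l)⌋₊ ≤ X.hi := by
    rw [← hfl]
    exact Nat.floor_le_floor hexl
  have hsm := SW_U hA0 hU X.lo ⌊Real.exp (v + δ * l)⌋₊ X.one_le hlow
  have hlogf : Real.log (⌊Real.exp (v + δ * l)⌋₊ : ℝ) ≤ v + δ * l := by
    have h1 : Real.log (⌊Real.exp (v + δ * l)⌋₊ : ℝ) ≤ Real.log (Real.exp (v + δ * l)) :=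
      Real.log_le_log (by exact_mod_cast hlow1) (Nat.floor_le (Real.exp_pos _).le)
    rwa [Real.log_exp] at h1
  have hsm2 : ∑ n ∈ Ico X.lo ⌊Real.exp (v + δ * l)⌋₊, U n / n ≤ A * (1 + δ * l) := by
    refine hsm.trans (mul_le_mul_of_nonneg_left ?_ hA0)
    rw [← hvd]
    linarith
  have hX1' : X.lo ≤ X.hi := hlow.trans hlowX
  have hlast : U X.hi / X.hi ≤ A := by
    have h1 : (1 : ℝ) ≤ X.hi := by exact_mod_cast X.one_le.trans hX1'
    calc U X.hi / X.hi ≤ A / X.hi := div_le_div_of_nonneg_right (hU X.hi) (by linarith)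
      _ ≤ A := div_le_self hA0 h1
  have htot : wlg X U = ∑ n ∈ Ico X.lo ⌊Real.exp (v + δ * l)⌋₊, U n / n +
      ∑ n ∈ Ico ⌊Real.exp (v + δ * l)⌋₊ X.hi, U n / n + U X.hi / X.hi := by
    unfold wlg
    have h1 : Icc X.lo X.hi = Ico X.lo (X.hi + 1) := by
      ext n
      rw [mem_Icc, mem_Ico]
      omega
    rw [Finset.sum_Ico_consecutive _ hlow hlowX, ← Finset.sum_Ico_succ_top hX1', h1]
  rw [htot] at hlg
  have hLk : L ≤ T ^ (191 / 200 : ℝ) := by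
    refine le_trans ?_ hkl
    have h4 : L ≤ u := by
      rw [hL]
      refine mul_le_of_le_one_right (Nat.cast_nonneg u) ?_
      have := Real.log_two_lt_d9
      linarith
    have h5 : (u : ℝ) ≤ k := by
      rw [hk]
      push_cast
      exact le_mul_of_one_le_left (Nat.cast_nonneg u) (one_le_pow₀ one_le_two)
    exact h4.trans h5
  have h13 : A * (13 * K) * L ≤ A * (13 * K) * T ^ (191 / 200 : ℝ) :=
    mul_le_mul_of_nonneg_left hLk (by positivity)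
  have hδl : A * (δ * l) ≤ c / 8 * l := by
    have := mul_le_mul_of_nonneg_right hδ2 hl0
    linarith
  have e2 : A * (1 + δ * l) = A + A * (δ * l) := by ring
  have e3 : A * (13 * K * L + 10) = A * (13 * K) * L + 10 * A := by ring
  rw [e2] at hsm2
  rw [e3] at hone
  have e4 : c * l = c / 2 * l + c / 8 * l + c / 8 * l + c / 8 * l + c / 8 * l := by ring
  have e5 : l * (c / 8) = c / 8 * l := by ring
  rw [e5] at g4
  rw [e4] at hlg
  have hcl : 0 ≤ c / 8 * l := by positivity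
  linarith

end Pool.Agent.H3.GW.T2
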