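import Pool.Agent.H56.E.H18.G3.SZ
import Pool.Agent.H3.GW.Defs
import Pool.Agent.H3.GW.TargetsH

/-!
Module SZ of the board gs3_modules.
-/

set_option autoImplicit false

namespace Pool.Agent.H3.GW.T1

open Pool.Agent.H56.E.H18.G3 Pool.Agent.H28.NW Pool.Agent.H3.GW
open Pool.Agent.H18.G3

open Finset Pool.Agent.H56.G3 Pool.Agent.H56.E.H56.G3 Pool.Agent.H6.N4D
  Pool.Agent.H78.GX.H6.N4D Pool.Agent.H93.EB Pool.Agent.H93.GS

theorem pf_SZ (hBAB : W_BAB) : W_SZE := by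
  intro th lam m hth _ hl hm X hX
  set F : ℕ → ℝ → ℝ := fun v α => ∑ q ∈ QQ m, 1 / (q : ℝ) * zz lam q (2 ^ m) v α (fun _ => 1) ^ 2
    with hF
  have hF0 : ∀ v α, 0 ≤ F v α := by
    intro v α
    exact Finset.sum_nonneg fun q _ => by positivity
  obtain ⟨W, hW⟩ : ∃ W : ℝ, W = ∑ q ∈ QQ m, 1 / (q : ℝ) := ⟨_, rfl⟩
  have hF9 : ∀ v α, F v α ≤ 9 * W := by
    intro v α
    calc F v α ≤ ∑ q ∈ QQ m, 1 / (q : ℝ) * 9 := by
          refine Finset.sum_le_sum fun q hq => ?_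
          obtain ⟨h1, h2⟩ := sz_q m q hq
          obtain ⟨z0, z3⟩ := sz_zz lam hl q (2 ^ m) v h1 h2 α
          refine mul_le_mul_of_nonneg_left ?_ (by positivity)
          nlinarith
      _ = 9 * ∑ q ∈ QQ m, 1 / (q : ℝ) := by
          rw [← Finset.sum_mul, mul_comm]
      _ ≤ 9 * W := by rw [hW]
  have hbd : ∀ v, BddAbove (Set.range (F v)) := by
    intro v
    refine ⟨9 * W, ?_⟩
    rintro _ ⟨α, rfl⟩
    exact hF9 v α
  have hzs : ∀ v, zs lam m v = ⨆ α : ℝ, F v α := fun v => rfl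
  have hle : ∀ v α, F v α ≤ zs lam m v := by
    intro v α
    rw [hzs]
    exact le_ciSup (hbd v) α
  refine ⟨?_, rfl⟩
  · obtain ⟨-, -, hA, -⟩ := hBAB lam X m hl
    have hH0 : 0 ≤ ∑ n ∈ Icc X.lo X.hi, 1 / (n : ℝ) := Finset.sum_nonneg fun n _ => by positivity
    refine le_of_forall_pos_le_add fun ε hε => ?_
    set η := ε / (∑ n ∈ Icc X.lo X.hi, 1 / (n : ℝ) + 1) with hη
    have hηp : 0 < η := by positivity
    have hex : ∀ n : ℕ, ∃ α : ℝ, zs lam m n - η < F n α := by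
      intro n
      have : zs lam m n - η < ⨆ α : ℝ, F n α := by
        rw [← hzs]
        linarith
      exact exists_lt_of_lt_ciSup this
    choose α hα using hex
    have h1 := hA α (fun _ _ _ => 1) (fun n q _ => ⟨fun k _ => by simp, by simp⟩)
    have h2 : wlg X (zs lam m) ≤ wbv lam X m (fun n _ => α n) (fun _ _ _ => 1) +
        η * ∑ n ∈ Icc X.lo X.hi, 1 / (n : ℝ) := by
      unfold wbv wlg
      rw [Finset.mul_sum, ← Finset.sum_add_distrib]
      refine Finset.sum_le_sum fun n _ => ?_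
      have h3 : zs lam m n ≤ F n (α n) + η := by linarith [hα n]
      calc zs lam m n / n ≤ (F n (α n) + η) / n := div_le_div_of_nonneg_right h3 (Nat.cast_nonneg n)
        _ = _ := by
          rw [add_div, mul_one_div]
    have h4 : η * ∑ n ∈ Icc X.lo X.hi, 1 / (n : ℝ) ≤ ε := by
      rw [hη, div_mul_eq_mul_div, div_le_iff₀ (by positivity)]
      nlinarith
    linarith

end Pool.Agent.H3.GW.T1
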