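import Pool.Agent.H3.GW.Defs
import Pool.Agent.H3.GW.TargetsH

/-!
# The energy at the top is small
-/

set_option autoImplicit false

namespace Pool.Agent.H3.GW.S

open Pool.Agent.H6.G9 Pool.Agent.H28.NW Pool.Agent.H3.GW
open Finset Pool.Agent.H6.N4D Pool.Agent.H93 Pool.Agent.H93.GS Pool.Agent.H6.GS2

theorem pf_TOP (hE : W_E3R) (hG : W_PGN) : W_TOPE := by
  intro th c hth hth1 hc
  obtain ⟨ε, C, D, X₁, hε, hC, hD, h3⟩ := hE th c hth hth1 hc
  obtain ⟨X₂, h4⟩ := hG th ε C D hth hth1 hε hC hD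
  -- the lower bound for `a`
  have ht : Filter.Tendsto (fun x : ℝ => x ^ (9 / 20 : ℝ)) Filter.atTop Filter.atTop :=
    tendsto_rpow_atTop (by norm_num)
  obtain ⟨X₃, hX₃⟩ := Filter.eventually_atTop.1 (ht.eventually_ge_atTop (1 / C))
  refine ⟨max (max X₁ X₂) (max X₃ 1), fun X lam hX hl => ?_⟩
  have hX1 : X₁ ≤ X.L := (le_max_left _ _).trans ((le_max_left _ _).trans hX)
  have hX2 : X₂ ≤ X.L := (le_max_right _ _).trans ((le_max_left _ _).trans hX)
  have hX3 : X₃ ≤ X.L := (le_max_left _ _).trans ((le_max_right _ _).trans hX)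
  have hX4 : 1 ≤ X.L := (le_max_right _ _).trans ((le_max_right _ _).trans hX)
  obtain ⟨a, h5, h6, h7, h8⟩ := h4 X lam hX2 hl
  have h9 := h3 X a lam hX1 hl h5 h6 h7 h8
  have hLT := X.L_le_T
  have hY : 0 < X.T := by linarith
  refine ⟨a, ?_, ?_, h9⟩
  · refine le_trans ?_ h5
    have h10 := hX₃ X.T (by linarith)
    have h11 : X.T ^ (19 / 20 : ℝ) =
        X.T ^ (9 / 20 : ℝ) * X.T ^ (1 / 2 : ℝ) := by
      rw [← Real.rpow_add hY]
      norm_num
    rw [h11, ← mul_assoc]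
    have h12 : 1 ≤ C * X.T ^ (9 / 20 : ℝ) := by
      have := mul_le_mul_of_nonneg_left h10 hC.le
      rwa [mul_one_div, div_self hC.ne'] at this
    have h13 : 0 ≤ X.T ^ (1 / 2 : ℝ) := Real.rpow_nonneg hY.le _
    nlinarith
  · refine le_trans ?_ h6
    have h14 : (1 : ℝ) ≤ D := by exact_mod_cast hD
    have h15 : (0 : ℝ) ≤ a := Nat.cast_nonneg _
    nlinarith

end Pool.Agent.H3.GW.S
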