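import Pool.Agent.H3.GW.BSU
import Pool.Agent.H3.GW.BTS
import Pool.Agent.H3.GW.CHG
import Pool.Agent.H3.GW.DLG
import Pool.Agent.H3.GW.E3Ra
import Pool.Agent.H3.GW.E3r
import Pool.Agent.H3.GW.EU1
import Pool.Agent.H3.GW.EUS
import Pool.Agent.H3.GW.FNT
import Pool.Agent.H3.GW.GH0
import Pool.Agent.H3.GW.GMD
import Pool.Agent.H3.GW.GMQ
import Pool.Agent.H3.GW.LVG
import Pool.Agent.H3.GW.LVR
import Pool.Agent.H3.GW.LVU
import Pool.Agent.H3.GW.MNG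
import Pool.Agent.H3.GW.MNX
import Pool.Agent.H3.GW.PGN
import Pool.Agent.H3.GW.QT
import Pool.Agent.H3.GW.SGE
import Pool.Agent.H3.GW.SWE
import Pool.Agent.H3.GW.SZE
import Pool.Agent.H3.GW.TOPE
import Pool.Agent.H3.HB.Bsr

/-!
# The logarithmic windows, MP_c59857_nt: composition

The hypotheses are the statements which do not depend on the logarithmic means.
-/

set_option autoImplicit false

namespace Pool.Agent.H3.GW.Comp

open Pool.Agent.H28.NW Pool.Agent.H3.GW Pool.Agent.H6.G9 Pool.Agent.H6.G0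
open Pool.Agent.H56.G3 Pool.Agent.H56.E.H56.G3

/-- the monotonicity of the energies -/
theorem c_MNE : W_MNE := A.pf_MNG

/-- the energy of one frequency at a level is small -/
theorem c_E3R (hBAB : W_BAB) (hGap : ∃ (B : ℕ) (c X₁ : ℝ), Pool.Agent.H6.N4D.Gap B c X₁)
    (hBUN : Pool.Agent.H78.GX.H78.GS.T_BUN) (hRB : T_RB)
    (hWQ : Pool.Agent.H56.E.H56.G3.T_WQ) (hSV : Pool.Agent.H56.E.H56.G3.T_SV)
    (hSZ : Pool.Agent.H56.E.H56.G3.T_SZ) (hSA1 : Pool.Agent.H56.E.H56.G3.T_SA1)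
    (hSA2 : Pool.Agent.H56.E.H56.G3.T_SA2) (hSN : Pool.Agent.H56.E.H56.G3.T_SN)
    (hBN : Pool.Agent.H56.E.H56.G3.T_BN) : W_E3r :=
  T4.pf_E3 hGap hBUN (T3.pf_SG hRB hWQ hSV hSZ (T1.pf_SZ hBAB) T2.pf_SW hSA1 hSA2 hSN) hBN

/-- the energy at the top -/
theorem c_TOPE (hBAB : W_BAB) (hLIM : W_LIM) (hBES : W_BES) (hE : W_E3r)
    (hKCH : Pool.Agent.H72.EN.T_KCH) (hCHW : Pool.Agent.H6.GS2.T_CHW)
    (hQMS : Pool.Agent.H70.EN.T_QMS) : W_TOPE :=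
  S.pf_TOP (R.pf_E3R hE)
    (Q.pf_PGN hKCH hLIM hBES (C.pf_CH3 hCHW hBAB hQMS) c_MNE F.pf_DLG A.pf_MNX)

/-- the iterated logarithms: the last step before the final theorem -/
theorem c_QT (hT : W_TOPE) (hONU : T_ONU) (hUBB : T_UBB) (hONT : Pool.Agent.H3.BT.T_ONT)
    (hMSU : Pool.Agent.H3.BES.T_MSU) (hNRS : T_NRS) : W_QT :=
  S.pf_QT (P.pf_EUS (O.pf_LVU hONU hUBB F.pf_DLG A.pf_MNX)
    (M.pf_BSU (BT.pf_BTS hONT hMSU) hNRS hUBB) (M.pf_GMD c_MNE) hUBB) hT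

/-- the loss of energy with absolute constants -/
theorem c_EU1 (hB : Pool.Agent.H93.HB.T_BLO) (hONR : T_ONR) (hUBR : T_UBR) (hNRS : T_NRS) :
    W_EU1 :=
  V.pf_EU1 (LR.pf_LVR hONR hUBR F.pf_DLG A.pf_MNX) (Pool.Agent.H3.HB.bsrw hB hUBR hNRS)
    (M.pf_GMD c_MNE) hUBR

end Pool.Agent.H3.GW.Comp
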