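import Pool.Agent.H28.GS1.EBT
import Pool.Agent.H3.GW.Defs
import Pool.Agent.H85.NW.EBS

/-!
# Theorem (G), section 1 (MP_c59857_nt): row EBT
-/

set_option autoImplicit false

namespace Pool.Agent.H3.GW.E

open Pool.Agent.H28.GS1 Pool.Agent.H28.NW Pool.Agent.H3.GW
open Finset Pool.Agent.H18.MR Pool.Agent.H93.DE Pool.Agent.H6.N4D Pool.Agent.H93
open Pool.Agent.H93.ES Pool.Agent.H40.ES Pool.Agent.H22.GS

theorem pf_EBT1 (hB : T_BKt) (hU : W_BLU) (hE : W_ENB) (hQ : T_QSU) (hM : T_MNT)
    (th delta : ℝ) (hth : 0 < th) (hth1 : th ≤ 1) (hdelta : 0 < delta) :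
    ∃ B : ℕ, 1 ≤ B ∧ ∀ ε : ℝ, 0 < ε →
  ∃ e : ℝ, 0 < e ∧ ∀ R : ℕ, ∃ s₀ : ℕ,
  ∀ s, s₀ ≤ s → ∃ X₀ : ℝ, ∀ (X : Wn) (K : ℕ) (lam : ℕ → ℝ) (m : ℕ → ℕ), X₀ ≤ X.L →
    (∀ n, 1 ≤ n → lam n = 1 ∨ lam n = -1) → WBase lam R (2 ^ s) e X → B * s ≤ m 0 →
    (∀ i, i + 1 < K → B * m i ≤ m (i + 1)) → (∀ i < K, (4 : ℝ) ^ m i ≤ X.L) →
    (∀ (α : ℕ → ℕ → ℝ) (g : ℕ → ℕ → ℕ → ℕ → ℂ),
      (∀ i < K, ∀ n, ∀ q ∈ EB.QQ (m i), EB.BV (2 ^ m i) n (g i n q)) →
      wbesSum lam X K m (fun i n _ => α i n) g ≤ ε * X.L) ∧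
    (∀ β : ℕ → ℕ → ℕ → ℝ, ∃ α : ℕ → ℕ → ℕ → ℝ,
      (∀ i < K, ∀ n, ∀ q ∈ EB.QQ (m i), ∃ b : ℤ,
        nd (α i n q - β i n q - (b : ℝ) / q) ≤ delta / 2 ^ m i) ∧
      ∑ i ∈ range K, wlg X (fun n => ∑ q ∈ EB.QQ (m i), 1 / (q : ℝ) *
        (EB.ind (th ≤ ‖EB.crq lam q (2 ^ m i) n (β i n q)‖) *
          EB.zz lam q (2 ^ m i) n (α i n q) (fun _ => 1) ^ 2)) ≤ ε * X.L) := by
  obtain ⟨C, w₀, hC, hB⟩ := hB th hth hth1
  obtain ⟨W, hW0, hQ⟩ := hQ
  refine ⟨400 + w₀, by omega, ?_⟩
  intro ε hε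
  obtain ⟨e, he, hE⟩ := hE (ε / (8 * C)) (by positivity)
  refine ⟨e, he, ?_⟩
  intro R
  obtain ⟨s₁, hE⟩ := hE R
  -- small logarithms
  obtain ⟨s₂, hs₂⟩ : ∃ s₂ : ℕ, ∀ x : ℕ, s₂ ≤ x → Real.log x / x ≤ ε / (16 * C) := by
    have h1 : Filter.Tendsto (fun x : ℕ => Real.log x / x) Filter.atTop (nhds 0) := by
      have h2 := Real.isLittleO_log_id_atTop.tendsto_div_nhds_zero
      exact h2.comp tendsto_natCast_atTop_atTop
    have h3 := h1.eventually (ge_mem_nhds (show (0 : ℝ) < ε / (16 * C) by positivity))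
    obtain ⟨s₂, hs₂⟩ := Filter.eventually_atTop.1 h3
    exact ⟨s₂, fun x hx => hs₂ x hx⟩
  refine ⟨s₁ + s₂ + 1, ?_⟩
  intro s hs
  obtain ⟨N₀, hE⟩ := hE s (by omega)
  set l : ℝ := Real.log ((N₀ + 1 : ℕ) : ℝ) with hl
  have hl0 : 0 ≤ l := Real.log_natCast_nonneg _
  set T : ℝ := (17 + l) + 216 * W * (17 + l) / ε + 1 with hT
  have hT1 : 1 ≤ T := by
    have : 0 ≤ 216 * W * (17 + l) / ε := by positivity
    linarith
  have hT2 : 17 + l ≤ T := by
    have : 0 ≤ 216 * W * (17 + l) / ε := by positivity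
    linarith
  have hT3 : 216 * W * (17 + l) / ε ≤ T := by linarith
  refine ⟨T ^ 2, ?_⟩
  intro X K lam m hX hlam hBase hs0 hm hmX
  set L : ℝ := X.L with hLd
  have hLT : T ^ 2 ≤ L := hX
  have hL1 : 1 ≤ L := by nlinarith
  have hX3 : 1 ≤ X.L := hL1
  have hsq : T ≤ Real.sqrt L := Real.le_sqrt_of_sq_le hLT
  have hsqL : Real.sqrt L * Real.sqrt L = L := Real.mul_self_sqrt (by linarith)
  have hsq0 : 0 < Real.sqrt L := by linarith
  have hm0 : s₁ + s₂ + 1 ≤ m 0 ∧ w₀ ≤ m 0 ∧ 400 * s ≤ m 0 ∧ 400 ≤ m 0 := by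
    have h1 : 400 * s + w₀ * s ≤ m 0 := by linarith [hs0]
    have h2 : w₀ * 1 ≤ w₀ * s := Nat.mul_le_mul_left _ (by omega)
    refine ⟨by omega, by omega, by omega, by omega⟩
  have hm' : ∀ i, i + 1 < K → 400 * m i ≤ m (i + 1) := by
    intro i hi
    refine le_trans ?_ (hm i hi)
    exact Nat.mul_le_mul_right _ (by omega)
  -- the main estimate
  have main : ∀ F : ℕ → ℕ → ℝ, (∀ j n, 0 ≤ F j n ∧ F j n ≤ 9 * W) →
      (∀ (N i : ℕ) [NeZero N], 1 ≤ i → (∀ j < K, primorial (2 ^ (m j / 200)) ∣ N) → 1 ≤ K →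
        ((range K).sup m) = ((range K).sup m) →
        N = primorial (2 ^ (((range K).sup m) / 200)) * 2 ^ (3 * ((range K).sup m)) * (N₀ + 1) →
        ∑ j ∈ range K, (∑ k ∈ range N, F j (i * N + k)) / (N : ℝ) ≤
        C * (ent (unif N) (fun n => wd (blk lam N i) (2 ^ (m 0 / 400)) n) / 2 ^ (m 0 / 400) +
          Real.log (m 0) / m 0 + (∑ j ∈ range K, (2 : ℝ) ^ m j) / (N : ℝ))) →
      ∑ j ∈ range K, wlg X (F j) ≤ ε * L := by
    intro F hF hFb
    rcases Nat.eq_zero_or_pos K with hK | hK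
    · subst hK
      simp only [range_zero, sum_empty]
      positivity
    obtain ⟨M, hMd⟩ : ∃ M : ℕ, M = (range K).sup m := ⟨_, rfl⟩
    have hmM : ∀ j < K, m j ≤ M := by
      intro j hj
      rw [hMd]
      exact Finset.le_sup (f := m) (mem_range.2 hj)
    have hML : (4 : ℝ) ^ M ≤ L := by
      obtain ⟨j, hj, hj2⟩ := Finset.exists_mem_eq_sup (range K) ⟨0, mem_range.2 hK⟩ m
      rw [hMd, hj2]
      exact hmX j (mem_range.1 hj)
    have hKM : K ≤ M + 1 := by
      have h1 : ∀ j < K, j + 400 ≤ m j + 0 ∨ j + 400 ≤ m j := by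
        intro j
        induction j with
        | zero => intro _; right; omega
        | succ j ih =>
          intro hj
          have h2 := ih (by omega)
          have h3 := hm' j hj
          right
          omega
      have h2 := h1 (K - 1) (by omega)
      have h3 := hmM (K - 1) (by omega)
      omega
    set N : ℕ := primorial (2 ^ (M / 200)) * 2 ^ (3 * M) * (N₀ + 1) with hN
    have hNpos : 0 < N := by
      rw [hN]
      have := primorial_pos (2 ^ (M / 200))
      positivity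
    have : NeZero N := ⟨hNpos.ne'⟩
    have hNr : (0 : ℝ) < N := by exact_mod_cast hNpos
    have hdvd : ∀ j < K, primorial (2 ^ (m j / 200)) ∣ N := by
      intro j hj
      refine dvd_trans (primorial_dvd_primorial ?_) (Dvd.intro _ (by rw [hN, mul_assoc]))
      exact Nat.pow_le_pow_right (by norm_num) (Nat.div_le_div_right (hmM j hj))
    have hlogN : Real.log N ≤ 2 * 2 ^ (M / 200) + 3 * M + l := by
      have h1 : (N : ℝ) = (primorial (2 ^ (M / 200)) : ℝ) * 2 ^ (3 * M) *
          ((N₀ + 1 : ℕ) : ℝ) := by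
        rw [hN]
        push_cast
        ring
      have hp : (0 : ℝ) < (primorial (2 ^ (M / 200)) : ℝ) := by
        exact_mod_cast primorial_pos _
      have hN0' : (0 : ℝ) < ((N₀ + 1 : ℕ) : ℝ) := by positivity
      rw [h1, Real.log_mul (by positivity) (by positivity), Real.log_mul hp.ne'
        (by positivity), ← hl, Real.log_pow]
      have h2 : Real.log (primorial (2 ^ (M / 200)) : ℝ) ≤ 2 * 2 ^ (M / 200) := by
        have h3 : (primorial (2 ^ (M / 200)) : ℝ) ≤ 4 ^ (2 ^ (M / 200)) := by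
          exact_mod_cast primorial_le_four_pow _
        refine (Real.log_le_log hp h3).trans ?_
        rw [Real.log_pow]
        have h4 : Real.log 4 ≤ 2 := by
          have h5 : Real.log 4 = 2 * Real.log 2 := by
            rw [show (4 : ℝ) = 2 ^ 2 by norm_num, Real.log_pow]
            norm_num
          have := Real.log_two_lt_d9
          rw [h5]
          linarith
        push_cast
        have h6 : (0 : ℝ) < 2 ^ (M / 200) := by positivity
        nlinarith
      have h7 : ((3 * M : ℕ) : ℝ) * Real.log 2 ≤ 3 * M := by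
        have := Real.log_two_lt_d9
        have h8 : (0 : ℝ) ≤ M := Nat.cast_nonneg M
        push_cast
        nlinarith
      linarith
    have hsize := size_facts (M := M) hl0 hML
    have hM0 : (0 : ℝ) ≤ M := Nat.cast_nonneg M
    have hlogN0 : 0 ≤ Real.log N := Real.log_natCast_nonneg N
    have hKlog : ((M : ℝ) + 1) * (1 + Real.log N) ≤ (17 + l) * Real.sqrt L := by
      refine le_trans ?_ hsize
      exact mul_le_mul_of_nonneg_left (by linarith) (by positivity)
    have h1N : 1 + Real.log N ≤ L := by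
      calc 1 + Real.log N ≤ ((M : ℝ) + 1) * (1 + Real.log N) := by
            apply le_mul_of_one_le_left (by positivity)
            linarith
        _ ≤ (17 + l) * Real.sqrt L := hKlog
        _ ≤ Real.sqrt L * Real.sqrt L := by
            gcongr
            linarith
        _ = L := hsqL
    have h2N : Real.log N ≤ X.L := by linarith
    have hN0N : N₀ ≤ N := by
      have h3 : 1 * (N₀ + 1) ≤ N := by
        rw [hN]
        apply Nat.mul_le_mul_right
        have := primorial_pos (2 ^ (M / 200))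
        exact Nat.mul_pos this (by positivity)
      omega
    have hENB := hE X N lam hN0N h2N hlam hBase
    -- the last error
    have hm0r : (0 : ℝ) < m 0 := by
      have : 0 < m 0 := by omega
      exact_mod_cast this
    have hlast : (∑ j ∈ range K, (2 : ℝ) ^ m j) / (N : ℝ) ≤ Real.log (m 0) / m 0 := by
      have h3 : ∑ j ∈ range K, (2 : ℝ) ^ m j ≤ 2 ^ M * 2 ^ M := by
        calc ∑ j ∈ range K, (2 : ℝ) ^ m j ≤ ∑ _j ∈ range K, (2 : ℝ) ^ M := by
              refine sum_le_sum fun j hj => ?_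
              exact pow_le_pow_right₀ (by norm_num) (hmM j (mem_range.1 hj))
          _ = K * 2 ^ M := by rw [sum_const, nsmul_eq_mul, card_range]
          _ ≤ 2 ^ M * 2 ^ M := by
              gcongr
              have h4 := Nat.lt_two_pow_self (n := M)
              have h5 : K ≤ 2 ^ M := by omega
              exact_mod_cast h5
      have h4 : (2 : ℝ) ^ (3 * M) ≤ N := by
        have h5 : 1 * 2 ^ (3 * M) * 1 ≤ N := by
          rw [hN]
          have := primorial_pos (2 ^ (M / 200))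
          apply Nat.mul_le_mul _ (by omega)
          apply Nat.mul_le_mul_right
          exact this
        rw [one_mul, mul_one] at h5
        exact_mod_cast h5
      have h6 : (m 0 : ℝ) ≤ 2 ^ M := by
        have h7 := Nat.lt_two_pow_self (n := M)
        have h8 := hmM 0 hK
        have h9 : m 0 ≤ 2 ^ M := by omega
        exact_mod_cast h9
      have h10 : 1 ≤ Real.log (m 0) := by
        rw [Real.le_log_iff_exp_le hm0r]
        have h11 : Real.exp 1 < 2.7182818286 := Real.exp_one_lt_d9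
        have h12 : (400 : ℝ) ≤ m 0 := by exact_mod_cast hm0.2.2.2
        linarith
      rw [div_le_div_iff₀ hNr hm0r]
      calc (∑ j ∈ range K, (2 : ℝ) ^ m j) * m 0 ≤ (2 ^ M * 2 ^ M) * 2 ^ M := by gcongr
        _ = 2 ^ (3 * M) := by
            rw [← pow_add, ← pow_add]
            congr 1
            ring
        _ ≤ 1 * N := by linarith
        _ ≤ Real.log (m 0) * N := by gcongr
    have hlogm : Real.log (m 0) / m 0 ≤ ε / (16 * C) := hs₂ (m 0) (by omega)
    have hlogm0 : 0 ≤ Real.log (m 0) / m 0 := by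
      have : 0 ≤ Real.log (m 0) := Real.log_natCast_nonneg _
      positivity
    -- each block
    have hblock : ∀ i ∈ Icc (max 1 (X.lo / N)) (X.hi / N - 1), 1 / (i : ℝ) *
        (∑ j ∈ range K, (∑ k ∈ range N, F j (i * N + k)) / (N : ℝ)) ≤
        C * (1 / (i : ℝ) * (ent (unif N) (fun n => wd (blk lam N i) (2 ^ s) n) / 2 ^ s)) +
          ε / 8 * (1 / (i : ℝ)) := by
      intro i hi
      have hi1 : 1 ≤ i := (le_max_left _ _).trans (mem_Icc.1 hi).1
      have h3 := hFb N i hi1 hdvd hK rfl (by rw [← hMd])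
      have h4 := ent_mono hM (blk lam N i) (a := m 0 / 400) (s := s) (by omega)
      have hi0 : (0 : ℝ) ≤ 1 / (i : ℝ) := by positivity
      have h5 : ∑ j ∈ range K, (∑ k ∈ range N, F j (i * N + k)) / (N : ℝ) ≤
          C * (ent (unif N) (fun n => wd (blk lam N i) (2 ^ s) n) / 2 ^ s) + ε / 8 := by
        refine h3.trans ?_
        have h6 : C * (ε / (16 * C) + ε / (16 * C)) = ε / 8 := by
          field_simp
          ring
        rw [← h6, ← mul_add]
        exact mul_le_mul_of_nonneg_left (by linarith) hC.le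
      calc 1 / (i : ℝ) * (∑ j ∈ range K, (∑ k ∈ range N, F j (i * N + k)) / (N : ℝ))
          ≤ 1 / (i : ℝ) * (C * (ent (unif N) (fun n => wd (blk lam N i) (2 ^ s) n) / 2 ^ s) +
            ε / 8) := by gcongr
        _ = _ := by ring
    calc ∑ j ∈ range K, wlg X (F j)
        ≤ ∑ j ∈ range K, (3 * (9 * W) * (1 + Real.log N) +
          ∑ i ∈ Icc (max 1 (X.lo / N)) (X.hi / N - 1), 1 / (i : ℝ) *
            ((∑ k ∈ range N, F j (i * N + k)) / (N : ℝ))) := by
          refine sum_le_sum fun j _ => ?_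
          exact hU X N (F j) (9 * W) hNpos hX3 (by positivity) (hF j)
      _ = K * (27 * W * (1 + Real.log N)) +
          ∑ i ∈ Icc (max 1 (X.lo / N)) (X.hi / N - 1), 1 / (i : ℝ) *
            (∑ j ∈ range K, (∑ k ∈ range N, F j (i * N + k)) / (N : ℝ)) := by
          rw [sum_add_distrib, sum_const, card_range, nsmul_eq_mul, sum_comm]
          congr 1
          · ring
          · refine sum_congr rfl fun i _ => ?_
            rw [mul_sum]
      _ ≤ ε / 8 * L + ∑ i ∈ Icc (max 1 (X.lo / N)) (X.hi / N - 1),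
            (C * (1 / (i : ℝ) * (ent (unif N) (fun n => wd (blk lam N i) (2 ^ s) n) / 2 ^ s)) +
            ε / 8 * (1 / (i : ℝ))) := by
          apply add_le_add _ (sum_le_sum hblock)
          have h3 : (K : ℝ) ≤ (M : ℝ) + 1 := by exact_mod_cast hKM
          calc (K : ℝ) * (27 * W * (1 + Real.log N))
              ≤ ((M : ℝ) + 1) * (27 * W * (1 + Real.log N)) := by gcongr
            _ = 27 * W * (((M : ℝ) + 1) * (1 + Real.log N)) := by ring
            _ ≤ 27 * W * ((17 + l) * Real.sqrt L) := by gcongr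
            _ = ε / 8 * (216 * W * (17 + l) / ε) * Real.sqrt L := by
                field_simp
                ring
            _ ≤ ε / 8 * Real.sqrt L * Real.sqrt L := by
                gcongr
                linarith
            _ = ε / 8 * L := by rw [mul_assoc, hsqL]
      _ ≤ ε / 8 * L + (C * (ε / (8 * C) * L) + ε / 8 * (2 + L)) := by
          rw [sum_add_distrib, ← mul_sum, ← mul_sum]
          have h3 := Pool.Agent.H85.NW.EBS.harm N X hNpos
          rw [← hLd] at h3
          gcongr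
      _ ≤ ε * L := by
          have h3 : C * (ε / (8 * C) * L) = ε / 8 * L := by
            field_simp
          rw [h3]
          nlinarith
  constructor
  · intro α g hg
    unfold wbesSum
    have h1 : ∀ j ∈ range K, wlg X (fun n => ∑ q ∈ EB.QQ (m j), 1 / (q : ℝ) *
        EB.zz lam q (2 ^ m j) n (α j n) (g j n q) ^ 2) =
        wlg X ((fun j n => if j < K then ∑ q ∈ EB.QQ (m j), 1 / (q : ℝ) *
        EB.zz lam q (2 ^ m j) n (α j n) (g j n q) ^ 2 else 0) j) := by
      intro j hj
      congr 1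
      funext n
      simp only [if_pos (mem_range.1 hj)]
    rw [sum_congr rfl h1]
    apply main
    · intro j n
      by_cases hj : j < K
      · simp only [hj, if_true]
        constructor
        · exact sum_nonneg fun q _ => by positivity
        · have h2 := tests_le hlam hQ (m j) n (fun _ => 1) (fun _ => α j n)
            (g j n) (fun q _ => ⟨zero_le_one, le_rfl⟩) (fun q hq => (hg j hj n q hq).bd)
          simpa using h2
      · simp only [hj, if_false]
        exact ⟨le_rfl, by positivity⟩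
    · intro N i _ hi hd _ _ _
      refine le_trans (le_of_eq ?_) ((hB N K i lam m hi hlam hm0.2.1 hm' hd).1 α g hg)
      refine sum_congr rfl fun j hj => ?_
      congr 1
      refine sum_congr rfl fun k _ => ?_
      simp only [if_pos (mem_range.1 hj)]
  · intro β
    set N : ℕ := primorial (2 ^ (((range K).sup m) / 200)) * 2 ^ (3 * ((range K).sup m)) *
      (N₀ + 1) with hN
    have hNpos : 0 < N := by
      rw [hN]
      have := primorial_pos (2 ^ (((range K).sup m) / 200))
      positivity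
    have : NeZero N := ⟨hNpos.ne'⟩
    have hdvd : ∀ j < K, primorial (2 ^ (m j / 200)) ∣ N := by
      intro j hj
      refine dvd_trans (primorial_dvd_primorial ?_) (Dvd.intro _ (by rw [hN, mul_assoc]))
      exact Nat.pow_le_pow_right (by norm_num)
        (Nat.div_le_div_right (Finset.le_sup (f := m) (mem_range.2 hj)))
    have hch : ∀ i : ℕ, ∃ α : ℕ → ℕ → ℕ → ℝ, 1 ≤ i →
        ((∀ j n, ∀ q ∈ EB.QQ (m j), ∃ b : ℤ, α j n q = β j n q + (b : ℝ) / q) ∧
        ∑ j ∈ range K, (∑ k ∈ range N, ∑ q ∈ EB.QQ (m j), 1 / (q : ℝ) *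
          (EB.ind (th ≤ ‖EB.crq lam q (2 ^ m j) (i * N + k) (β j (i * N + k) q)‖) *
            EB.zz lam q (2 ^ m j) (i * N + k) (α j (i * N + k) q) (fun _ => 1) ^ 2)) /
              (N : ℝ) ≤
        C * (ent (unif N) (fun n => wd (blk lam N i) (2 ^ (m 0 / 400)) n) / 2 ^ (m 0 / 400) +
          Real.log (m 0) / m 0 + (∑ j ∈ range K, (2 : ℝ) ^ m j) / (N : ℝ))) := by
      intro i
      by_cases hi : 1 ≤ i
      · obtain ⟨α, hα⟩ := (hB N K i lam m hi hlam hm0.2.1 hm' hdvd).2 β
        exact ⟨α, fun _ => hα⟩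
      · exact ⟨β, fun h => absurd h hi⟩
    choose A hA using hch
    refine ⟨fun j n q => if 1 ≤ n / N then A (n / N) j n q else β j n q, ?_, ?_⟩
    · intro j _ n q hq
      by_cases h : 1 ≤ n / N
      · obtain ⟨b, hb⟩ := (hA (n / N) h).1 j n q hq
        refine ⟨b, ?_⟩
        simp only [if_pos h]
        rw [hb]
        have h2 : β j n q + (b : ℝ) / q - β j n q - (b : ℝ) / q = 0 := by ring
        rw [h2]
        have h3 : nd 0 = 0 := by simp [nd]
        rw [h3]
        positivity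
      · refine ⟨0, ?_⟩
        simp only [if_neg h]
        have h2 : β j n q - β j n q - ((0 : ℤ) : ℝ) / q = 0 := by simp
        rw [h2]
        have h3 : nd 0 = 0 := by simp [nd]
        rw [h3]
        positivity
    · refine main (fun j n => ∑ q ∈ EB.QQ (m j), 1 / (q : ℝ) *
        (EB.ind (th ≤ ‖EB.crq lam q (2 ^ m j) n (β j n q)‖) *
          EB.zz lam q (2 ^ m j) n (if 1 ≤ n / N then A (n / N) j n q else β j n q)
            (fun _ => 1) ^ 2)) ?_ ?_
      · intro j n
        have h0 : ∀ p : Prop, 0 ≤ EB.ind p ∧ EB.ind p ≤ 1 := by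
          intro p
          unfold EB.ind
          split_ifs <;> norm_num
        constructor
        · refine sum_nonneg fun q _ => ?_
          have := (h0 (th ≤ ‖EB.crq lam q (2 ^ m j) n (β j n q)‖)).1
          positivity
        · exact tests_le hlam hQ (m j) n _ _ (fun _ _ => 1) (fun q _ => h0 _)
            (fun q _ k _ => by simp)
      · intro N' i _ hi hd hK _ hN'
        have hNN : N' = N := hN'
        subst hNN
        have h1 := (hA i hi).2
        refine le_trans (le_of_eq ?_) h1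
        refine sum_congr rfl fun j hj => ?_
        congr 1
        refine sum_congr rfl fun k hk => ?_
        have h2 : (i * N + k) / N = i := by
          rw [mul_comm, Nat.mul_add_div hNpos, Nat.div_eq_of_lt (mem_range.1 hk), add_zero]
        refine sum_congr rfl fun q _ => ?_
        simp only [h2, if_pos hi]

theorem pf_EBT (hB : T_BKt) (hU : W_BLU) (hE : W_ENB) (hQ : T_QSU) (hM : T_MNT) : W_EBT := by
  intro th delta hth hdelta
  rcases le_or_gt th 1 with h1 | h1
  · exact pf_EBT1 hB hU hE hQ hM th delta hth h1 hdelta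
  · obtain ⟨B, hB1, h⟩ := pf_EBT1 hB hU hE hQ hM 1 delta one_pos le_rfl hdelta
    refine ⟨B, hB1, fun ε hε => ?_⟩
    obtain ⟨e, he, h⟩ := h ε hε
    refine ⟨e, he, fun R => ?_⟩
    obtain ⟨s₀, h⟩ := h R
    refine ⟨s₀, fun s hs => ?_⟩
    obtain ⟨X₀, h⟩ := h s hs
    refine ⟨X₀, fun X K lam m a1 a2 a3 a4 a5 a6 => ?_⟩
    obtain ⟨b1, b2⟩ := h X K lam m a1 a2 a3 a4 a5 a6
    refine ⟨b1, fun β => ?_⟩
    obtain ⟨α, c1, c2⟩ := b2 β
    refine ⟨α, c1, le_trans ?_ c2⟩
    refine sum_le_sum fun i _ => ?_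
    unfold wlg
    refine sum_le_sum fun n _ => ?_
    refine div_le_div_of_nonneg_right (sum_le_sum fun q _ => ?_) (Nat.cast_nonneg n)
    refine mul_le_mul_of_nonneg_left (mul_le_mul_of_nonneg_right ?_ (sq_nonneg _))
      (by positivity)
    unfold EB.ind
    by_cases hx : th ≤ ‖EB.crq lam q (2 ^ m i) n (β i n q)‖
    · rw [if_pos hx, if_pos (h1.le.trans hx)]
    · rw [if_neg hx]
      split_ifs <;> norm_num

end Pool.Agent.H3.GW.E
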