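import Pool.Agent.H72.GS2.EN1
import Pool.Agent.H3.GW.Defs
import Pool.Agent.H3.GW.BFL

/-!
# The energy with the soft threshold is almost constant from a bounded scale up to a power of the
logarithm
-/

set_option autoImplicit false

namespace Pool.Agent.H3.GW.C

open Pool.Agent.H72.GS2 Pool.Agent.H28.NW Pool.Agent.H3.GW
open Finset Pool.Agent.H6.N4D Pool.Agent.H93.GS Pool.Agent.H93 Pool.Agent.H72.EN

/-- the telescope for the energies -/
lemma coreS (hTEL : T_TEL) (hHAR : T_HAR) (hGSM : T_GSM) (hTEB : W_TEB)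
    {th CL CM CG κ' : ℝ} {m₁ p₀ : ℕ} (hth : 0 < th) (hth1 : th ≤ 1) (hCL : 0 < CL)
    (hCM : 0 < CM) (hCG : 0 < CG)
    (bt : (ℕ → ℝ) → Wn → ℕ → ℝ) (hbt : ∀ lam X m, (∀ n, |lam n| ≤ 1) → 0 ≤ bt lam X m)
    (hlev : ∀ (η : ℝ) (A : ℕ) (X : Wn) (m : ℕ) (lam : ℕ → ℝ), 0 < η → η ≤ 1 → 2 ≤ A → 1 ≤ X.L → m₁ ≤ m →
      Lio lam →
      wlg X (fun n => En th lam 1 (2 ^ (m - m / 500)) n) -
          wlg X (fun n => En th lam 1 (2 ^ (A * m - m / 100)) n) ≤
        (1 + η) * (wlg X (fun n => En th lam 1 (2 ^ m) n) -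
          wlg X (fun n => En th lam 1 (2 ^ (A * m)) n)) +
        CL / η * (bt lam X m + wgm th lam X p₀ m + wgmq th lam X p₀ m +
          (1 / 2) ^ (m / 2000) * X.L + A * m + 1))
    (hmn : ∀ (X : Wn) (k l : ℕ) (lam : ℕ → ℝ), 1 ≤ X.L → (∀ n, |lam n| ≤ 1) → k ≤ l →
      wlg X (fun n => En th lam 1 (2 ^ l) n) ≤
        wlg X (fun n => En th lam 1 (2 ^ k) n) + CM * (l + 1))
    (hgq : ∀ (X : Wn) (m₀ me : ℕ) (lam : ℕ → ℝ), 1 ≤ X.L → (∀ n, |lam n| ≤ 1) →
      1000 * (p₀ + 1) ≤ m₀ → m₀ ≤ me →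
      ∑ m ∈ Icc m₀ me, 1 / (m : ℝ) * (wgm th lam X p₀ m + wgmq th lam X p₀ m) ≤
        CG / m₀ * X.L + CG * (me + 1) * (1 + Real.log me))
    (lam : ℕ → ℝ) (X : Wn) (A B k₀ k : ℕ) (η E : ℝ) (hX : 1 ≤ X.L) (hlam : Lio lam) (hA : 2 ≤ A)
    (hB : 2 ≤ B) (h0 : 0 < η) (h1 : η ≤ 1) (hk1 : 3500 ≤ k₀) (hk2 : 100 * A ≤ k₀)
    (hk3 : m₁ ≤ k₀) (hk5 : 1000 * (p₀ + 1) ≤ k₀) (hk4 : k₀ ≤ k)
    (hE : ∀ (K : ℕ) (c : ℕ → ℕ), Chn B k₀ (2 * k) K c →
      ∑ i ∈ range K, bt lam X (c i) ≤ E * X.L) :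
    wte th lam X k₀ - wte th lam X k ≤ 48 / A + 1200 * η * A + 1200 * B * (CL / η * E) +
      600 * (CL / η * (4000 * (1 / 2) ^ (k₀ / 2000) +
        (2 * k : ℕ) * (2 * 0 + A + 1) / X.L)) +
      600 * (CL / η * (CG / k₀ + CG * ((2 * k : ℕ) + 1) * (1 + Real.log (2 * k : ℕ)) /
        X.L)) +
      1800 * (CM * ((A * (2 * k) : ℕ) + 1) / X.L) *
        (2 + Real.log (2 * k : ℕ)) + CM * ((A * (2 * k) : ℕ) + 1) / X.L := by
  have hl1 : ∀ n, |lam n| ≤ 1 := by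
    intro n
    rcases hlam.pm n with h | h <;> rw [h] <;> norm_num
  have hY : 0 < X.L := by linarith
  set Y := X.L with hYd
  set D := CL / η with hDd
  have hD : 0 < D := div_pos hCL h0
  set me := 2 * k with hme
  set δ : ℝ := CM * ((A * me : ℕ) + 1) / Y with hδd
  have hδ : 0 ≤ δ := by positivity
  -- monotonicity
  have hmono : ∀ i j, i ≤ j → j ≤ A * me → wte th lam X j ≤ wte th lam X i + δ := by
    intro i j hij hj
    have a1 := hmn X i j lam hX hl1 hij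
    have hj' : (j : ℝ) ≤ (A * me : ℕ) := by exact_mod_cast hj
    have a3 : CM * ((j : ℝ) + 1) ≤ CM * ((A * me : ℕ) + 1) := by gcongr
    unfold wte
    rw [hδd, ← add_div]
    exact div_le_div_of_nonneg_right (by linarith) hY.le
  have hme1 : 1 ≤ me := by omega
  have hkk : k ≤ me - me / 500 := by omega
  have hT := telE hTEL A B k₀ me η δ (D * E) (fun k => wte th lam X k)
    (fun m => D * ((bt lam X m) / Y))
    (fun m => D * (0 * (m + 1) / Y + (1 / 2) ^ (m / 2000) + (A * m + 1) / Y) +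
      D / Y * (wgm th lam X p₀ m + wgmq th lam X p₀ m))
    hA hB hk1 hk2 (by omega) h0.le h1 hδ
    (fun k => hTEB th hth hth1 X k lam hX hl1) hmono
    (fun m => by
      have := hbt lam X m hl1
      positivity)
    (fun K c hc => by
      have h2 := hE K c hc
      rw [← mul_sum]
      refine mul_le_mul_of_nonneg_left ?_ hD.le
      rw [← sum_div, div_le_iff₀ hY]
      exact h2)
    (fun m hm => by
      rw [mem_Icc] at hm
      have b1 := hlev η A X m lam h0 h1 hA hX (by omega) hlam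
      unfold wte
      rw [← hYd]
      set P1 := wlg X (fun n => En th lam 1 (2 ^ (m - m / 500)) n)
      set P2 := wlg X (fun n => En th lam 1 (2 ^ (A * m - m / 100)) n)
      set P3 := wlg X (fun n => En th lam 1 (2 ^ m) n)
      set P4 := wlg X (fun n => En th lam 1 (2 ^ (A * m)) n)
      have b5 := div_le_div_of_nonneg_right b1 hY.le
      have e1 : (P1 - P2) / Y = P1 / Y - P2 / Y := by ring
      have e2 : ((1 + η) * (P3 - P4) + D * (bt lam X m + wgm th lam X p₀ m +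
          wgmq th lam X p₀ m + (1 / 2) ^ (m / 2000) * Y + A * m + 1)) / Y =
          (1 + η) * (P3 / Y - P4 / Y) + D * ((bt lam X m) / Y) +
          (D * (0 * (m + 1) / Y + (1 / 2) ^ (m / 2000) + (A * m + 1) / Y) +
            D / Y * (wgm th lam X p₀ m + wgmq th lam X p₀ m)) := by
        field_simp
        ring
      rw [e1, e2] at b5
      exact b5)
  have hr := sum_r_le hGSM k₀ me A D 0 Y (by omega) hD.le le_rfl hY
  have hg := hgq X k₀ me lam hX hl1 hk5 (by omega)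
  obtain ⟨hh0, hh1⟩ := hHAR k₀ me (by omega) hme1
  have hlast := hmono k (me - me / 500) hkk (by
    have : me ≤ A * me := Nat.le_mul_of_pos_left _ (by omega)
    omega)
  have hcoef : 0 ≤ 1800 * δ := by positivity
  have hh2 : 1800 * δ * (1 + ∑ m ∈ Icc k₀ me, 1 / (m : ℝ)) ≤
      1800 * δ * (2 + Real.log me) := by
    refine mul_le_mul_of_nonneg_left ?_ hcoef
    linarith
  have hsplit : ∑ m ∈ Icc k₀ me, 1 / (m : ℝ) *
      (D * (0 * (m + 1) / Y + (1 / 2) ^ (m / 2000) + (A * m + 1) / Y) +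
        D / Y * (wgm th lam X p₀ m + wgmq th lam X p₀ m)) =
      ∑ m ∈ Icc k₀ me, 1 / (m : ℝ) *
        (D * (0 * (m + 1) / Y + (1 / 2) ^ (m / 2000) + (A * m + 1) / Y)) +
      D / Y * ∑ m ∈ Icc k₀ me, 1 / (m : ℝ) * (wgm th lam X p₀ m + wgmq th lam X p₀ m) := by
    rw [mul_sum, ← sum_add_distrib]
    exact sum_congr rfl fun m _ => by ring
  have hg2 : D / Y * ∑ m ∈ Icc k₀ me, 1 / (m : ℝ) * (wgm th lam X p₀ m + wgmq th lam X p₀ m) ≤
      D * (CG / k₀ + CG * (me + 1) * (1 + Real.log me) / Y) := by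
    rw [← hYd] at hg
    have h2 := mul_le_mul_of_nonneg_left hg (by positivity : 0 ≤ D / Y)
    refine h2.trans (le_of_eq ?_)
    field_simp
  have hT' := hT
  rw [hsplit] at hT'
  linarith

end Pool.Agent.H3.GW.C
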