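import Pool.Agent.H72.GS2.EN1
import Pool.Agent.H3.GW.Defs
import Pool.Agent.H3.GW.EN1a

/-!
# The energy with the soft threshold is almost constant from a bounded scale up to a power of the
logarithm
-/

set_option autoImplicit false

namespace Pool.Agent.H3.GW.C

open Pool.Agent.H72.GS2 Pool.Agent.H28.NW Pool.Agent.H3.GW
open Finset Pool.Agent.H6.N4D Pool.Agent.H93.GS Pool.Agent.H93 Pool.Agent.H72.EN

theorem pf_EN1 (hTEL : T_TEL) (hKCH : T_KCH) (hHAR : T_HAR) (hGSM : T_GSM) (hLIM : W_LIM)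
    (hBAB : W_BAB) (hTEB : W_TEB) (hEBT : W_EBT) (hLVG : W_LVG) (hMNG : W_MNE)
    (hGMQ : W_GMQ) : W_EN1 := by
  intro th hth hth1
  obtain ⟨κ, c₁, dl, CL, p₀, m₁, hκ, hc₁, hdl, hCL, hpm, hlev⟩ := hLVG th hth hth1
  obtain ⟨B₀, hB₀, hbes⟩ := hEBT (th / 2) dl (by positivity) hdl
  obtain ⟨CM, hCM, hmnq⟩ := hMNG th hth hth1
  obtain ⟨CG, hCG, hgq⟩ := hGMQ th p₀ hth hth1
  have hmn : ∀ (X : Wn) (k l : ℕ) (lam : ℕ → ℝ), 1 ≤ X.L → (∀ n, |lam n| ≤ 1) → k ≤ l →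
      wlg X (fun n => En th lam 1 (2 ^ l) n) ≤
        wlg X (fun n => En th lam 1 (2 ^ k) n) + CM * (l + 1) :=
    fun X k l lam h1 h2 h3 => hmnq X k l 1 lam h1 h2 h3 le_rfl Nat.one_le_two_pow
  obtain ⟨B, hBB, hB2⟩ : ∃ B : ℕ, B₀ ≤ B ∧ 2 ≤ B := ⟨max B₀ 2, le_max_left _ _, le_max_right _ _⟩
  have hBr : (2 : ℝ) ≤ B := by exact_mod_cast hB2
  refine ⟨4000 * B, by omega, ?_⟩
  intro ε hε
  obtain ⟨A, hA2, hAε⟩ : ∃ A : ℕ, 2 ≤ A ∧ 480 / ε ≤ A :=
    ⟨⌈480 / ε⌉₊ + 2, by omega, by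
      have := Nat.le_ceil (480 / ε)
      push_cast
      linarith⟩
  have hA0 : (0 : ℝ) < A := by
    have : (2 : ℝ) ≤ A := by exact_mod_cast hA2
    linarith
  obtain ⟨η, hη0, hη1, hηε⟩ : ∃ η : ℝ, 0 < η ∧ η ≤ 1 ∧ 1200 * η * A ≤ ε / 10 := by
    refine ⟨min 1 (ε / (12000 * A)), lt_min one_pos (by positivity), min_le_left _ _, ?_⟩
    have h1 : min 1 (ε / (12000 * A)) ≤ ε / (12000 * A) := min_le_right _ _
    have h2 : 1200 * min 1 (ε / (12000 * A)) * A ≤ 1200 * (ε / (12000 * A)) * A := by gcongr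
    refine h2.trans (le_of_eq ?_)
    field_simp
    norm_num
  obtain ⟨D, hDd⟩ : ∃ D : ℝ, D = CL / η := ⟨_, rfl⟩
  have hD : 0 < D := by rw [hDd]; positivity
  obtain ⟨G₁, hG₁d⟩ : ∃ G₁ : ℝ, G₁ = 1 + 1 / c₁ ^ 2 := ⟨_, rfl⟩
  have hG₁ : 0 < G₁ := by rw [hG₁d]; positivity
  obtain ⟨ε₁, hε₁d⟩ : ∃ ε₁ : ℝ, ε₁ = ε / (12000 * B * D * G₁) := ⟨_, rfl⟩
  have hε₁ : 0 < ε₁ := by rw [hε₁d]; positivity
  obtain ⟨e, he, hbes⟩ := hbes ε₁ hε₁
  refine ⟨e, he, ?_⟩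
  intro R
  obtain ⟨s₁, hs₁⟩ := hbes R
  obtain ⟨y, hy1, hy2, hy3⟩ : ∃ y : ℕ, 1 ≤ y ∧ 6000 * (D * CG) / ε ≤ y ∧
      24000000 * D / ε ≤ y :=
    ⟨⌈6000 * (D * CG) / ε⌉₊ + ⌈24000000 * D / ε⌉₊ + 1, by omega, by
      have := Nat.le_ceil (6000 * (D * CG) / ε)
      push_cast
      have h2 : (0 : ℝ) ≤ (⌈24000000 * D / ε⌉₊ : ℝ) := Nat.cast_nonneg _
      linarith, by
      have := Nat.le_ceil (24000000 * D / ε)
      push_cast
      have h2 : (0 : ℝ) ≤ (⌈6000 * (D * CG) / ε⌉₊ : ℝ) := Nat.cast_nonneg _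
      linarith⟩
  obtain ⟨G, hGd⟩ : ∃ G : ℝ, G = 4800 * B * D + 1200 * D * (A + 1) + 2400 * (D * CG) +
    (5400 + 1) * (2 * A * CM) := ⟨_, rfl⟩
  have hG : 0 < G := by rw [hGd]; positivity
  obtain ⟨X₂, hX₂, hlim⟩ := hLIM (ε / (10 * G)) (by positivity)
  refine ⟨s₁ + y + 100 * A + m₁ + p₀ + 1, ?_⟩
  intro s hs
  obtain ⟨X₁, hX₁⟩ := hs₁ s (by omega)
  refine ⟨max X₁ X₂, ?_⟩
  intro X lam hX hlam hbase k₀ k hk₀ hk hkX16
  have hXX : X₂ ≤ X.L := le_trans (le_max_right _ _) hX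
  have hX3 : 1 ≤ X.L := by linarith
  have hY1 : 1 ≤ X.L := hX3
  have hT1 : 1 ≤ X.T := hX3.trans X.L_le_T
  have hkT16 : (16 : ℝ) ^ k ≤ X.T := hkX16.trans X.L_le_T
  set Y := X.L with hYd
  have hY : 0 < Y := by linarith
  have hl1 : ∀ n, |lam n| ≤ 1 := by
    intro n
    rcases hlam.pm n with h | h <;> rw [h] <;> norm_num
  have hkX : (k : ℝ) ≤ 2 * X.T ^ (191 / 200 : ℝ) := by
    have h1 : ((16 : ℝ) ^ k) ^ (191 / 200 : ℝ) ≤ X.T ^ (191 / 200 : ℝ) :=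
      Real.rpow_le_rpow (by positivity) hkT16 (by norm_num)
    have h2 : (2 : ℝ) ^ k ≤ ((16 : ℝ) ^ k) ^ (191 / 200 : ℝ) := by
      have h3 : ((16 : ℝ) ^ k) ^ (191 / 200 : ℝ) = ((16 : ℝ) ^ (191 / 200 : ℝ)) ^ k := by
        rw [← Real.rpow_natCast (16 : ℝ) k, ← Real.rpow_mul (by norm_num),
          ← Real.rpow_natCast ((16 : ℝ) ^ (191 / 200 : ℝ)) k, ← Real.rpow_mul (by norm_num),
          mul_comm]
      rw [h3]
      refine pow_le_pow_left₀ (by norm_num) ?_ k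
      have h4 : (16 : ℝ) ^ (1 / 4 : ℝ) ≤ (16 : ℝ) ^ (191 / 200 : ℝ) :=
        Real.rpow_le_rpow_of_exponent_le (by norm_num) (by norm_num)
      have h5 : (16 : ℝ) ^ (1 / 4 : ℝ) = 2 := by
        rw [show (16 : ℝ) = 2 ^ (4 : ℕ) by norm_num, ← Real.rpow_natCast,
          ← Real.rpow_mul (by norm_num)]
        norm_num
      linarith
    have h6 : (k : ℝ) ≤ 2 ^ k := by
      have : k < 2 ^ k := Nat.lt_two_pow_self
      exact_mod_cast this.le
    have h7 : 0 ≤ X.T ^ (191 / 200 : ℝ) := Real.rpow_nonneg (by linarith) _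
    linarith
  have hBs : s ≤ B * s := Nat.le_mul_of_pos_left _ (by omega)
  have hk₀s : 4000 * s ≤ k₀ := by
    have h1 : 4000 * B * s = 4000 * (B * s) := by ring
    rw [h1] at hk₀
    omega
  have hk1 : 1 ≤ k := by omega
  have hΦ := hlim X k hXX hkX
  rw [← hYd] at hΦ
  obtain ⟨Φ, hΦd⟩ : ∃ Φ : ℝ, Φ = ((k : ℝ) + 1) * (1 + Real.log (k + 1)) := ⟨_, rfl⟩
  rw [← hΦd] at hΦ
  have hk0r : (0 : ℝ) ≤ k := Nat.cast_nonneg _
  have hlog0 : 0 ≤ Real.log ((k : ℝ) + 1) := Real.log_nonneg (by linarith)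
  have hΦk : (k : ℝ) + 1 ≤ Φ := by
    rw [hΦd]
    exact le_mul_of_one_le_right (by linarith) (by linarith)
  have hΦl : 1 + Real.log ((k : ℝ) + 1) ≤ Φ := by
    rw [hΦd]
    exact le_mul_of_one_le_left (by linarith) (by linarith)
  have hΦ0 : 0 < Φ := by linarith
  -- the sum over a chain
  obtain ⟨E, hEd⟩ : ∃ E : ℝ, E = G₁ * ε₁ + 4 * Φ / Y := ⟨_, rfl⟩
  have hE : ∀ (K : ℕ) (c : ℕ → ℕ), Chn B k₀ (2 * k) K c →
      ∑ i ∈ range K, (wbA lam X (c i) + wbF lam X (c i) (th / 2) dl c₁) ≤ E * X.L := by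
    intro K c hc
    rw [← hYd]
    have hEY : E * Y = G₁ * ε₁ * Y + 4 * Φ := by
      rw [hEd]
      field_simp
    rw [hEY]
    rcases Nat.eq_zero_or_pos K with h0 | h0
    · subst h0
      rw [sum_range_zero]
      positivity
    · have hK := chn_le hKCH hB2 (by omega) hk1 hc
      have hK4 : (K : ℝ) ≤ 4 * Φ := by linarith
      choose αA gA hgA hA using fun i => (hBAB lam X (c i) hl1).2.2.2.2.1
      obtain ⟨hbA, hbB⟩ := hX₁ X K lam c (le_trans (le_max_left _ _) hX)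
        (fun n _ => hlam.pm n) hbase
        (by
          have h2 := (hc.1 0 h0).1
          have h3 : B₀ * s ≤ B * s := Nat.mul_le_mul_right _ hBB
          have h4 : 4000 * B * s = 4000 * (B * s) := by ring
          rw [h4] at hk₀
          omega) (fun i hi => by
          have h2 := hc.2 i hi
          have h3 : B₀ * c i ≤ B * c i := Nat.mul_le_mul_right _ hBB
          omega) (fun i hi => by
          have h5 : (4 : ℝ) ^ (2 * k) = 16 ^ k := by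
            rw [pow_mul]; norm_num
          have h6 : (4 : ℝ) ^ c i ≤ 4 ^ (2 * k) :=
            pow_le_pow_right₀ (by norm_num) (hc.1 i hi).2
          rw [h5] at h6
          exact h6.trans hkX16)
      have h1 := hbA αA gA (fun i _ n q hq => hgA i n q hq)
      obtain ⟨αB, hαB, h2⟩ := hbB (fun i => wit lam (c i) (th / 2) dl c₁)
      have h3 : ∑ i ∈ range K, (wbA lam X (c i) + wbF lam X (c i) (th / 2) dl c₁) ≤
          ∑ i ∈ range K, (wbv lam X (c i) (fun n _ => αA i n) (gA i) + 1) +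
          ∑ i ∈ range K, 1 / c₁ ^ 2 * (wlg X (fun n => ∑ q ∈ EB.QQ (c i), 1 / (q : ℝ) *
            (EB.ind (th / 2 ≤ ‖EB.crq lam q (2 ^ c i) n
              (wit lam (c i) (th / 2) dl c₁ n q)‖) *
              EB.zz lam q (2 ^ c i) n (αB i n q) (fun _ => 1) ^ 2))) := by
        rw [← sum_add_distrib]
        refine sum_le_sum fun i hi => ?_
        rw [mem_range] at hi
        exact add_le_add (hA i) (bF_le hc₁ (αB i) (hαB i hi))
      have h3a : ∑ i ∈ range K, (wbv lam X (c i) (fun n _ => αA i n) (gA i) + 1) =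
          ∑ i ∈ range K, wbv lam X (c i) (fun n _ => αA i n) (gA i) + K := by
        rw [sum_add_distrib, sum_const, card_range, nsmul_eq_mul, mul_one]
      rw [h3a, ← mul_sum] at h3
      have h4 : ∑ i ∈ range K, wbv lam X (c i) (fun n _ => αA i n) (gA i) ≤ ε₁ * Y := h1
      rw [← hYd] at h2
      have h5 := mul_le_mul_of_nonneg_left h2 (by positivity : 0 ≤ 1 / c₁ ^ 2)
      have h6 : G₁ * ε₁ * Y = ε₁ * Y + 1 / c₁ ^ 2 * (ε₁ * Y) := by
        rw [hG₁d]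
        ring
      rw [h6]
      linarith
  have hcore := coreS (κ' := κ) hTEL hHAR hGSM hTEB hth hth1 hCL hCM hCG
    (fun lam X m => wbA lam X m + wbF lam X m (th / 2) dl c₁)
    (fun lam X m hl => add_nonneg (hBAB lam X m hl).1 (bF_nonneg lam X m _ _ _)) hlev hmn hgq
    lam X A B k₀ k η E hX3 hlam hA2 hB2 hη0 hη1 (by omega) (by omega) (by omega) (by omega)
    hk hE
  rw [← hDd, ← hYd] at hcore
  -- the single terms
  have t1 : 48 / (A : ℝ) ≤ ε / 10 := by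
    rw [div_le_iff₀ hA0]
    rw [div_le_iff₀ hε] at hAε
    linarith
  have t3a : 1200 * B * (D * (G₁ * ε₁)) = ε / 10 := by
    rw [hε₁d]
    field_simp
    norm_num
  have hk₀0 : (0 : ℝ) < k₀ := by
    have : 0 < k₀ := by omega
    exact_mod_cast this
  have t4 : 600 * (D * (CG / (k₀ : ℝ))) ≤ ε / 10 := by
    have h1 : (y : ℝ) ≤ k₀ := by
      have : y ≤ k₀ := by omega
      exact_mod_cast this
    have h2 : 600 * (D * (CG / (k₀ : ℝ))) = 600 * (D * CG) / k₀ := by ring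
    rw [h2, div_le_iff₀ hk₀0]
    rw [div_le_iff₀ hε] at hy2
    have h3 := mul_le_mul_of_nonneg_right h1 hε.le
    linarith
  have t5 : 600 * (D * (4000 * (1 / 2) ^ (k₀ / 2000))) ≤ ε / 10 := by
    have hy0 : (0 : ℝ) < y := by exact_mod_cast hy1
    have h1 : ((1 : ℝ) / 2) ^ (k₀ / 2000) ≤ 1 / y := by
      apply half_pow_le hy0
      have : y ≤ k₀ / 2000 := by omega
      exact_mod_cast this
    have h2 : 600 * (D * (4000 * (1 / 2) ^ (k₀ / 2000))) ≤ 600 * (D * (4000 * (1 / y))) := by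
      gcongr
    refine h2.trans ?_
    have h3 : 600 * (D * (4000 * (1 / (y : ℝ)))) = 2400000 * D / y := by ring
    rw [h3, div_le_iff₀ hy0]
    rw [div_le_iff₀ hε] at hy3
    linarith
  have hGΦ : G * (Φ / Y) ≤ ε / 10 := by
    have h1 : Φ / Y ≤ ε / (10 * G) := by
      rw [div_le_iff₀ hY]; exact hΦ
    have h2 := mul_le_mul_of_nonneg_left h1 hG.le
    refine h2.trans (le_of_eq ?_)
    field_simp
  have t3c : 1200 * B * (D * (4 * Φ / Y)) = 4800 * B * D * (Φ / Y) := by ring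
  have t6 : 600 * (D * ((2 * k : ℕ) * (2 * 0 + A + 1) / Y)) ≤
      1200 * D * (A + 1) * (Φ / Y) := by
    have h1 : ((2 * k : ℕ) : ℝ) ≤ 2 * Φ := by
      push_cast
      linarith
    have h2 : 600 * (D * ((2 * k : ℕ) * (2 * 0 + A + 1) / Y)) ≤
      600 * (D * (2 * Φ * (2 * 0 + A + 1) / Y)) := by gcongr
    refine h2.trans (le_of_eq ?_)
    ring
  have hAk : ((A * (2 * k) : ℕ) : ℝ) + 1 ≤ 2 * A * (k + 1) := by
    push_cast
    have : (2 : ℝ) ≤ A := by exact_mod_cast hA2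
    linarith
  have hlog2k : Real.log ((2 * k : ℕ) : ℝ) ≤ 1 + Real.log (k + 1) := by
    have hk' : (0 : ℝ) < k := by exact_mod_cast hk1
    push_cast
    rw [Real.log_mul (by norm_num) hk'.ne']
    have h1 : Real.log (k : ℝ) ≤ Real.log (k + 1) := Real.log_le_log hk' (by linarith)
    have h2 := Real.log_two_lt_d9
    linarith
  have hlog2k0 : 0 ≤ Real.log ((2 * k : ℕ) : ℝ) := Real.log_natCast_nonneg _
  have hl2k : 2 + Real.log ((2 * k : ℕ) : ℝ) ≤ 3 * (1 + Real.log (k + 1)) := by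
    linarith
  have hl2k0 : 0 ≤ 2 + Real.log ((2 * k : ℕ) : ℝ) := by
    linarith
  have t9 : 600 * (D * (CG * ((2 * k : ℕ) + 1) * (1 + Real.log (2 * k : ℕ)) / Y)) ≤
      2400 * (D * CG) * (Φ / Y) := by
    have h1 : ((2 * k : ℕ) : ℝ) + 1 ≤ 2 * (k + 1) := by
      push_cast
      linarith
    have h2 : 1 + Real.log ((2 * k : ℕ) : ℝ) ≤ 2 * (1 + Real.log (k + 1)) := by linarith
    have h3 : 600 * (D * (CG * ((2 * k : ℕ) + 1) * (1 + Real.log (2 * k : ℕ)) / Y)) ≤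
      600 * (D * (CG * (2 * (k + 1)) * (2 * (1 + Real.log (k + 1))) / Y)) := by gcongr
    refine h3.trans (le_of_eq ?_)
    rw [hΦd]
    ring
  have t7 : 1800 * (CM * ((A * (2 * k) : ℕ) + 1) / Y) *
      (2 + Real.log (2 * k : ℕ)) ≤ 5400 * (2 * A * CM) * (Φ / Y) := by
    have h1 : 1800 * (CM * ((A * (2 * k) : ℕ) + 1) / Y) *
        (2 + Real.log (2 * k : ℕ)) ≤ 1800 * (CM * (2 * A * (k + 1)) / Y) *
        (3 * (1 + Real.log (k + 1))) := by gcongr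
    refine h1.trans (le_of_eq ?_)
    rw [hΦd]
    ring
  have t8 : CM * ((A * (2 * k) : ℕ) + 1) / Y ≤ (2 * A * CM) * (Φ / Y) := by
    have h1 : CM * ((A * (2 * k) : ℕ) + 1) / Y ≤ CM * (2 * A * Φ) / Y := by
      gcongr
      exact hAk.trans (by gcongr)
    refine h1.trans (le_of_eq ?_)
    ring
  have hEX : 1200 * B * (D * E) = 1200 * B * (D * (G₁ * ε₁)) +
      1200 * B * (D * (4 * Φ / Y)) := by
    rw [hEd]
    ring
  have h5X : 600 * (D * (4000 * (1 / 2) ^ (k₀ / 2000) +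
        (2 * k : ℕ) * (2 * 0 + A + 1) / Y)) =
      600 * (D * (4000 * (1 / 2) ^ (k₀ / 2000))) +
        600 * (D * ((2 * k : ℕ) * (2 * 0 + A + 1) / Y)) := by ring
  have h6X : 600 * (D * (CG / k₀ + CG * ((2 * k : ℕ) + 1) * (1 + Real.log (2 * k : ℕ)) /
        Y)) = 600 * (D * (CG / (k₀ : ℝ))) +
      600 * (D * (CG * ((2 * k : ℕ) + 1) * (1 + Real.log (2 * k : ℕ)) / Y)) := by ring
  have hGX : G * (Φ / Y) = 4800 * B * D * (Φ / Y) + 1200 * D * (A + 1) * (Φ / Y) +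
      2400 * (D * CG) * (Φ / Y) +
      5400 * (2 * A * CM) * (Φ / Y) + (2 * A * CM) * (Φ / Y) := by
    rw [hGd]
    ring
  linarith

end Pool.Agent.H3.GW.C
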