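import Pool.Agent.H72.GS2.TEB
import Pool.Agent.H3.GW.Defs

/-!
# The mean energies are bounded
-/

set_option autoImplicit false

namespace Pool.Agent.H3.GW.C

open Pool.Agent.H72.GS2 Pool.Agent.H28.NW Pool.Agent.H3.GW
open Finset Pool.Agent.H6.N4D Pool.Agent.H93.GS Pool.Agent.H93

theorem pf_TEB (hOPT : T_OPT) : W_TEB := by
  intro th h0 h1 X k lam hX hl
  have hen : ∀ n, 0 ≤ En th lam 1 (2 ^ k) n ∧ En th lam 1 (2 ^ k) n ≤ 1 := by
    intro n
    obtain ⟨g, _, _, h2, _, h3⟩ := hOPT th lam 1 (2 ^ k) n h0 h1 hl le_rfl Nat.one_le_two_pow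
    exact ⟨h2, h3 rfl⟩
  have h4 := wlg_one_le X
  unfold wte
  constructor
  · exact div_nonneg (wlg_nonneg fun n _ => (hen n).1) (by linarith)
  · rw [div_le_iff₀ (by linarith)]
    have h5 : wlg X (fun n => En th lam 1 (2 ^ k) n) ≤ wlg X (fun _ => 1) :=
      wlg_mono fun n _ => (hen n).2
    linarith

end Pool.Agent.H3.GW.C
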